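import Mathlib

namespace Pool.Agent.Helper52.CM.Grid

open Finset

variable {n : ℕ}

/-- unit step in direction `j` -/
def st (x : Fin n → ℕ) (j : Fin n) : Fin n → ℕ := Function.update x j (x j + 1)

theorem st_comm (x : Fin n → ℕ) {j k : Fin n} (h : j ≠ k) : st (st x j) k = st (st x k) j := by
  unfold st
  rw [Function.update_of_ne h.symm, Function.update_of_ne h, Function.update_comm h.symm]

/-- sum over orderings of `S` of products of differences -/
def W : List ((Fin n → ℕ) → ZMod 2) → (Fin n → ℕ) → Finset (Fin n) → ZMod 2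
  | [], _, _ => 1
  | μ :: L, x, S => ∑ j ∈ S, (μ (st x j) + μ x) * W L (st x j) (S.erase j)

theorem add_self_z2 (a : ZMod 2) : a + a = 0 := CharTwo.add_self_eq_zero a

theorem eq_of_add_eq_zero_z2 {a b : ZMod 2} (h : a + b = 0) : a = b := by
  rwa [CharTwo.add_eq_zero] at h

theorem sum_symm_eq_zero (S : Finset (Fin n)) (f : Fin n → Fin n → ZMod 2)
    (hf : ∀ j k, j ∈ S → k ∈ S → j ≠ k → f j k = f k j) : ∑ j ∈ S, ∑ k ∈ S.erase j, f j k = 0 := by
  have h1 : ∑ j ∈ S, ∑ k ∈ S.erase j, f j k = ∑ p ∈ S.offDiag, f p.1 p.2 := by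
    rw [Finset.sum_sigma']
    refine Finset.sum_nbij' (fun p => (p.1, p.2)) (fun p => ⟨p.1, p.2⟩) ?_ ?_ ?_ ?_ ?_
    · rintro ⟨a, b⟩ h; simp at h ⊢; exact ⟨h.1, h.2.2, fun h' => h.2.1 h'.symm⟩
    · rintro ⟨a, b⟩ h; simp at h ⊢; exact ⟨h.1, fun h' => h.2.2 h'.symm, h.2.1⟩
    · intro _ _; rfl
    · intro _ _; rfl
    · intro _ _; rfl
  rw [h1]
  refine Finset.sum_involution (fun p _ => p.swap) ?_ ?_ ?_ ?_
  · rintro ⟨a, b⟩ h
    simp only [mem_offDiag] at h
    simp only [Prod.fst_swap, Prod.snd_swap]
    rw [hf a b h.1 h.2.1 h.2.2, add_self_z2]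
  · rintro ⟨a, b⟩ h _ hcon
    simp only [mem_offDiag] at h
    simp only [Prod.swap_prod_mk, Prod.mk.injEq] at hcon
    exact h.2.2 hcon.2
  · rintro ⟨a, b⟩ h
    simp only [mem_offDiag, Prod.swap_prod_mk] at h ⊢
    exact ⟨h.2.1, h.1, h.2.2.symm⟩
  · rintro ⟨a, b⟩ h; rfl

theorem sum_swap (S : Finset (Fin n)) (f : Fin n → Fin n → ZMod 2) :
    ∑ j ∈ S, ∑ k ∈ S.erase j, f j k = ∑ j ∈ S, ∑ k ∈ S.erase j, f k j := by
  refine Finset.sum_comm' ?_
  intro x y
  simp only [mem_erase]
  tauto

/-- closedness -/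
theorem closed_W (L : List ((Fin n → ℕ) → ZMod 2)) : ∀ (x : Fin n → ℕ) (S : Finset (Fin n)),
    ∑ j ∈ S, (W L (st x j) (S.erase j) + W L x (S.erase j)) = 0 := by
  induction L with
  | nil => intro x S; simp only [W, add_self_z2, sum_const_zero]
  | cons μ L ih =>
    intro x S
    -- consequences of the induction hypothesis
    have ih' : ∀ (x : Fin n → ℕ) (S : Finset (Fin n)),
        ∑ j ∈ S, W L (st x j) (S.erase j) = ∑ j ∈ S, W L x (S.erase j) := by
      intro x S
      have := ih x S
      rw [Finset.sum_add_distrib] at this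
      exact eq_of_add_eq_zero_z2 this
    have hA : ∑ j ∈ S, ∑ k ∈ S.erase j,
        μ (st (st x j) k) * W L (st (st x j) k) ((S.erase j).erase k) = 0 := by
      apply sum_symm_eq_zero
      intro j k _ _ hjk
      rw [st_comm x hjk, Finset.erase_right_comm]
    have hB : ∑ j ∈ S, ∑ k ∈ S.erase j,
        μ (st x j) * W L (st (st x j) k) ((S.erase j).erase k) =
        ∑ j ∈ S, ∑ k ∈ S.erase j, μ (st x j) * W L (st x j) ((S.erase j).erase k) := by
      apply Finset.sum_congr rfl
      intro j _
      rw [← Finset.mul_sum, ← Finset.mul_sum, ih' (st x j) (S.erase j)]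
    have hC : ∑ j ∈ S, ∑ k ∈ S.erase j,
        μ (st x k) * W L (st x k) ((S.erase j).erase k) =
        ∑ j ∈ S, ∑ k ∈ S.erase j, μ (st x j) * W L (st x j) ((S.erase j).erase k) := by
      rw [sum_swap S (fun j k => μ (st x k) * W L (st x k) ((S.erase j).erase k))]
      apply Finset.sum_congr rfl
      intro j _
      apply Finset.sum_congr rfl
      intro k _
      rw [Finset.erase_right_comm]
    have hD : ∑ j ∈ S, ∑ k ∈ S.erase j,
        μ x * W L (st x k) ((S.erase j).erase k) = 0 := by
      have : ∑ j ∈ S, ∑ k ∈ S.erase j, μ x * W L (st x k) ((S.erase j).erase k) =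
          ∑ j ∈ S, ∑ k ∈ S.erase j, μ x * W L x ((S.erase j).erase k) := by
        apply Finset.sum_congr rfl
        intro j _
        rw [← Finset.mul_sum, ← Finset.mul_sum, ih' x (S.erase j)]
      rw [this]
      apply sum_symm_eq_zero
      intro j k _ _ hjk
      rw [Finset.erase_right_comm]
    have hexp : ∑ j ∈ S, (W (μ :: L) (st x j) (S.erase j) + W (μ :: L) x (S.erase j)) =
        ∑ j ∈ S, ∑ k ∈ S.erase j,
          μ (st (st x j) k) * W L (st (st x j) k) ((S.erase j).erase k) +
        ∑ j ∈ S, ∑ k ∈ S.erase j,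
          μ (st x j) * W L (st (st x j) k) ((S.erase j).erase k) +
        ∑ j ∈ S, ∑ k ∈ S.erase j,
          μ (st x k) * W L (st x k) ((S.erase j).erase k) +
        ∑ j ∈ S, ∑ k ∈ S.erase j,
          μ x * W L (st x k) ((S.erase j).erase k) := by
      simp only [W, ← Finset.sum_add_distrib]
      apply Finset.sum_congr rfl
      intro j _
      apply Finset.sum_congr rfl
      intro k _
      ring
    rw [hexp, hA, hB, hC, hD, zero_add, add_zero, add_self_z2]

/-- discrete Stokes on one cube -/
theorem stokes_W (μ : (Fin n → ℕ) → ZMod 2) (L : List ((Fin n → ℕ) → ZMod 2)) (x : Fin n → ℕ)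
    (S : Finset (Fin n)) :
    W (μ :: L) x S = ∑ j ∈ S, (μ (st x j) * W L (st x j) (S.erase j) +
      μ x * W L x (S.erase j)) := by
  have h := closed_W L x S
  rw [Finset.sum_add_distrib] at h
  have h' := eq_of_add_eq_zero_z2 h
  simp only [W, add_mul, Finset.sum_add_distrib, ← Finset.mul_sum, h']

/-- the box: coordinates in `S` run below `N`, the others are equal to `N` -/
def box (N : ℕ) (S : Finset (Fin n)) : Finset (Fin n → ℕ) :=
  Fintype.piFinset fun j => if j ∈ S then range N else {N}

theorem mem_box {N : ℕ} {S : Finset (Fin n)} {x : Fin n → ℕ} :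
    x ∈ box N S ↔ ∀ j, (j ∈ S → x j < N) ∧ (j ∉ S → x j = N) := by
  unfold box
  rw [Fintype.mem_piFinset]
  apply forall_congr'
  intro j
  by_cases hj : j ∈ S <;> simp [hj]

theorem telescope {N : ℕ} {S : Finset (Fin n)} {j : Fin n} (hj : j ∈ S)
    (Ψ : (Fin n → ℕ) → ZMod 2) :
    ∑ x ∈ box N S, (Ψ (st x j) + Ψ x) =
      ∑ y ∈ box N (S.erase j), (Ψ y + Ψ (Function.update y j 0)) := by
  have h1 : ∑ x ∈ box N S, (Ψ (st x j) + Ψ x) =
      ∑ p ∈ (box N (S.erase j)) ×ˢ range N,
        (Ψ (Function.update p.1 j (p.2 + 1)) + Ψ (Function.update p.1 j p.2)) := by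
    refine Finset.sum_nbij' (fun x => (Function.update x j N, x j))
      (fun p => Function.update p.1 j p.2) ?_ ?_ ?_ ?_ ?_
    · intro x hx
      rw [mem_box] at hx
      rw [mem_product, mem_box, mem_range]
      refine ⟨fun k => ?_, (hx j).1 hj⟩
      by_cases hkj : k = j
      · subst hkj; simp
      · simp only [mem_erase, ne_eq, hkj, not_false_iff, true_and, Function.update_of_ne]
        exact hx k
    · rintro ⟨y, t⟩ hp
      rw [mem_product, mem_box, mem_range] at hp
      rw [mem_box]
      intro k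
      by_cases hkj : k = j
      · subst hkj; simp [hj, hp.2]
      · have := hp.1 k
        simp only [mem_erase, ne_eq, hkj, not_false_iff, true_and] at this
        simpa [Function.update_of_ne hkj] using this
    · intro x _; simp
    · rintro ⟨y, t⟩ hp
      rw [mem_product, mem_box, mem_range] at hp
      have := (hp.1 j).2 (by simp)
      simp only [Function.update_idem, Function.update_self, Prod.mk.injEq, and_true]
      rw [← this]; simp
    · intro x _
      simp [st]
  rw [h1, Finset.sum_product]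
  apply Finset.sum_congr rfl
  intro y hy
  have hyj : y j = N := ((mem_box.1 hy) j).2 (by simp)
  have h2 : ∀ M : ℕ, ∑ t ∈ range M, (Ψ (Function.update y j (t + 1)) + Ψ (Function.update y j t)) =
      Ψ (Function.update y j M) + Ψ (Function.update y j 0) := by
    intro M
    induction M with
    | zero => simp [add_self_z2]
    | succ M ih =>
      rw [Finset.sum_range_succ, ih]
      have := add_self_z2 (Ψ (Function.update y j M))
      linear_combination this
  rw [h2 N]
  congr 2
  rw [← hyj]; simp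

theorem W_eq_zero_of_const (L : List ((Fin n → ℕ) → ZMod 2)) (j : Fin n) (μ : (Fin n → ℕ) → ZMod 2)
    (hμ : μ ∈ L) : ∀ (x : Fin n → ℕ) (S : Finset (Fin n)) (_ : j ∉ S)
    (_ : ∀ y : Fin n → ℕ, y j = x j → μ y = μ x), W L x S = 0 := by
  induction L with
  | nil => simp at hμ
  | cons ν L ih =>
    intro x S hj hc
    simp only [W]
    apply Finset.sum_eq_zero
    intro k hk
    have hkj : j ≠ k := fun h => hj (h ▸ hk)
    have hst : (st x k) j = x j := by unfold st; rw [Function.update_of_ne hkj]
    rcases List.mem_cons.1 hμ with rfl | hL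
    · rw [hc _ hst, add_self_z2, zero_mul]
    · rw [ih hL (st x k) (S.erase k) (fun h => hj (mem_of_mem_erase h)) ?_, mul_zero]
      intro y hy
      rw [hc y (hy.trans hst), hc _ hst]

/-- the fundamental count -/
theorem sum_box_W (N : ℕ) : ∀ (L : List (Fin n × ((Fin n → ℕ) → ZMod 2)))
    (_ : (L.map Prod.fst).Nodup)
    (_ : ∀ p ∈ L, ∀ y : Fin n → ℕ, (y p.1 = 0 → p.2 y = 0) ∧ (y p.1 = N → p.2 y = 1)),
    ∑ x ∈ box N (L.map Prod.fst).toFinset, W (L.map Prod.snd) x (L.map Prod.fst).toFinset = 1 := by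
  intro L
  induction L with
  | nil =>
    intro _ _
    have : box N (∅ : Finset (Fin n)) = {fun _ => N} := by
      ext x
      rw [mem_box, mem_singleton]
      constructor
      · intro h; funext j; exact (h j).2 (by simp)
      · rintro rfl j; simp
    simp [W, this]
  | cons p L ih =>
    intro hnd hL
    set S : Finset (Fin n) := ((p :: L).map Prod.fst).toFinset with hS
    set S' : Finset (Fin n) := (L.map Prod.fst).toFinset with hS'
    have hnd' : (L.map Prod.fst).Nodup := (List.nodup_cons.1 hnd).2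
    have hpn : p.1 ∉ L.map Prod.fst := (List.nodup_cons.1 hnd).1
    have hSS : S = insert p.1 S' := by rw [hS, hS']; simp
    have hpS' : p.1 ∉ S' := by rw [hS', List.mem_toFinset]; exact hpn
    have hpS : p.1 ∈ S := by rw [hSS]; exact mem_insert_self _ _
    simp only [List.map_cons]
    simp only [stokes_W]
    rw [Finset.sum_comm]
    have key : ∀ j ∈ S, ∑ x ∈ box N S, (p.2 (st x j) * W (L.map Prod.snd) (st x j) (S.erase j) +
        p.2 x * W (L.map Prod.snd) x (S.erase j)) = if j = p.1 then 1 else 0 := by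
      intro j hj
      have ht := telescope (N := N) hj (fun x => p.2 x * W (L.map Prod.snd) x (S.erase j))
      rw [ht]
      by_cases hjp : j = p.1
      · subst hjp
        rw [if_pos rfl]
        have he : S.erase p.1 = S' := by rw [hSS]; exact erase_insert hpS'
        rw [he]
        rw [← ih hnd' (fun q hq => hL q (List.mem_cons_of_mem _ hq))]
        apply Finset.sum_congr rfl
        intro y hy
        have h1 : y p.1 = N := ((mem_box.1 hy) p.1).2 hpS'
        have h2 := (hL p List.mem_cons_self y).2 h1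
        have h3 := (hL p List.mem_cons_self (Function.update y p.1 0)).1 (by simp)
        rw [h2, h3]
        ring
      · rw [if_neg hjp]
        apply Finset.sum_eq_zero
        intro y hy
        have hjS' : j ∈ S' := by
          rw [hSS, mem_insert] at hj
          exact hj.resolve_left hjp
        rw [hS', List.mem_toFinset, List.mem_map] at hjS'
        obtain ⟨q, hq, rfl⟩ := hjS'
        have hyj : y q.1 = N := ((mem_box.1 hy) q.1).2 (by simp)
        have hqL := hL q (List.mem_cons_of_mem _ hq)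
        rw [W_eq_zero_of_const (L.map Prod.snd) q.1 q.2 (List.mem_map_of_mem hq) y (S.erase q.1)
          (by simp) (fun z hz => by rw [(hqL z).2 (hz.trans hyj), (hqL y).2 hyj])]
        rw [W_eq_zero_of_const (L.map Prod.snd) q.1 q.2 (List.mem_map_of_mem hq)
          (Function.update y q.1 0) (S.erase q.1)
          (by simp) (fun z hz => by
            rw [(hqL z).1 (by rw [hz]; simp), (hqL (Function.update y q.1 0)).1 (by simp)])]
        ring
    rw [Finset.sum_congr rfl key]
    rw [Finset.sum_ite_eq' S p.1 (fun _ => (1 : ZMod 2)), if_pos hpS]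

theorem exists_ne_of_W_ne_zero (L : List ((Fin n → ℕ) → ZMod 2)) :
    ∀ (x : Fin n → ℕ) (S : Finset (Fin n)) (_ : W L x S ≠ 0), ∀ μ ∈ L,
    ∃ y y' : Fin n → ℕ, (∀ j, x j ≤ y j ∧ y j ≤ x j + 1) ∧ (∀ j, x j ≤ y' j ∧ y' j ≤ x j + 1) ∧
      (∀ j, j ∉ S → y j = x j ∧ y' j = x j) ∧ μ y ≠ μ y' := by
  induction L with
  | nil => simp
  | cons ν L ih =>
    intro x S hW μ hμ
    simp only [W] at hW
    obtain ⟨k, hk, hne⟩ := Finset.exists_ne_zero_of_sum_ne_zero hW
    have h1 : ν (st x k) + ν x ≠ 0 := fun h => hne (by rw [h, zero_mul])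
    have h2 : W L (st x k) (S.erase k) ≠ 0 := fun h => hne (by rw [h, mul_zero])
    rcases List.mem_cons.1 hμ with rfl | hL
    · refine ⟨st x k, x, ?_, fun j => ⟨le_rfl, Nat.le_succ _⟩, ?_, ?_⟩
      · intro j
        by_cases hjk : j = k
        · subst hjk; simp [st]
        · simp [st, Function.update_of_ne hjk]
      · intro j hj
        have hjk : j ≠ k := fun h => hj (h ▸ hk)
        simp [st, Function.update_of_ne hjk]
      · intro h
        apply h1
        rw [h, add_self_z2]
    · obtain ⟨y, y', a1, a2, a3, a4⟩ := ih (st x k) (S.erase k) h2 μ hL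
      refine ⟨y, y', ?_, ?_, ?_, a4⟩
      · intro j
        by_cases hjk : j = k
        · subst hjk
          have := (a3 j (by simp)).1
          rw [this]; simp [st]
        · have := a1 j
          simpa [st, Function.update_of_ne hjk] using this
      · intro j
        by_cases hjk : j = k
        · subst hjk
          have := (a3 j (by simp)).2
          rw [this]; simp [st]
        · have := a2 j
          simpa [st, Function.update_of_ne hjk] using this
      · intro j hj
        have hjk : j ≠ k := fun h => hj (h ▸ hk)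
        have := a3 j (fun h => hj (mem_of_mem_erase h))
        simpa [st, Function.update_of_ne hjk] using this

/-- Discrete Poincare-Miranda theorem (mod 2). -/
theorem exists_cube (N : ℕ) (f : Fin n → (Fin n → ℕ) → ZMod 2)
    (hf : ∀ i, ∀ y : Fin n → ℕ, (y i = 0 → f i y = 0) ∧ (y i = N → f i y = 1)) :
    ∃ x : Fin n → ℕ, (∀ j, x j < N) ∧ ∀ i, ∃ y y' : Fin n → ℕ,
      (∀ j, x j ≤ y j ∧ y j ≤ x j + 1) ∧ (∀ j, x j ≤ y' j ∧ y' j ≤ x j + 1) ∧ f i y ≠ f i y' := by
  set L : List (Fin n × ((Fin n → ℕ) → ZMod 2)) := (List.finRange n).map (fun i => (i, f i))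
    with hLdef
  have hfst : L.map Prod.fst = List.finRange n := by
    rw [hLdef, List.map_map]
    exact List.map_id _
  have hsum := sum_box_W N L (by rw [hfst]; exact List.nodup_finRange n) (by
    intro p hp y
    rw [hLdef, List.mem_map] at hp
    obtain ⟨i, -, rfl⟩ := hp
    exact hf i y)
  rw [hfst] at hsum
  have hne : ∑ x ∈ box N (List.finRange n).toFinset,
      W (L.map Prod.snd) x (List.finRange n).toFinset ≠ 0 := by rw [hsum]; exact one_ne_zero
  obtain ⟨x, hx, hxW⟩ := Finset.exists_ne_zero_of_sum_ne_zero hne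
  refine ⟨x, fun j => ((mem_box.1 hx) j).1 (by simp), ?_⟩
  intro i
  obtain ⟨y, y', a1, a2, -, a4⟩ := exists_ne_of_W_ne_zero _ x _ hxW (f i) (by
    rw [List.mem_map]
    exact ⟨(i, f i), by rw [hLdef]; exact List.mem_map.2 ⟨i, by simp, rfl⟩, rfl⟩)
  exact ⟨y, y', a1, a2, a4⟩

end Pool.Agent.Helper52.CM.Grid
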