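import Pool.Agent.Helper52.CM.Defs

namespace Pool.Agent.Helper52.CM

open Set TopologicalSpace Topology

/-! ### `CovLT` and `Dim` -/

theorem CovLT.mono {X : Type*} [TopologicalSpace X] {n m : ℕ} (h : n ≤ m) (H : CovLT X n) :
    CovLT X m := by
  intro ι _ U hU hc
  obtain ⟨κ, hκ, V, h1, h2, h3, h4⟩ := H ι U hU hc
  exact ⟨κ, hκ, V, h1, h2, h3, fun x => (h4 x).trans h⟩

theorem dim_lt_iff {X : Type*} [TopologicalSpace X] {n : ℕ} : Dim X < n ↔ CovLT X n := by
  constructor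
  · intro h
    contrapose! h
    simp only [Dim, le_sInf_iff, mem_ofPred_eq]
    intro a ha
    contrapose! ha
    exact ⟨n, ha, h⟩
  · intro h
    cases n with
    | zero =>
      rw [Dim, csInf_eq_bot_of_bot_mem]
      · simp
      · exact fun _ _ ↦ h.mono (Nat.zero_le _)
    | succ n =>
      have : Dim X ≤ n := by
        apply sInf_le
        intro m hm
        exact h.mono (by
          have : n < m := by exact_mod_cast hm
          omega)
      apply this.trans_lt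
      exact_mod_cast n.lt_add_one

theorem dim_le_iff {X : Type*} [TopologicalSpace X] {n : ℕ} : Dim X ≤ n ↔ CovLT X (n + 1) := by
  rw [← dim_lt_iff]
  constructor
  · intro h
    exact h.trans_lt (by exact_mod_cast n.lt_add_one)
  · intro h
    have h' : Dim X < ((n : WithBot ℕ∞)) + 1 := by exact_mod_cast h
    revert h'
    generalize Dim X = d
    intro h'
    induction d using WithBot.recBotCoe with
    | bot => exact bot_le
    | coe d =>
      have h2 : d < (n : ℕ∞) + 1 := by exact_mod_cast h'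
      have h3 : d ≤ (n : ℕ∞) := (ENat.lt_add_one_iff (ENat.natCast_ne_top n)).mp h2
      exact_mod_cast h3

theorem CovLT.homeo {X Y : Type*} [TopologicalSpace X] [TopologicalSpace Y] (e : X ≃ₜ Y) {n : ℕ}
    (H : CovLT X n) : CovLT Y n := by
  intro ι _ U hU hc
  obtain ⟨κ, hκ, V, h1, h2, h3, h4⟩ := H ι (fun i => e ⁻¹' U i)
    (fun i => (hU i).preimage e.continuous) (by rw [← preimage_iUnion, hc, preimage_univ])
  refine ⟨κ, hκ, fun k => e.symm ⁻¹' V k, fun k => (h1 k).preimage e.symm.continuous,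
    by rw [← preimage_iUnion, h2, preimage_univ], ?_, ?_⟩
  · intro k
    obtain ⟨i, hi⟩ := h3 k
    refine ⟨i, fun y hy => ?_⟩
    have := hi hy
    simpa using this
  · intro y
    exact h4 (e.symm y)

theorem covLT_congr {X Y : Type*} [TopologicalSpace X] [TopologicalSpace Y] (e : X ≃ₜ Y) {n : ℕ} :
    CovLT X n ↔ CovLT Y n := ⟨fun h => h.homeo e, fun h => h.homeo e.symm⟩

/-- indexed shrinking form -/
theorem CovLT.shrink {X : Type*} [TopologicalSpace X] {n : ℕ} (H : CovLT X n)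
    {ι : Type} [Finite ι] (U : ι → Set X) (hU : ∀ i, IsOpen (U i)) (hc : (⋃ i, U i) = univ) :
    ∃ V : ι → Set X, (∀ i, IsOpen (V i)) ∧ (⋃ i, V i) = univ ∧ (∀ i, V i ⊆ U i) ∧
      ∀ x, {i | x ∈ V i}.ncard ≤ n := by
  obtain ⟨κ, hκ, V, h1, h2, h3, h4⟩ := H ι U hU hc
  choose τ hτ using h3
  refine ⟨fun i => ⋃ k, ⋃ (_ : τ k = i), V k, fun i => isOpen_iUnion fun k => isOpen_iUnion
    fun _ => h1 k, ?_, ?_, ?_⟩
  · apply eq_univ_of_forall
    intro x
    have hx : x ∈ ⋃ k, V k := by rw [h2]; trivial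
    obtain ⟨k, hk⟩ := mem_iUnion.1 hx
    exact mem_iUnion.2 ⟨τ k, mem_iUnion.2 ⟨k, mem_iUnion.2 ⟨rfl, hk⟩⟩⟩
  · intro i x hx
    simp only [mem_iUnion] at hx
    obtain ⟨k, rfl, hk⟩ := hx
    exact hτ k hk
  · intro x
    refine le_trans ?_ (h4 x)
    have : {i | x ∈ ⋃ k, ⋃ (_ : τ k = i), V k} ⊆ τ '' {k | x ∈ V k} := by
      intro i hi
      simp only [mem_ofPred_eq, mem_iUnion] at hi
      obtain ⟨k, hk, hx⟩ := hi
      exact ⟨k, hx, hk⟩
    exact (ncard_le_ncard this (toFinite _)).trans (ncard_image_le (toFinite _))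

theorem covLT_of_isEmpty (X : Type*) [TopologicalSpace X] [IsEmpty X] (n : ℕ) : CovLT X n := by
  intro ι _ U hU hc
  refine ⟨PEmpty, inferInstance, fun k => k.elim, fun k => k.elim, ?_, fun k => k.elim, ?_⟩
  · exact eq_univ_of_forall fun x => isEmptyElim x
  · exact fun x => isEmptyElim x

/-! ### Families -/

/-- `Z` is covered by `n` families of pairwise disjoint open sets whose traces on `Z` have
diameter `< ε`. -/
def SetFam {X : Type} [PseudoMetricSpace X] (Z : Set X) (n : ℕ) (ε : ℝ) : Prop :=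
  ∃ (ι : Type) (U : Fin n → ι → Set X), (∀ c i, IsOpen (U c i)) ∧
    (∀ c i j, i ≠ j → Disjoint (U c i) (U c j)) ∧
    (∀ c i, ∀ x ∈ Z ∩ U c i, ∀ y ∈ Z ∩ U c i, dist x y < ε) ∧ (∀ x ∈ Z, ∃ c i, x ∈ U c i)

/-- `Sm Z n` : dimension `< n`, metric form. -/
def Sm {X : Type} [PseudoMetricSpace X] (Z : Set X) (n : ℕ) : Prop :=
  ∀ ε : ℝ, 0 < ε → SetFam Z n ε

theorem SetFam.mono_set {X : Type} [PseudoMetricSpace X] {Z Z' : Set X} {n : ℕ} {ε : ℝ}
    (h : Z' ⊆ Z) (H : SetFam Z n ε) : SetFam Z' n ε := by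
  obtain ⟨ι, U, h1, h2, h3, h4⟩ := H
  exact ⟨ι, U, h1, h2, fun c i x hx y hy => h3 c i x ⟨h hx.1, hx.2⟩ y ⟨h hy.1, hy.2⟩,
    fun x hx => h4 x (h hx)⟩

theorem Sm.mono_set {X : Type} [PseudoMetricSpace X] {Z Z' : Set X} {n : ℕ}
    (h : Z' ⊆ Z) (H : Sm Z n) : Sm Z' n := fun ε hε => (H ε hε).mono_set h

theorem SetFam.mono_eps {X : Type} [PseudoMetricSpace X] {Z : Set X} {n : ℕ} {ε ε' : ℝ}
    (h : ε ≤ ε') (H : SetFam Z n ε) : SetFam Z n ε' := by
  obtain ⟨ι, U, h1, h2, h3, h4⟩ := H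
  exact ⟨ι, U, h1, h2, fun c i x hx y hy => (h3 c i x hx y hy).trans_le h, h4⟩

theorem SetFam.mono_nat {X : Type} [PseudoMetricSpace X] {Z : Set X} {n m : ℕ} {ε : ℝ}
    (h : n ≤ m) (H : SetFam Z n ε) : SetFam Z m ε := by
  obtain ⟨ι, U, h1, h2, h3, h4⟩ := H
  refine ⟨ι, fun c i => if hc : c.1 < n then U ⟨c.1, hc⟩ i else ∅, ?_, ?_, ?_, ?_⟩
  · intro c i
    by_cases hc : c.1 < n
    · simp only [hc, dif_pos]; exact h1 _ _
    · simp only [hc, dif_neg, not_false_iff]; exact isOpen_empty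
  · intro c i j hij
    by_cases hc : c.1 < n
    · simp only [hc, dif_pos]; exact h2 _ _ _ hij
    · simp only [hc, dif_neg, not_false_iff]; exact disjoint_bot_left
  · intro c i x hx y hy
    by_cases hc : c.1 < n
    · simp only [hc, dif_pos] at hx hy; exact h3 _ _ x hx y hy
    · simp only [hc, dif_neg, not_false_iff] at hx; exact absurd hx.2 (notMem_empty _)
  · intro x hx
    obtain ⟨c, i, hi⟩ := h4 x hx
    exact ⟨⟨c.1, c.2.trans_le h⟩, i, by simpa using hi⟩

theorem Sm.mono_nat {X : Type} [PseudoMetricSpace X] {Z : Set X} {n m : ℕ}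
    (h : n ≤ m) (H : Sm Z n) : Sm Z m := fun ε hε => (H ε hε).mono_nat h

/-- strong smallness: the open sets themselves are small -/
theorem SetFam.strong {X : Type} [PseudoMetricSpace X] {Z : Set X} {n : ℕ} {ε : ℝ}
    (H : SetFam Z n ε) :
    ∃ (ι : Type) (U : Fin n → ι → Set X), (∀ c i, IsOpen (U c i)) ∧
    (∀ c i j, i ≠ j → Disjoint (U c i) (U c j)) ∧
    (∀ c i, ∀ x ∈ U c i, ∀ y ∈ U c i, dist x y < 2 * ε) ∧
    (∀ c i, (Z ∩ U c i).Nonempty ∨ U c i = ∅) ∧ (∀ x ∈ Z, ∃ c i, x ∈ U c i) := by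
  classical
  obtain ⟨ι, U, h1, h2, h3, h4⟩ := H
  refine ⟨ι, fun c i => if h : (Z ∩ U c i).Nonempty then U c i ∩ Metric.ball h.choose ε else ∅,
    ?_, ?_, ?_, ?_, ?_⟩
  · intro c i
    by_cases h : (Z ∩ U c i).Nonempty
    · simp only [h, dif_pos]; exact (h1 c i).inter Metric.isOpen_ball
    · simp only [h, dif_neg, not_false_iff]; exact isOpen_empty
  · intro c i j hij
    have key : ∀ i, (if h : (Z ∩ U c i).Nonempty then U c i ∩ Metric.ball h.choose ε else ∅)
        ⊆ U c i := by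
      intro i
      by_cases h : (Z ∩ U c i).Nonempty
      · simp only [h, dif_pos]; exact inter_subset_left
      · simp only [h, dif_neg, not_false_iff]; exact empty_subset _
    exact (h2 c i j hij).mono (key i) (key j)
  · intro c i x hx y hy
    by_cases h : (Z ∩ U c i).Nonempty
    · simp only [h, dif_pos] at hx hy
      have hx' := hx.2
      have hy' := hy.2
      rw [Metric.mem_ball] at hx' hy'
      have := dist_triangle_right x y h.choose
      linarith
    · simp only [h, dif_neg, not_false_iff] at hx; exact absurd hx (notMem_empty _)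
  · intro c i
    by_cases h : (Z ∩ U c i).Nonempty
    · left
      have hs := h.choose_spec
      refine ⟨h.choose, hs.1, ?_⟩
      simp only [h, dif_pos]
      refine ⟨hs.2, ?_⟩
      rw [Metric.mem_ball, dist_self]
      have := h3 c i _ hs _ hs
      rw [dist_self] at this
      exact this
    · right
      simp only [h, dif_neg, not_false_iff]
  · intro x hx
    obtain ⟨c, i, hi⟩ := h4 x hx
    refine ⟨c, i, ?_⟩
    have h : (Z ∩ U c i).Nonempty := ⟨x, hx, hi⟩
    simp only [h, dif_pos]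
    exact ⟨hi, h3 c i x ⟨hx, hi⟩ _ h.choose_spec⟩

/-- pulling back families -/
theorem SetFam.pullback {X Y : Type} [PseudoMetricSpace X] [PseudoMetricSpace Y] {g : X → Y}
    (hg : Continuous g) {F : Set X} {Z : Set Y} {n : ℕ} {δ ε : ℝ} (H : SetFam Z n δ)
    (hF : MapsTo g F Z) (hd : ∀ x ∈ F, ∀ y ∈ F, dist (g x) (g y) < δ → dist x y < ε) :
    SetFam F n ε := by
  obtain ⟨ι, U, h1, h2, h3, h4⟩ := H
  refine ⟨ι, fun c i => g ⁻¹' U c i, fun c i => (h1 c i).preimage hg,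
    fun c i j hij => (h2 c i j hij).preimage g, ?_, ?_⟩
  · intro c i x hx y hy
    exact hd x hx.1 y hy.1 (h3 c i _ ⟨hF hx.1, hx.2⟩ _ ⟨hF hy.1, hy.2⟩)
  · intro x hx
    exact h4 _ (hF hx)

theorem exists_delta_of_injOn {X Y : Type} [PseudoMetricSpace X] [MetricSpace Y] {g : X → Y}
    (hg : Continuous g) {F : Set X} (hF : IsCompact F)
    (hi : ∀ x ∈ F, ∀ y ∈ F, g x = g y → dist x y = 0) {ε : ℝ} (hε : 0 < ε) :
    ∃ δ > 0, ∀ x ∈ F, ∀ y ∈ F, dist (g x) (g y) < δ → dist x y < ε := by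
  have hK : IsCompact ((F ×ˢ F) ∩ {p : X × X | ε ≤ dist p.1 p.2}) :=
    (hF.prod hF).inter_right (isClosed_le continuous_const (by fun_prop))
  rcases ((F ×ˢ F) ∩ {p : X × X | ε ≤ dist p.1 p.2}).eq_empty_or_nonempty with he | hne
  · refine ⟨1, one_pos, fun x hx y hy _ => ?_⟩
    by_contra hcon
    have : (x, y) ∈ ((F ×ˢ F) ∩ {p : X × X | ε ≤ dist p.1 p.2}) := ⟨⟨hx, hy⟩, not_lt.1 hcon⟩
    rw [he] at this
    exact this
  · obtain ⟨p, hp, hmin⟩ := hK.exists_isMinOn hne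
      (f := fun p : X × X => dist (g p.1) (g p.2)) (by fun_prop)
    refine ⟨dist (g p.1) (g p.2), ?_, ?_⟩
    · rw [gt_iff_lt, dist_pos]
      intro h
      have h1 := hi _ hp.1.1 _ hp.1.2 h
      have h2 : ε ≤ dist p.1 p.2 := hp.2
      rw [h1] at h2
      linarith
    · intro x hx y hy hd
      by_contra hcon
      have hm : (x, y) ∈ ((F ×ˢ F) ∩ {p : X × X | ε ≤ dist p.1 p.2}) := ⟨⟨hx, hy⟩, not_lt.1 hcon⟩
      have := hmin hm
      simp only [mem_ofPred_eq] at this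
      exact absurd hd (not_lt.2 this)

/-- families pulled back along a continuous map injective on a compact set -/
theorem Sm.of_injOn {X Y : Type} [PseudoMetricSpace X] [MetricSpace Y] {g : X → Y}
    (hg : Continuous g) {F : Set X} (hF : IsCompact F) {Z : Set Y} (hm : MapsTo g F Z)
    (hi : ∀ x ∈ F, ∀ y ∈ F, g x = g y → dist x y = 0) {n : ℕ} (H : Sm Z n) : Sm F n := by
  intro ε hε
  obtain ⟨δ, hδ, hd⟩ := exists_delta_of_injOn hg hF hi hε
  exact (H δ hδ).pullback hg hm hd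

end Pool.Agent.Helper52.CM
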