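import Mathlib

namespace Pool.Agent.Helper52.CM

open Set TopologicalSpace Topology

/-- one-cocycles at scale `ε` on the set `S` -/
def IsCoc {X G : Type*} [PseudoMetricSpace X] [AddCommGroup G] (S : Set X) (ε : ℝ)
    (c : X → X → G) : Prop :=
  ∀ x ∈ S, ∀ y ∈ S, ∀ z ∈ S, dist x y < ε → dist y z < ε → dist x z < ε → c x y + c y z = c x z

theorem IsCoc.self {X G : Type*} [PseudoMetricSpace X] [AddCommGroup G] {S : Set X} {ε : ℝ}
    (hε : 0 < ε) {c : X → X → G} (h : IsCoc S ε c) {x : X} (hx : x ∈ S) : c x x = 0 := by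
  have := h x hx x hx x hx (by simpa using hε) (by simpa using hε) (by simpa using hε)
  simpa using this

/-- cocycles on bounded star-shaped sets are coboundaries -/
theorem IsCoc.star {V G : Type*} [NormedAddCommGroup V] [NormedSpace ℝ V] [AddCommGroup G]
    {S : Set V} (hS : ∀ x ∈ S, ∀ t ∈ Icc (0 : ℝ) 1, t • x ∈ S) {R : ℝ} (hR : ∀ x ∈ S, ‖x‖ ≤ R)
    {ε : ℝ} (hε : 0 < ε) {c : V → V → G} (h : IsCoc S ε c) :
    ∃ b : V → G, ∀ x ∈ S, ∀ y ∈ S, dist x y < ε / 2 → c x y = b y - b x := by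
  obtain ⟨M, hM⟩ := exists_nat_gt (R / (ε / 2))
  set N : ℕ := M + 1 with hN
  have hNpos : (0 : ℝ) < N := by rw [hN]; positivity
  have hRN : R / N < ε / 2 := by
    rw [div_lt_iff₀ hNpos]
    have h1 : R / (ε / 2) < N := by
      refine hM.trans ?_
      rw [hN]; push_cast; linarith
    rw [div_lt_iff₀ (by positivity)] at h1
    linarith
  set P : V → ℕ → V := fun x k => ((k : ℝ) / N) • x with hP
  have hPm : ∀ x ∈ S, ∀ k ≤ N, P x k ∈ S := by
    intro x hx k hk
    apply hS x hx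
    refine ⟨by positivity, ?_⟩
    rw [div_le_one hNpos]
    exact_mod_cast hk
  have hPs : ∀ x ∈ S, ∀ k, dist (P x k) (P x (k + 1)) < ε / 2 := by
    intro x hx k
    rw [dist_eq_norm, hP]
    simp only
    rw [← sub_smul, norm_smul, ← sub_div]
    push_cast
    rw [show (k : ℝ) - (k + 1) = -1 by ring, norm_div, norm_neg, norm_one, Real.norm_of_nonneg
      hNpos.le]
    refine lt_of_le_of_lt ?_ hRN
    rw [one_div, inv_mul_eq_div]
    exact div_le_div_of_nonneg_right (hR x hx) hNpos.le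
  have hPd : ∀ x y : V, ∀ k ≤ N, dist (P x k) (P y k) ≤ dist x y := by
    intro x y k hk
    rw [dist_eq_norm, dist_eq_norm, hP]
    simp only
    rw [← smul_sub, norm_smul, Real.norm_of_nonneg (by positivity)]
    have : (k : ℝ) / N ≤ 1 := by
      rw [div_le_one hNpos]
      exact_mod_cast hk
    exact mul_le_of_le_one_left (norm_nonneg _) this
  refine ⟨fun x => ∑ k ∈ Finset.range N, c (P x k) (P x (k + 1)), ?_⟩
  intro x hx y hy hxy
  have hstep : ∀ k ∈ Finset.range N, c (P x k) (P x (k + 1)) + (c (P x (k + 1)) (P y (k + 1)) -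
      c (P x k) (P y k)) = c (P y k) (P y (k + 1)) := by
    intro k hk
    have hkN : k + 1 ≤ N := Finset.mem_range.1 hk
    have m1 := hPm x hx k (by omega)
    have m2 := hPm x hx (k + 1) hkN
    have m3 := hPm y hy k (by omega)
    have m4 := hPm y hy (k + 1) hkN
    have d1 := hPs x hx k
    have d2 := hPs y hy k
    have d3 := (hPd x y k (by omega)).trans_lt hxy
    have d4 := (hPd x y (k + 1) hkN).trans_lt hxy
    have d5 : dist (P x k) (P y (k + 1)) < ε := by
      have := dist_triangle (P x k) (P y k) (P y (k + 1))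
      linarith
    have e1 := h _ m1 _ m2 _ m4 (by linarith) (by linarith) d5
    have e2 := h _ m1 _ m3 _ m4 (by linarith) (by linarith) d5
    rw [← e2] at e1
    rw [← add_sub_assoc, e1]
    abel
  have hsum := Finset.sum_congr rfl hstep
  rw [Finset.sum_add_distrib, Finset.sum_range_sub (fun k => c (P x k) (P y k))] at hsum
  have h0 : c (P x 0) (P y 0) = 0 := by
    have e0 : P x 0 = P y 0 := by simp [hP]
    rw [e0]
    exact h.self hε (hPm y hy 0 (Nat.zero_le _))
  have h1 : ∀ x : V, P x N = x := by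
    intro x
    simp only [hP]
    rw [div_self hNpos.ne', one_smul]
  rw [h0, sub_zero, h1, h1] at hsum
  simp only
  rw [← hsum]
  abel

theorem const_of_loc {G : Type*} (D : ℝ → G) {L δ : ℝ} (hδ : 0 < δ)
    (h : ∀ s ∈ Icc 0 L, ∀ t ∈ Icc 0 L, |s - t| < δ → D s = D t) : ∀ t ∈ Icc 0 L, D t = D 0 := by
  intro t ht
  obtain ⟨n, hn⟩ := exists_nat_gt (t / δ)
  rcases Nat.eq_zero_or_pos n with h0 | hpos
  · subst h0
    have h1 : t / δ < 0 := by simpa using hn
    have h2 : 0 ≤ t / δ := div_nonneg ht.1 hδ.le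
    linarith
  have hnpos : (0 : ℝ) < n := by exact_mod_cast hpos
  have hm : ∀ k ≤ n, (k : ℝ) * t / n ∈ Icc 0 L := by
    intro k hk
    have hk' : (k : ℝ) ≤ n := by exact_mod_cast hk
    have ht0 := ht.1
    refine ⟨by positivity, ?_⟩
    refine le_trans ?_ ht.2
    rw [div_le_iff₀ hnpos, mul_comm t]
    exact mul_le_mul_of_nonneg_right hk' ht.1
  have key : ∀ k ≤ n, D ((k : ℝ) * t / n) = D 0 := by
    intro k
    induction k with
    | zero => intro _; simp
    | succ k ih =>
      intro hk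
      rw [← ih (by omega)]
      apply h _ (hm _ hk) _ (hm _ (by omega))
      push_cast
      rw [show ((k : ℝ) + 1) * t / n - k * t / n = t / n by ring, abs_of_nonneg
        (div_nonneg ht.1 hnpos.le), div_lt_iff₀ hnpos]
      rw [div_lt_iff₀ hδ] at hn
      linarith
  have := key n le_rfl
  rwa [mul_div_assoc, mul_div_cancel₀ _ hnpos.ne'] at this

/-- the exponential parametrisation of the circle -/
noncomputable def EE (t : ℝ) : ℂ := Complex.exp ((2 * Real.pi * t : ℝ) * Complex.I)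

theorem EE_norm (t : ℝ) : ‖EE t‖ = 1 := by
  unfold EE
  exact Complex.norm_exp_ofReal_mul_I _

theorem EE_add (s t : ℝ) : EE (s + t) = EE s * EE t := by
  unfold EE
  rw [← Complex.exp_add]
  congr 1
  push_cast
  ring

theorem EE_zero : EE 0 = 1 := by simp [EE]

theorem EE_one : EE 1 = 1 := by
  unfold EE
  rw [mul_one]
  push_cast
  exact Complex.exp_two_pi_mul_I

theorem EE_nat_mul (p : ℕ) (t : ℝ) : EE (p * t) = EE t ^ p := by
  unfold EE
  rw [← Complex.exp_nat_mul]
  congr 1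
  push_cast
  ring

theorem EE_natCast (p : ℕ) : EE p = 1 := by
  have := EE_nat_mul p 1
  rw [mul_one] at this
  rw [this, EE_one, one_pow]

theorem continuous_EE : Continuous EE := by
  unfold EE
  fun_prop

theorem dist_EE_le (s t : ℝ) : dist (EE s) (EE t) ≤ 2 * Real.pi * |s - t| := by
  have h1 : EE s - EE t = EE t * (EE (s - t) - 1) := by
    rw [mul_sub, ← EE_add, mul_one]
    congr 2
    ring
  rw [dist_eq_norm, h1, norm_mul, EE_norm, one_mul]
  unfold EE
  have h2 := Real.norm_exp_I_mul_ofReal_sub_one_le (x := 2 * Real.pi * (s - t))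
  rw [mul_comm Complex.I] at h2
  refine h2.trans ?_
  rw [Real.norm_eq_abs, abs_mul, abs_of_pos Real.two_pi_pos]

theorem EE_eq_one_iff {t : ℝ} : EE t = 1 ↔ ∃ n : ℤ, t = n := by
  unfold EE
  rw [Complex.exp_eq_one_iff]
  constructor
  · rintro ⟨n, hn⟩
    refine ⟨n, ?_⟩
    have h1 : ((2 * Real.pi * t : ℝ) : ℂ) = ((n * (2 * Real.pi) : ℝ) : ℂ) := by
      have h2 := mul_right_cancel₀ Complex.I_ne_zero
        (hn.trans (show (n : ℂ) * (2 * Real.pi * Complex.I) = ((n * (2 * Real.pi) : ℝ) : ℂ) *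
          Complex.I by push_cast; ring))
      exact h2
    have h3 : 2 * Real.pi * t = n * (2 * Real.pi) := by exact_mod_cast h1
    have h4 := Real.two_pi_pos
    have : (2 * Real.pi) * t = (2 * Real.pi) * n := by linarith
    exact mul_left_cancel₀ h4.ne' this
  · rintro ⟨n, rfl⟩
    exact ⟨n, by push_cast; ring⟩

/-- angle in `[0,1)` -/
noncomputable def tau (u : ℂ) : ℝ := Int.fract (Complex.arg u / (2 * Real.pi))

theorem tau_nonneg (u : ℂ) : 0 ≤ tau u := Int.fract_nonneg _
theorem tau_lt_one (u : ℂ) : tau u < 1 := Int.fract_lt_one _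

theorem EE_tau {u : ℂ} (hu : ‖u‖ = 1) : EE (tau u) = u := by
  have h1 : EE (Complex.arg u / (2 * Real.pi)) = u := by
    unfold EE
    rw [mul_div_cancel₀ _ Real.two_pi_pos.ne']
    have := Complex.norm_mul_exp_arg_mul_I u
    rw [hu] at this
    simpa using this
  have h2 : Complex.arg u / (2 * Real.pi) = tau u + (⌊Complex.arg u / (2 * Real.pi)⌋ : ℝ) := by
    unfold tau
    exact (Int.fract_add_floor _).symm
  rw [h2, EE_add] at h1
  have h3 : EE ((⌊Complex.arg u / (2 * Real.pi)⌋ : ℝ)) = 1 := EE_eq_one_iff.2 ⟨_, rfl⟩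
  rw [h3, mul_one] at h1
  exact h1

/-- closeness on the circle versus closeness of angles -/
theorem exists_close {δ : ℝ} (hδ : 0 < δ) : ∃ η > 0, ∀ s : ℝ, |s| ≤ 1 → dist (EE s) 1 < η →
    |s| < δ ∨ 1 - δ < |s| := by
  have hK : IsCompact (Icc (-1 : ℝ) 1 ∩ {s | δ ≤ |s| ∧ |s| ≤ 1 - δ}) := by
    apply isCompact_Icc.inter_right
    exact (isClosed_le continuous_const continuous_abs).inter
      (isClosed_le continuous_abs continuous_const)
  rcases (Icc (-1 : ℝ) 1 ∩ {s | δ ≤ |s| ∧ |s| ≤ 1 - δ}).eq_empty_or_nonempty with he | hne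
  · refine ⟨1, one_pos, fun s hs _ => ?_⟩
    by_contra hcon
    push Not at hcon
    have : s ∈ Icc (-1 : ℝ) 1 ∩ {s | δ ≤ |s| ∧ |s| ≤ 1 - δ} := ⟨abs_le.1 hs, hcon⟩
    rw [he] at this
    exact this
  · obtain ⟨s0, hs0, hmin⟩ := hK.exists_isMinOn hne (f := fun s => dist (EE s) 1)
      (continuous_EE.dist continuous_const).continuousOn
    refine ⟨dist (EE s0) 1, ?_, ?_⟩
    · rw [gt_iff_lt, dist_pos]
      intro h
      obtain ⟨n, hn⟩ := EE_eq_one_iff.1 h
      have h1 := hs0.2.1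
      have h2 := hs0.2.2
      rw [hn] at h1 h2
      have h3 : |(n : ℝ)| < 1 := by linarith
      have h4 : |n| < 1 := by exact_mod_cast h3
      have h5 : n = 0 := by simpa using Int.abs_lt_one_iff.1 h4
      rw [h5] at h1
      simp at h1
      linarith
    · intro s hs hd
      by_contra hcon
      push Not at hcon
      have : s ∈ Icc (-1 : ℝ) 1 ∩ {s | δ ≤ |s| ∧ |s| ≤ 1 - δ} := ⟨abs_le.1 hs, hcon⟩
      have h1 : dist (EE s0) 1 ≤ dist (EE s) 1 := hmin this
      linarith

theorem exists_close_tau {δ : ℝ} (hδ : 0 < δ) : ∃ η > 0, ∀ u v : ℂ, ‖u‖ = 1 → ‖v‖ = 1 →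
    dist u v < η → |tau u - tau v| < δ ∨ 1 - δ < |tau u - tau v| := by
  obtain ⟨η, hη, h⟩ := exists_close hδ
  refine ⟨η, hη, fun u v hu hv huv => h _ ?_ ?_⟩
  · rw [abs_le]
    constructor <;> linarith [tau_nonneg u, tau_nonneg v, tau_lt_one u, tau_lt_one v]
  · have h1 : EE (tau u) - EE (tau v) = EE (tau v) * (EE (tau u - tau v) - 1) := by
      rw [mul_sub, ← EE_add, mul_one]
      congr 2
      ring
    have h2 := congrArg norm h1
    rw [norm_mul, EE_norm, one_mul, ← dist_eq_norm, ← dist_eq_norm, EE_tau hu, EE_tau hv] at h2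
    rw [← h2]
    exact huv

/-- the `p`-th power map kills mod `p` classes of the circle -/
theorem circle_coc (p : ℕ) (hp : 0 < p) {ε : ℝ} (hε : 0 < ε) : ∃ δ > 0, ∀ c : ℂ → ℂ → ZMod p,
    IsCoc (Metric.sphere (0 : ℂ) 1) ε c → ∃ β : ℂ → ZMod p, ∀ u v : ℂ, ‖u‖ = 1 → ‖v‖ = 1 →
      dist u v < δ → c (u ^ p) (v ^ p) = β v - β u := by
  have hpi := Real.two_pi_pos
  have hp' : (0 : ℝ) < p := by exact_mod_cast hp
  set ε' : ℝ := ε / (2 * Real.pi) with hε'
  have hε'0 : 0 < ε' := by positivity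
  set δ1 : ℝ := ε' / (4 * p) with hδ1
  have hδ10 : 0 < δ1 := by positivity
  obtain ⟨η, hη, hclose⟩ := exists_close_tau hδ10
  refine ⟨η, hη, fun c hc => ?_⟩
  have hdE : ∀ s t : ℝ, |s - t| < ε' → dist (EE s) (EE t) < ε := by
    intro s t hst
    refine (dist_EE_le s t).trans_lt ?_
    rw [hε', lt_div_iff₀ hpi] at hst
    linarith
  have hmem : ∀ t, EE t ∈ Metric.sphere (0 : ℂ) 1 := fun t => by
    rw [mem_sphere_zero_iff_norm]; exact EE_norm t
  have hct : IsCoc (Icc (0 : ℝ) p) ε' (fun s t => c (EE s) (EE t)) := by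
    intro x _ y _ z _ h1 h2 h3
    rw [Real.dist_eq] at h1 h2 h3
    exact hc _ (hmem x) _ (hmem y) _ (hmem z) (hdE _ _ h1) (hdE _ _ h2) (hdE _ _ h3)
  obtain ⟨S, hS⟩ := hct.star (R := p) (by
    intro x hx t ht
    rw [smul_eq_mul]
    exact ⟨mul_nonneg ht.1 hx.1, (mul_le_of_le_one_left hx.1 ht.2).trans hx.2⟩) (by
    intro x hx
    rw [Real.norm_of_nonneg hx.1]; exact hx.2) hε'0
  -- monodromy
  have hper : S p = S 0 := by
    obtain ⟨q, rfl⟩ : ∃ q, p = q + 1 := ⟨p - 1, by omega⟩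
    have hD : ∀ t ∈ Icc (0 : ℝ) q, S (t + 1) - S t = S (0 + 1) - S 0 := by
      apply const_of_loc (fun t => S (t + 1) - S t) (L := q) (δ := ε' / 2) (by positivity)
      intro s hs t ht hst
      push_cast at hS
      have e1 := hS s ⟨hs.1, by linarith [hs.2]⟩ t ⟨ht.1, by linarith [ht.2]⟩
        (by rw [Real.dist_eq]; exact hst)
      have e2 := hS (s + 1) ⟨by linarith [hs.1], by linarith [hs.2]⟩ (t + 1)
        ⟨by linarith [ht.1], by linarith [ht.2]⟩ (by rw [Real.dist_eq]; simpa using hst)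
      rw [EE_add, EE_add, EE_one, mul_one, mul_one, e1] at e2
      have : S (s + 1) - S s = S (t + 1) - S t := by
        rw [sub_eq_sub_iff_add_eq_add]
        have := congrArg (fun x => x + S (s + 1) + S s) e2
        calc S (s + 1) + S t = S t - S s + S (s + 1) + S s := by abel
          _ = S (t + 1) - S (s + 1) + S (s + 1) + S s := this
          _ = S (t + 1) + S s := by abel
      exact this
    have hsum : ∀ k : ℕ, k ≤ q + 1 → S k = S 0 + k • (S (0 + 1) - S 0) := by
      intro k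
      induction k with
      | zero => intro _; simp
      | succ k ih =>
        intro hk
        have h1 := hD k ⟨by positivity, by exact_mod_cast (by omega : k ≤ q)⟩
        have h2 := ih (by omega)
        push_cast
        rw [succ_nsmul, ← add_assoc, ← h2, ← h1]
        abel
    have h3 := hsum (q + 1) le_rfl
    rw [h3]
    have : ((q + 1 : ℕ) • (S (0 + 1) - S 0) : ZMod (q + 1)) = 0 := by
      rw [nsmul_eq_mul]
      simp
    rw [this, add_zero]
  refine ⟨fun u => S (p * tau u), ?_⟩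
  intro u v hu hv huv
  have tu0 := tau_nonneg u
  have tu1 := tau_lt_one u
  have tv0 := tau_nonneg v
  have tv1 := tau_lt_one v
  have hpu : (p : ℝ) * tau u ∈ Icc (0 : ℝ) p := ⟨by positivity, by nlinarith⟩
  have hpv : (p : ℝ) * tau v ∈ Icc (0 : ℝ) p := ⟨by positivity, by nlinarith⟩
  have hEu : EE (p * tau u) = u ^ p := by rw [EE_nat_mul, EE_tau hu]
  have hEv : EE (p * tau v) = v ^ p := by rw [EE_nat_mul, EE_tau hv]
  have hsmall : ∀ s t : ℝ, |s - t| < δ1 → |(p : ℝ) * s - p * t| < ε' / 2 := by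
    intro s t hst
    rw [← mul_sub, abs_mul, abs_of_pos hp']
    have : (p : ℝ) * |s - t| < p * δ1 := mul_lt_mul_of_pos_left hst hp'
    have h2 : (p : ℝ) * δ1 = ε' / 4 := by rw [hδ1]; field_simp
    linarith
  rcases hclose u v hu hv huv with h | h
  · have := hS _ hpu _ hpv (by rw [Real.dist_eq]; exact hsmall _ _ h)
    rw [hEu, hEv] at this
    exact this
  · -- wrap-around
    have hone : EE p = 1 := EE_natCast p
    have h0m : (0 : ℝ) ∈ Icc (0 : ℝ) p := ⟨le_rfl, hp'.le⟩
    have hpm : (p : ℝ) ∈ Icc (0 : ℝ) p := ⟨hp'.le, le_rfl⟩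
    have m1 : (1 : ℂ) ∈ Metric.sphere (0 : ℂ) 1 := by simp
    have mu : u ^ p ∈ Metric.sphere (0 : ℂ) 1 := by
      rw [mem_sphere_zero_iff_norm, norm_pow, hu, one_pow]
    have mv : v ^ p ∈ Metric.sphere (0 : ℂ) 1 := by
      rw [mem_sphere_zero_iff_norm, norm_pow, hv, one_pow]
    rcases lt_abs.1 h with h' | h'
    · -- tau u near 1, tau v near 0
      have a1 : |(p : ℝ) * tau u - p * 1| < ε' / 2 := hsmall _ _ (by rw [abs_lt]; constructor <;> linarith)
      have a2 : |(p : ℝ) * 0 - p * tau v| < ε' / 2 := hsmall _ _ (by rw [abs_lt]; constructor <;> linarith)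
      rw [mul_one] at a1
      rw [mul_zero] at a2
      have b1 := hS _ hpu _ hpm (by rw [Real.dist_eq]; exact a1)
      have b2 := hS _ h0m _ hpv (by rw [Real.dist_eq]; exact a2)
      rw [hEu, hone] at b1
      rw [hEv, EE_zero] at b2
      have d1 : dist (u ^ p) 1 < ε / 2 + ε / 2 := by
        rw [← hEu, ← hone]; have := hdE _ _ (a1.trans (by linarith)); linarith
      have d1' : dist (u ^ p) 1 ≤ 2 * Real.pi * (ε' / 2) := by
        rw [← hEu, ← hone]
        exact (dist_EE_le _ _).trans (mul_le_mul_of_nonneg_left a1.le hpi.le)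
      have d2' : dist 1 (v ^ p) < 2 * Real.pi * (ε' / 2) := by
        rw [← hEv, ← EE_zero]
        exact (dist_EE_le _ _).trans_lt (mul_lt_mul_of_pos_left a2 hpi)
      have d4 : 2 * Real.pi * (ε' / 2) = ε / 2 := by rw [hε']; field_simp
      have d3 := dist_triangle (u ^ p) 1 (v ^ p)
      have := hc _ mu _ m1 _ mv (by linarith) (by linarith) (by linarith)
      rw [← this, b1, b2, hper]
      abel
    · -- tau v near 1, tau u near 0
      have a1 : |(p : ℝ) * 1 - p * tau v| < ε' / 2 := hsmall _ _ (by rw [abs_lt]; constructor <;> linarith)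
      have a2 : |(p : ℝ) * tau u - p * 0| < ε' / 2 := hsmall _ _ (by rw [abs_lt]; constructor <;> linarith)
      rw [mul_one] at a1
      rw [mul_zero] at a2
      have b1 := hS _ hpm _ hpv (by rw [Real.dist_eq]; exact a1)
      have b2 := hS _ hpu _ h0m (by rw [Real.dist_eq]; exact a2)
      rw [hEv, hone] at b1
      rw [hEu, EE_zero] at b2
      have d1' : dist (u ^ p) 1 < 2 * Real.pi * (ε' / 2) := by
        rw [← hEu, ← EE_zero]
        exact (dist_EE_le _ _).trans_lt (mul_lt_mul_of_pos_left a2 hpi)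
      have d2' : dist 1 (v ^ p) < 2 * Real.pi * (ε' / 2) := by
        rw [← hEv, ← hone]
        exact (dist_EE_le _ _).trans_lt (mul_lt_mul_of_pos_left a1 hpi)
      have d4 : 2 * Real.pi * (ε' / 2) = ε / 2 := by rw [hε']; field_simp
      have d3 := dist_triangle (u ^ p) 1 (v ^ p)
      have := hc _ mu _ m1 _ mv (by linarith) (by linarith) (by linarith)
      rw [← this, b1, b2, hper]
      abel

end Pool.Agent.Helper52.CM
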