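import Mathlib

namespace Pool.Agent.Helper52.CM

open Set TopologicalSpace Topology

/-- shift vectors, indexed by colours -/
noncomputable def lam (c : ℕ) (i : Fin 3) : ℝ :=
  if i = 0 then 0 else if i = 1 then c / 2000 else 100 * c / 2000

@[simp] theorem lam_zero (c : ℕ) : lam c 0 = 0 := by simp [lam]
@[simp] theorem lam_one (c : ℕ) : lam c 1 = c / 2000 := by simp [lam]
@[simp] theorem lam_two (c : ℕ) : lam c 2 = 100 * c / 2000 := by simp [lam]

/-- colour `c` is good at `u` with strict maximum at `i` -/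
def Good (c : ℕ) (u : Fin 3 → ℝ) (i : Fin 3) : Prop := ∀ k, k ≠ i → u k - lam c k < u i - lam c i

theorem Good.unique {c : ℕ} {u : Fin 3 → ℝ} {i j : Fin 3} (hi : Good c u i) (hj : Good c u j) :
    i = j := by
  by_contra h
  exact lt_asymm (hi j (fun h' => h h'.symm)) (hj i h)

theorem lam_nonneg (c : ℕ) (i : Fin 3) : 0 ≤ lam c i := by
  fin_cases i <;> simp <;> positivity

theorem lam_le {c : ℕ} (hc : c ≤ 4) (i : Fin 3) : lam c i ≤ 1 / 5 := by
  have : (c : ℝ) ≤ 4 := by exact_mod_cast hc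
  fin_cases i <;> simp <;> linarith

theorem pos_of_max {c : ℕ} (hc : c ≤ 4) {u : Fin 3 → ℝ} (hsum : u 0 + u 1 + u 2 = 1) {i : Fin 3}
    (hi : ∀ k, u k - lam c k ≤ u i - lam c i) : 0 < u i := by
  by_contra hcon
  push Not at hcon
  have h : ∀ k, u k ≤ 1 / 5 := by
    intro k
    have h1 := hi k
    have h2 := lam_nonneg c i
    have h3 := lam_le hc k
    linarith
  have h0 := h 0
  have h1 := h 1
  have h2 := h 2
  linarith

theorem Good.pos {c : ℕ} (hc : c ≤ 4) {u : Fin 3 → ℝ} (hsum : u 0 + u 1 + u 2 = 1) {i : Fin 3}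
    (hi : Good c u i) : 0 < u i := by
  apply pos_of_max hc hsum
  intro k
  by_cases hk : k = i
  · rw [hk]
  · exact (hi k hk).le

/-- a bad colour gives a relation between two positive coordinates -/
theorem bad_relation {c : ℕ} (hc : c ≤ 4) {u : Fin 3 → ℝ} (hsum : u 0 + u 1 + u 2 = 1)
    (hb : ∀ i, ¬ Good c u i) :
    (0 < u 0 ∧ 0 < u 1 ∧ u 1 - u 0 = c / 2000) ∨ (0 < u 0 ∧ 0 < u 2 ∧ u 2 - u 0 = 100 * c / 2000) ∨
      (0 < u 1 ∧ 0 < u 2 ∧ u 2 - u 1 = 99 * c / 2000) := by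
  obtain ⟨i, hi⟩ := Finite.exists_max (fun i => u i - lam c i)
  have hb' := hb i
  unfold Good at hb'
  push Not at hb'
  obtain ⟨k, hki, hk⟩ := hb'
  have heq : u k - lam c k = u i - lam c i := le_antisymm (hi k) hk
  have hk' : ∀ l, u l - lam c l ≤ u k - lam c k := fun l => (hi l).trans hk
  have p1 := pos_of_max hc hsum hi
  have p2 := pos_of_max hc hsum hk'
  fin_cases i <;> fin_cases k <;> simp at heq p1 p2 hki ⊢
  · left; exact ⟨p1, p2, by linarith⟩
  · right; left; exact ⟨p1, p2, by linarith⟩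
  · left; exact ⟨p2, p1, by linarith⟩
  · right; right; exact ⟨p1, p2, by linarith⟩
  · right; left; exact ⟨p2, p1, by linarith⟩
  · right; right; exact ⟨p2, p1, by linarith⟩

theorem nat_of_real {a b : ℕ} {s : ℝ} {m : ℝ} (hm : 0 < m) (h1 : s = m * a / 2000)
    (h2 : s = m * b / 2000) : a = b := by
  have : (m : ℝ) * a = m * b := by linarith
  have := mul_left_cancel₀ hm.ne' this
  exact_mod_cast this

theorem nat_of_real1 {a b : ℕ} {s : ℝ} (h1 : s = a / 2000)
    (h2 : s = b / 2000) : a = b := by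
  have : (a : ℝ) = b := by linarith
  exact_mod_cast this

/-- at most two bad colours -/
theorem not_three_bad {u : Fin 3 → ℝ} (hsum : u 0 + u 1 + u 2 = 1) {a b c : ℕ} (ha : a ≤ 4)
    (hb : b ≤ 4) (hc : c ≤ 4) (hab : a ≠ b) (hac : a ≠ c) (hbc : b ≠ c)
    (Ba : ∀ i, ¬ Good a u i) (Bb : ∀ i, ¬ Good b u i) (Bc : ∀ i, ¬ Good c u i) : False := by
  have h1 : ∀ {s : ℝ} {a b : ℕ}, s = a / 2000 → s = b / 2000 → a = b := fun h1 h2 =>
    nat_of_real1 h1 h2
  have h100 : ∀ {s : ℝ} {a b : ℕ}, s = 100 * a / 2000 → s = 100 * b / 2000 → a = b :=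
    fun h1 h2 => nat_of_real (by norm_num : (0 : ℝ) < 100) h1 h2
  have h99 : ∀ {s : ℝ} {a b : ℕ}, s = 99 * a / 2000 → s = 99 * b / 2000 → a = b :=
    fun h1 h2 => nat_of_real (by norm_num : (0 : ℝ) < 99) h1 h2
  have hmix : ∀ {a b c : ℕ}, a ≤ 4 → b ≤ 4 → c ≤ 4 → b ≠ c → u 1 - u 0 = a / 2000 →
      u 2 - u 0 = 100 * b / 2000 → u 2 - u 1 = 99 * c / 2000 → False := by
    intro a b c ha hb hc hbc h1 h2 h3
    have : (a : ℝ) + 99 * c = 100 * b := by linarith
    have h4 : a + 99 * c = 100 * b := by exact_mod_cast this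
    omega
  rcases bad_relation ha hsum Ba with ⟨-, -, ra⟩ | ⟨-, -, ra⟩ | ⟨-, -, ra⟩ <;>
  rcases bad_relation hb hsum Bb with ⟨-, -, rb⟩ | ⟨-, -, rb⟩ | ⟨-, -, rb⟩ <;>
  rcases bad_relation hc hsum Bc with ⟨-, -, rc⟩ | ⟨-, -, rc⟩ | ⟨-, -, rc⟩
  all_goals first
    | exact hab (h1 ra rb) | exact hac (h1 ra rc) | exact hbc (h1 rb rc)
    | exact hab (h100 ra rb) | exact hac (h100 ra rc) | exact hbc (h100 rb rc)
    | exact hab (h99 ra rb) | exact hac (h99 ra rc) | exact hbc (h99 rb rc)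
    | exact hmix ha hb hc hbc ra rb rc
    | exact hmix ha hc hb hbc.symm ra rc rb
    | exact hmix hb ha hc hac rb ra rc
    | exact hmix hb hc ha hac.symm rb rc ra
    | exact hmix hc ha hb hab rc ra rb
    | exact hmix hc hb ha hab.symm rc rb ra

/-- at most one bad colour on the boundary of the triangle -/
theorem not_two_bad {u : Fin 3 → ℝ} (hsum : u 0 + u 1 + u 2 = 1) {a b : ℕ} (ha : a ≤ 4)
    (hb : b ≤ 4) (hab : a ≠ b) (h0 : ∃ i, u i = 0)
    (Ba : ∀ i, ¬ Good a u i) (Bb : ∀ i, ¬ Good b u i) : False := by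
  have h1 : ∀ {s : ℝ} {a b : ℕ}, s = a / 2000 → s = b / 2000 → a = b := fun h1 h2 =>
    nat_of_real1 h1 h2
  have h100 : ∀ {s : ℝ} {a b : ℕ}, s = 100 * a / 2000 → s = 100 * b / 2000 → a = b :=
    fun h1 h2 => nat_of_real (by norm_num : (0 : ℝ) < 100) h1 h2
  have h99 : ∀ {s : ℝ} {a b : ℕ}, s = 99 * a / 2000 → s = 99 * b / 2000 → a = b :=
    fun h1 h2 => nat_of_real (by norm_num : (0 : ℝ) < 99) h1 h2
  obtain ⟨i, hi⟩ := h0
  rcases bad_relation ha hsum Ba with ⟨p1, p2, ra⟩ | ⟨p1, p2, ra⟩ | ⟨p1, p2, ra⟩ <;>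
  rcases bad_relation hb hsum Bb with ⟨q1, q2, rb⟩ | ⟨q1, q2, rb⟩ | ⟨q1, q2, rb⟩
  all_goals first
    | exact hab (h1 ra rb) | exact hab (h100 ra rb) | exact hab (h99 ra rb)
    | (fin_cases i <;> simp at hi <;> linarith)

/-- choosing a common good colour -/
theorem exists_common_good {u v : Fin 3 → ℝ} (hu : u 0 + u 1 + u 2 = 1)
    (hv : v 0 + v 1 + v 2 = 1) (h0 : (∃ i, u i = 0) ∨ (∃ i, v i = 0)) :
    ∃ (c : Fin 4) (i j : Fin 3), Good c u i ∧ Good c v j := by
  classical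
  by_contra hcon
  push Not at hcon
  have hbad : ∀ c : Fin 4, (∀ i, ¬ Good c u i) ∨ (∀ j, ¬ Good c v j) := by
    intro c
    by_contra h
    push Not at h
    obtain ⟨⟨i, hi⟩, ⟨j, hj⟩⟩ := h
    exact hcon c i j hi hj
  set Bu : Finset (Fin 4) := Finset.univ.filter (fun c => ∀ i, ¬ Good c u i) with hBu
  set Bv : Finset (Fin 4) := Finset.univ.filter (fun c => ∀ i, ¬ Good c v i) with hBv
  have hunion : Bu ∪ Bv = Finset.univ := by
    ext c
    simp only [hBu, hBv, Finset.mem_union, Finset.mem_filter, Finset.mem_univ, true_and, iff_true]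
    exact hbad c
  have hcard : 4 ≤ Bu.card + Bv.card := by
    have := Finset.card_union_le Bu Bv
    rw [hunion] at this
    simpa using this
  have hle : ∀ c : Fin 4, (c : ℕ) ≤ 4 := fun c => by omega
  have two : ∀ (w : Fin 3 → ℝ), w 0 + w 1 + w 2 = 1 →
      (Finset.univ.filter (fun c : Fin 4 => ∀ i, ¬ Good c w i)).card ≤ 2 := by
    intro w hw
    by_contra h
    push Not at h
    obtain ⟨a, ha, b, hb, c, hc, hab, hac, hbc⟩ := Finset.two_lt_card.1 h
    simp only [Finset.mem_filter, Finset.mem_univ, true_and] at ha hb hc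
    exact not_three_bad hw (hle a) (hle b) (hle c) (fun h => hab (Fin.ext h))
      (fun h => hac (Fin.ext h)) (fun h => hbc (Fin.ext h)) ha hb hc
  have one : ∀ (w : Fin 3 → ℝ), w 0 + w 1 + w 2 = 1 → (∃ i, w i = 0) →
      (Finset.univ.filter (fun c : Fin 4 => ∀ i, ¬ Good c w i)).card ≤ 1 := by
    intro w hw h0
    rw [Finset.card_le_one]
    intro a ha b hb
    simp only [Finset.mem_filter, Finset.mem_univ, true_and] at ha hb
    by_contra hab
    exact not_two_bad hw (hle a) (hle b) (fun h => hab (Fin.ext h)) h0 ha hb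
  have hu2 : Bu.card ≤ 2 := two u hu
  have hv2 : Bv.card ≤ 2 := two v hv
  rcases h0 with h0 | h0
  · have : Bu.card ≤ 1 := one u hu h0
    omega
  · have : Bv.card ≤ 1 := one v hv h0
    omega

/-- choosing a common good colour among five -/
theorem exists_common_good5 {u v : Fin 3 → ℝ} (hu : u 0 + u 1 + u 2 = 1)
    (hv : v 0 + v 1 + v 2 = 1) :
    ∃ (c : Fin 5) (i j : Fin 3), Good c u i ∧ Good c v j := by
  classical
  by_contra hcon
  push Not at hcon
  have hbad : ∀ c : Fin 5, (∀ i, ¬ Good c u i) ∨ (∀ j, ¬ Good c v j) := by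
    intro c
    by_contra h
    push Not at h
    obtain ⟨⟨i, hi⟩, ⟨j, hj⟩⟩ := h
    exact hcon c i j hi hj
  set Bu : Finset (Fin 5) := Finset.univ.filter (fun c => ∀ i, ¬ Good c u i) with hBu
  set Bv : Finset (Fin 5) := Finset.univ.filter (fun c => ∀ i, ¬ Good c v i) with hBv
  have hunion : Bu ∪ Bv = Finset.univ := by
    ext c
    simp only [hBu, hBv, Finset.mem_union, Finset.mem_filter, Finset.mem_univ, true_and, iff_true]
    exact hbad c
  have hcard : 5 ≤ Bu.card + Bv.card := by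
    have := Finset.card_union_le Bu Bv
    rw [hunion] at this
    simpa using this
  have hle : ∀ c : Fin 5, (c : ℕ) ≤ 4 := fun c => by omega
  have two : ∀ (w : Fin 3 → ℝ), w 0 + w 1 + w 2 = 1 →
      (Finset.univ.filter (fun c : Fin 5 => ∀ i, ¬ Good c w i)).card ≤ 2 := by
    intro w hw
    by_contra h
    push Not at h
    obtain ⟨a, ha, b, hb, c, hc, hab, hac, hbc⟩ := Finset.two_lt_card.1 h
    simp only [Finset.mem_filter, Finset.mem_univ, true_and] at ha hb hc
    exact not_three_bad hw (hle a) (hle b) (hle c) (fun h => hab (Fin.ext h))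
      (fun h => hac (Fin.ext h)) (fun h => hbc (Fin.ext h)) ha hb hc
  have hu2 : Bu.card ≤ 2 := two u hu
  have hv2 : Bv.card ≤ 2 := two v hv
  omega

theorem isOpen_good (c : ℕ) (i : Fin 3) : IsOpen {u : Fin 3 → ℝ | Good c u i} := by
  have : {u : Fin 3 → ℝ | Good c u i} = ⋂ k : Fin 3, {u | k ≠ i → u k - lam c k < u i - lam c i} := by
    ext u; simp [Good]
  rw [this]
  apply isOpen_iInter_of_finite
  intro k
  by_cases hk : k = i
  · simp [hk]
  · have : {u : Fin 3 → ℝ | k ≠ i → u k - lam c k < u i - lam c i} =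
        {u | u k - lam c k < u i - lam c i} := by ext u; simp [hk]
    rw [this]
    exact isOpen_lt (by fun_prop) (by fun_prop)

end Pool.Agent.Helper52.CM
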