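import Pool.Agent.Helper52.CM.Equiv
import Pool.Agent.Helper52.CM.Grid

namespace Pool.Agent.Helper52.CM

open Set TopologicalSpace Topology

/-- Lebesgue covering theorem: the `n`-cube is not covered by `n` families of pairwise
disjoint open sets of diameter less than one. -/
theorem not_setFam_cube (n : ℕ) : ¬ SetFam (Icc (0 : Fin n → ℝ) 1) n 1 := by
  classical
  rintro ⟨ι, U, h1, h2, h3, h4⟩
  have hcpt : IsCompact (Icc (0 : Fin n → ℝ) 1) := isCompact_Icc
  have hcov : Icc (0 : Fin n → ℝ) 1 ⊆ ⋃ p : Fin n × ι, U p.1 p.2 := by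
    intro x hx
    obtain ⟨c, i, hi⟩ := h4 x hx
    exact mem_iUnion.2 ⟨(c, i), hi⟩
  obtain ⟨δ, hδ, hL⟩ := lebesgue_number_lemma_of_metric hcpt
    (fun p : Fin n × ι => h1 p.1 p.2) hcov
  obtain ⟨M, hM⟩ := exists_nat_one_div_lt hδ
  set N : ℕ := M + 1 with hN
  have hNpos : (0 : ℝ) < N := by rw [hN]; positivity
  set q : (Fin n → ℕ) → (Fin n → ℝ) := fun y j => (y j : ℝ) / N with hq
  have hq01 : ∀ y : Fin n → ℕ, (∀ j, y j ≤ N) → q y ∈ Icc (0 : Fin n → ℝ) 1 := by
    intro y hy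
    constructor
    · intro j
      simp only [hq, Pi.zero_apply]
      positivity
    · intro j
      simp only [hq, Pi.one_apply]
      rw [div_le_one hNpos]
      exact_mod_cast hy j
  -- labels
  let f : Fin n → (Fin n → ℕ) → ZMod 2 := fun c y =>
    if y c = N then 1 else
    if y c = 0 ∨ ∃ i, q y ∈ U c i ∧ ∃ z ∈ Icc (0 : Fin n → ℝ) 1, z c = 0 ∧ z ∈ U c i then 0 else 1
  have hf : ∀ c, ∀ y : Fin n → ℕ, (y c = 0 → f c y = 0) ∧ (y c = N → f c y = 1) := by
    intro c y
    constructor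
    · intro h
      have hn : ¬ y c = N := by omega
      simp only [f]
      rw [if_neg hn, if_pos (Or.inl h)]
    · intro h
      simp only [f]
      rw [if_pos h]
  obtain ⟨x, hxN, hx⟩ := Grid.exists_cube N f hf
  have hx01 : q x ∈ Icc (0 : Fin n → ℝ) 1 := hq01 x fun j => (hxN j).le
  obtain ⟨⟨c, i⟩, hci⟩ := hL (q x) hx01
  have hcube : ∀ y : Fin n → ℕ, (∀ j, x j ≤ y j ∧ y j ≤ x j + 1) →
      q y ∈ Icc (0 : Fin n → ℝ) 1 ∧ q y ∈ U c i := by
    intro y hy
    refine ⟨hq01 y fun j => (hy j).2.trans (hxN j), hci ?_⟩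
    rw [Metric.mem_ball]
    refine lt_of_le_of_lt ?_ hM
    rw [dist_pi_le_iff (by positivity)]
    intro j
    simp only [hq]
    rw [Real.dist_eq, ← sub_div, abs_div, abs_of_pos hNpos, hN]
    push_cast
    apply div_le_div_of_nonneg_right _ (by positivity)
    have e1 : (x j : ℝ) ≤ y j := by exact_mod_cast (hy j).1
    have e2 : (y j : ℝ) ≤ x j + 1 := by exact_mod_cast (hy j).2
    rw [abs_of_nonneg (by linarith)]
    linarith
  obtain ⟨y, y', hy, hy', hne⟩ := hx c
  apply hne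
  by_cases hmeet : ∃ z ∈ Icc (0 : Fin n → ℝ) 1, z c = 0 ∧ z ∈ U c i
  · obtain ⟨z, hz1, hz2, hz3⟩ := hmeet
    have key : ∀ y : Fin n → ℕ, (∀ j, x j ≤ y j ∧ y j ≤ x j + 1) → f c y = 0 := by
      intro y hy
      have hyU := hcube y hy
      have hyN : y c ≠ N := by
        intro h
        have hd := h3 c i (q y) hyU z ⟨hz1, hz3⟩
        have h5 := dist_le_pi_dist (q y) z c
        rw [hz2] at h5
        have h6 : q y c = 1 := by
          simp only [hq, h]
          exact div_self hNpos.ne'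
        rw [h6, Real.dist_eq] at h5
        norm_num at h5
        linarith
      simp only [f]
      rw [if_neg hyN, if_pos (Or.inr ⟨i, hyU.2, z, hz1, hz2, hz3⟩)]
    rw [key y hy, key y' hy']
  · have key : ∀ y : Fin n → ℕ, (∀ j, x j ≤ y j ∧ y j ≤ x j + 1) → f c y = 1 := by
      intro y hy
      have hyU := hcube y hy
      simp only [f]
      by_cases hyN : y c = N
      · rw [if_pos hyN]
      · rw [if_neg hyN, if_neg]
        rintro (h0 | ⟨j, hj, z, hz1, hz2, hz3⟩)
        · exact hmeet ⟨q y, hyU.1, by simp [hq, h0], hyU.2⟩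
        · by_cases hij : i = j
          · subst hij
            exact hmeet ⟨z, hz1, hz2, hz3⟩
          · exact disjoint_left.1 (h2 c i j hij) hyU.2 hj
    rw [key y hy, key y' hy']

theorem not_covLT_cube (n : ℕ) : ¬ CovLT (Icc (0 : Fin n → ℝ) 1) n := fun h =>
  not_setFam_cube n (sm_of_covLT isCompact_Icc isClosed_Icc h 1 one_pos)

end Pool.Agent.Helper52.CM
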