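import Mathlib

/-!
Definitions for the problem on symmetric products of Cantor manifolds:
covering dimension, Cantor manifolds, symmetric products.
-/

namespace Pool.Agent.Helper52.CM

open Set TopologicalSpace

/-- `CovLT X n`: every finite open cover of `X` has a finite open refinement such that
every point of `X` lies in at most `n` members of the refinement.
This says that the covering dimension of `X` is at most `n - 1`. -/
def CovLT (X : Type*) [TopologicalSpace X] (n : ℕ) : Prop :=
  ∀ (ι : Type) [Finite ι] (U : ι → Set X), (∀ i, IsOpen (U i)) → (⋃ i, U i) = univ →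
    ∃ (κ : Type) (_ : Finite κ) (V : κ → Set X), (∀ k, IsOpen (V k)) ∧ (⋃ k, V k) = univ ∧
      (∀ k, ∃ i, V k ⊆ U i) ∧ ∀ x, {k | x ∈ V k}.ncard ≤ n

/-- The covering dimension of `X`, with values in `WithBot ℕ∞`. The value `⊥`, attained exactly
at the empty space, stands for the dimension `-1`. -/
noncomputable def Dim (X : Type*) [TopologicalSpace X] : WithBot ℕ∞ :=
  sInf {d | ∀ n : ℕ, d < n → CovLT X n}

/-- `X` is a `k`-dimensional Cantor manifold: `1 ≤ k`, `Dim X = k`, and `X \ C` is connected for
every closed set `C` with `Dim C ≤ k - 2`. -/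
structure IsCantorManifold (X : Type*) [TopologicalSpace X] (k : ℕ) : Prop where
  one_le : 1 ≤ k
  dim_eq : Dim X = k
  isConnected_compl : ∀ C : Set X, IsClosed C → Dim C + 2 ≤ k → IsConnected Cᶜ

/-- The `m`-th symmetric product of a metric space: the nonempty subsets with at most
`m` points, with the Hausdorff metric. -/
def SymProd (E : Type*) [MetricSpace E] (m : ℕ) : Type _ :=
  {A : NonemptyCompacts E // (A : Set E).encard ≤ m}

noncomputable instance (E : Type*) [MetricSpace E] (m : ℕ) : MetricSpace (SymProd E m) :=
  inferInstanceAs (MetricSpace {A : NonemptyCompacts E // (A : Set E).encard ≤ m})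

end Pool.Agent.Helper52.CM
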