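import Pool.Agent.Helper52.CM.Sum

namespace Pool.Agent.Helper52.CM

open Set TopologicalSpace Topology

theorem exists_pos_le_dist {X : Type*} [PseudoMetricSpace X] {A B : Set X} (hA : IsCompact A)
    (hB : IsClosed B) (hAB : Disjoint A B) : ∃ ρ > 0, ∀ a ∈ A, ∀ b ∈ B, ρ ≤ dist a b := by
  obtain ⟨r, hr, h⟩ := Metric.exists_pos_forall_lt_edist hA hB hAB
  refine ⟨r, by exact_mod_cast hr, fun a ha b hb => ?_⟩
  have := h a ha b hb
  rw [edist_dist] at this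
  have h2 : ENNReal.ofReal (r : ℝ) < ENNReal.ofReal (dist a b) := by simpa using this
  exact ((ENNReal.ofReal_lt_ofReal_iff_of_nonneg r.2).1 h2).le

theorem partition_step {X : Type} [MetricSpace X] [CompactSpace X] {n : ℕ}
    (H : Sm (univ : Set X) (n + 1)) {A B : Set X} (hA : IsClosed A) (hB : IsClosed B)
    (hAB : Disjoint A B) {η : ℝ} (hη : 0 < η) :
    ∃ G K : Set X, IsOpen G ∧ IsOpen K ∧ A ⊆ G ∧ B ⊆ K ∧ Disjoint (closure G) (closure K) ∧
      SetFam (G ∪ K)ᶜ n η := by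
  classical
  obtain ⟨ρ, hρ, hd⟩ := exists_pos_le_dist hA.isCompact hB hAB
  obtain ⟨ι, U, h1, h2, h3, h4⟩ := H (min η ρ) (lt_min hη hρ)
  set F : Set X := (⋃ c : Fin n, ⋃ i, U c.succ i)ᶜ with hF
  have hFc : IsClosed F := (isOpen_iUnion fun c => isOpen_iUnion fun i => h1 _ _).isClosed_compl
  have hFcov : ∀ x ∈ F, ∃ i, x ∈ U 0 i := by
    intro x hx
    obtain ⟨c, i, hi⟩ := h4 x (mem_univ x)
    rcases Fin.eq_zero_or_eq_succ c with rfl | ⟨d, rfl⟩
    · exact ⟨i, hi⟩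
    · exact absurd (mem_iUnion.2 ⟨d, mem_iUnion.2 ⟨i, hi⟩⟩) hx
  set OA : Set X := ⋃ i, ⋃ (_ : (U 0 i ∩ A).Nonempty), U 0 i with hOA
  set OB : Set X := ⋃ i, ⋃ (_ : ¬ (U 0 i ∩ A).Nonempty), U 0 i with hOB
  have hOAo : IsOpen OA := isOpen_iUnion fun i => isOpen_iUnion fun _ => h1 _ _
  have hOBo : IsOpen OB := isOpen_iUnion fun i => isOpen_iUnion fun _ => h1 _ _
  have hdis : Disjoint OA OB := by
    rw [disjoint_left]
    intro x hx hy
    simp only [hOA, hOB, mem_iUnion] at hx hy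
    obtain ⟨i, hi, hxi⟩ := hx
    obtain ⟨j, hj, hxj⟩ := hy
    have hij : i ≠ j := by rintro rfl; exact hj hi
    exact disjoint_left.1 (h2 0 i j hij) hxi hxj
  have hFsub : F ⊆ OA ∪ OB := by
    intro x hx
    obtain ⟨i, hi⟩ := hFcov x hx
    by_cases hA' : (U 0 i ∩ A).Nonempty
    · exact Or.inl (mem_iUnion.2 ⟨i, mem_iUnion.2 ⟨hA', hi⟩⟩)
    · exact Or.inr (mem_iUnion.2 ⟨i, mem_iUnion.2 ⟨hA', hi⟩⟩)
  have hFA : F ∩ OA = F ∩ OBᶜ := by
    ext x
    constructor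
    · rintro ⟨hx, hx'⟩; exact ⟨hx, fun h => disjoint_left.1 hdis hx' h⟩
    · rintro ⟨hx, hx'⟩; exact ⟨hx, (hFsub hx).resolve_right hx'⟩
  have hFB : F ∩ OB = F ∩ OAᶜ := by
    ext x
    constructor
    · rintro ⟨hx, hx'⟩; exact ⟨hx, fun h => disjoint_left.1 hdis h hx'⟩
    · rintro ⟨hx, hx'⟩; exact ⟨hx, (hFsub hx).resolve_left hx'⟩
  have hA'c : IsClosed (A ∪ F ∩ OA) := by
    rw [hFA]; exact hA.union (hFc.inter hOBo.isClosed_compl)
  have hB'c : IsClosed (B ∪ F ∩ OB) := by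
    rw [hFB]; exact hB.union (hFc.inter hOAo.isClosed_compl)
  have hdisj : Disjoint (A ∪ F ∩ OA) (B ∪ F ∩ OB) := by
    rw [disjoint_left]
    rintro x (hx | hx) (hy | hy)
    · exact disjoint_left.1 hAB hx hy
    · obtain ⟨i, hi⟩ := mem_iUnion.1 hy.2
      obtain ⟨hi1, hi2⟩ := mem_iUnion.1 hi
      exact hi1 ⟨x, hi2, hx⟩
    · obtain ⟨i, hi⟩ := mem_iUnion.1 hx.2
      obtain ⟨⟨a, ha1, ha2⟩, hi2⟩ := mem_iUnion.1 hi
      have e1 := h3 0 i a ⟨mem_univ _, ha1⟩ x ⟨mem_univ _, hi2⟩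
      have e2 := hd a ha2 x hy
      have e3 := min_le_right η ρ
      linarith
    · exact disjoint_left.1 hdis hx.2 hy.2
  obtain ⟨G', K', hG', hK', hAG, hBK, hGK⟩ := normal_separation hA'c hB'c hdisj
  -- shrink to have disjoint closures
  obtain ⟨G, hG, hAG2, hGc⟩ := normal_exists_closure_subset hA'c hG' hAG
  obtain ⟨K, hK, hBK2, hKc⟩ := normal_exists_closure_subset hB'c hK' hBK
  refine ⟨G, K, hG, hK, subset_union_left.trans hAG2, subset_union_left.trans hBK2,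
    hGK.mono hGc hKc, ?_⟩
  refine ⟨ι, fun c i => U c.succ i, fun c i => h1 _ _, fun c i j hij => h2 _ _ _ hij, ?_, ?_⟩
  · intro c i x hx y hy
    exact (h3 _ i x ⟨mem_univ _, hx.2⟩ y ⟨mem_univ _, hy.2⟩).trans_le (min_le_left _ _)
  · intro x hx
    have hxF : x ∉ F := by
      intro h
      apply hx
      rcases hFsub h with h' | h'
      · exact Or.inl (hAG2 (Or.inr ⟨h, h'⟩))
      · exact Or.inr (hBK2 (Or.inr ⟨h, h'⟩))
    rw [hF, notMem_compl_iff] at hxF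
    obtain ⟨c, hc⟩ := mem_iUnion.1 hxF
    obtain ⟨i, hi⟩ := mem_iUnion.1 hc
    exact ⟨c, i, hi⟩

/-- Large inductive dimension is at most the covering dimension: partitions. -/
theorem exists_partition {X : Type} [MetricSpace X] [CompactSpace X] {n : ℕ}
    (H : Sm (univ : Set X) (n + 1)) {A B : Set X} (hA : IsClosed A) (hB : IsClosed B)
    (hAB : Disjoint A B) :
    ∃ U V : Set X, IsOpen U ∧ IsOpen V ∧ A ⊆ U ∧ B ⊆ V ∧ Disjoint U V ∧ Sm (U ∪ V)ᶜ n := by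
  classical
  let St := {p : Set X × Set X // Disjoint (closure p.1) (closure p.2)}
  have hstep : ∀ (k : ℕ) (p : St), ∃ q : St, IsOpen q.1.1 ∧ IsOpen q.1.2 ∧ closure p.1.1 ⊆ q.1.1 ∧
      closure p.1.2 ⊆ q.1.2 ∧ SetFam (q.1.1 ∪ q.1.2)ᶜ n (1 / ((k : ℝ) + 1)) := by
    intro k p
    obtain ⟨G, K, hG, hK, h1, h2, h3, h4⟩ := partition_step H isClosed_closure isClosed_closure p.2
      (η := 1 / ((k : ℝ) + 1)) (by positivity)
    exact ⟨⟨(G, K), h3⟩, hG, hK, h1, h2, h4⟩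
  choose nxt hn1 hn2 hn3 hn4 hn5 using hstep
  let s : ℕ → St := fun k => Nat.rec ⟨(A, B), by rwa [hA.closure_eq, hB.closure_eq]⟩
    (fun k p => nxt k p) k
  have hs : ∀ k, s (k + 1) = nxt k (s k) := fun k => rfl
  have hmono1 : Monotone fun k => (s k).1.1 := monotone_nat_of_le_succ fun k => by
    rw [hs]; exact subset_closure.trans (hn3 k (s k))
  have hmono2 : Monotone fun k => (s k).1.2 := monotone_nat_of_le_succ fun k => by
    rw [hs]; exact subset_closure.trans (hn4 k (s k))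
  refine ⟨⋃ k, (s (k + 1)).1.1, ⋃ k, (s (k + 1)).1.2, isOpen_iUnion fun k => ?_,
    isOpen_iUnion fun k => ?_, ?_, ?_, ?_, ?_⟩
  · rw [hs]; exact hn1 _ _
  · rw [hs]; exact hn2 _ _
  · intro x hx
    exact mem_iUnion.2 ⟨0, hmono1 (Nat.zero_le 1) hx⟩
  · intro x hx
    exact mem_iUnion.2 ⟨0, hmono2 (Nat.zero_le 1) hx⟩
  · rw [disjoint_left]
    intro x hx hy
    obtain ⟨k, hk⟩ := mem_iUnion.1 hx
    obtain ⟨l, hl⟩ := mem_iUnion.1 hy
    have h1 := subset_closure (hmono1 (le_max_left (k + 1) (l + 1)) hk)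
    have h2 := subset_closure (hmono2 (le_max_right (k + 1) (l + 1)) hl)
    exact disjoint_left.1 (s (max (k + 1) (l + 1))).2 h1 h2
  · intro ε hε
    obtain ⟨k, hk⟩ := exists_nat_one_div_lt hε
    apply SetFam.mono_eps hk.le
    have := hn5 k (s k)
    rw [← hs] at this
    apply this.mono_set
    apply compl_subset_compl.2
    apply union_subset_union
    · exact subset_iUnion (fun k => (s (k + 1)).1.1) k
    · exact subset_iUnion (fun k => (s (k + 1)).1.2) k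

end Pool.Agent.Helper52.CM
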