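import Pool.Agent.Helper52.CM.Tower
import Pool.Agent.Helper52.CM.Coc
import Pool.Agent.Helper52.CM.Partition

namespace Pool.Agent.Helper52.CM

open Set TopologicalSpace Topology

theorem dist_HS_mono {x y x' y' : HS} (h : ∀ i, dist (x i) (y i) ≤ dist (x' i) (y' i)) :
    dist x y ≤ dist x' y' := by
  have h1 : dist x y = ∑' i, min ((2 : ℝ)⁻¹ ^ (Encodable.encode i))
      (dist (x i) (y i)) := PiCountable.dist_eq_tsum (F := fun _ : ℕ => ℂ) x y
  have h2 : dist x' y' = ∑' i, min ((2 : ℝ)⁻¹ ^ (Encodable.encode i))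
      (dist (x' i) (y' i)) := PiCountable.dist_eq_tsum (F := fun _ : ℕ => ℂ) x' y'
  rw [h1, h2]
  apply Summable.tsum_le_tsum _ (PiCountable.dist_summable (F := fun _ : ℕ => ℂ) x y)
    (PiCountable.dist_summable (F := fun _ : ℕ => ℂ) x' y')
  intro i
  exact min_le_min le_rfl (h i)

theorem dist_ins_base (j : ℕ) (y z : HS) (w : ℂ) : dist (ins j y w) (ins j z w) ≤ dist y z := by
  apply dist_HS_mono
  intro i
  simp only [ins]
  split_ifs
  · exact le_rfl
  · rw [dist_self]; exact dist_nonneg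
  · rw [dist_self]; exact dist_nonneg

theorem dist_ins_val (j : ℕ) (y : HS) (w w' : ℂ) :
    dist (ins j y w) (ins j y w') ≤ dist w w' := by
  have h1 : dist (ins j y w) (ins j y w') = ∑' i, min ((2 : ℝ)⁻¹ ^ (Encodable.encode i))
      (dist (ins j y w i) (ins j y w' i)) :=
    PiCountable.dist_eq_tsum (F := fun _ : ℕ => ℂ) (ins j y w) (ins j y w')
  rw [h1, tsum_eq_single (j + 1)]
  · refine (min_le_right _ _).trans ?_
    rw [ins_self, ins_self]
  · intro i hi
    have : ins j y w i = ins j y w' i := by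
      simp only [ins]
      split_ifs
      · rfl
      · rfl
    rw [this, dist_self]
    exact min_eq_right (by positivity)

theorem continuous_ins (j : ℕ) : Continuous fun p : HS × ℂ => ins j p.1 p.2 := by
  apply continuous_toHS
  intro i
  by_cases h : i ≤ j
  · simp only [ins, h, if_true]; exact (continuous_coord i).comp continuous_fst
  · by_cases h2 : i = j + 1
    · subst h2
      simp only [ins, h, if_true, if_false]; exact continuous_snd
    · simp only [ins, h, h2, if_false]; exact continuous_const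

/-- standard winding cocycle -/
noncomputable def cst (p : ℕ) (u v : ℂ) : ZMod p := ((round (tau u - tau v) : ℤ) : ZMod p)

/-- cocycle with standard boundary values -/
def HasCoc (p : ℕ) (Y : Set HS) : Prop :=
  ∃ ε > 0, ∃ c : HS → HS → ZMod p, IsCoc Y ε c ∧
    ∀ y ∈ Y, ∀ y' ∈ Y, ‖y 0‖ = 1 → ‖y' 0‖ = 1 → dist y y' < ε → c y y' = cst p (y 0) (y' 0)

theorem continuousAt_ph {z : ℂ} (hz : z ≠ 0) : ContinuousAt ph z := by
  unfold ph
  apply ContinuousAt.div continuousAt_id
  · exact (Complex.continuous_ofReal.comp continuous_norm).continuousAt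
  · have := norm_pos_iff.2 hz
    exact_mod_cast this.ne'

/-- pushing a cocycle down one stage -/
theorem descend {p : ℕ} (hp : 0 < p) {j : ℕ} {Y : Set HS} (hY : StageP j Y) {f : HS → ℂ}
    (hf : Continuous f) (hfb : ∀ y ∈ Y, ‖y 0‖ = 1 → f y ≠ 0)
    (hZ : Sm (Y ∩ {y | f y = 0}) 1) (H : HasCoc p (nextY p j Y f)) : HasCoc p Y := by
  classical
  obtain ⟨ε, hε, c, hc, hcb⟩ := H
  obtain ⟨δ, hδ, hcirc⟩ := circle_coc p hp hε
  set Z : Set HS := Y ∩ {y | f y = 0} with hZdef
  set D : Set HS := Y ∩ {y | ‖y 0‖ = 1} with hDdef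
  have hYc := hY.compact
  have hZc : IsCompact Z := hYc.inter_right (isClosed_eq hf continuous_const)
  have hDc : IsCompact D := hYc.inter_right (isClosed_eq (continuous_coord 0).norm continuous_const)
  have hZD : Disjoint Z D := by
    rw [disjoint_left]
    rintro y ⟨hy, hy0⟩ ⟨-, hy1⟩
    exact hfb y hy hy1 hy0
  obtain ⟨ρ0, hρ0, hd0⟩ := exists_pos_le_dist hZc hDc.isClosed hZD
  -- small disjoint neighbourhoods of the zero set
  obtain ⟨ι, U, h1, h2, h3, h4, h5⟩ := (hZ (min (ε / 3) ρ0 / 2) (by positivity)).strong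
  have h3' : ∀ i, ∀ x ∈ U 0 i, ∀ y ∈ U 0 i, dist x y < min (ε / 3) ρ0 := by
    intro i x hx y hy
    have := h3 0 i x hx y hy
    linarith
  have h5' : ∀ z ∈ Z, ∃ i, z ∈ U 0 i := by
    intro z hz
    obtain ⟨c', i, hi⟩ := h5 z hz
    rw [Subsingleton.elim c' 0] at hi
    exact ⟨i, hi⟩
  have hidx : ∀ i, (U 0 i).Nonempty → (Z ∩ U 0 i).Nonempty := by
    intro i hi
    rcases h4 0 i with h | h
    · exact h
    · rw [h] at hi; exact absurd hi (by simp)
  have hzi : ∀ i, ∃ z : HS, (U 0 i).Nonempty → z ∈ Z ∩ U 0 i := by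
    intro i
    by_cases h : (U 0 i).Nonempty
    · obtain ⟨z, hz⟩ := hidx i h
      exact ⟨z, fun _ => hz⟩
    · exact ⟨fun _ => 0, fun h' => absurd h' h⟩
  choose z hz using hzi
  obtain ⟨ρ1, hρ1, hleb⟩ := lebesgue_number_lemma_of_metric hZc (fun i => h1 0 i) (by
    intro x hx
    exact mem_iUnion.2 (h5' x hx))
  set ρ : ℝ := min ρ1 ρ0 with hρdef
  have hρ : 0 < ρ := lt_min hρ1 hρ0
  set M : Set HS := Y ∩ {y | ∀ x ∈ Z, ρ / 2 ≤ dist y x} with hMdef
  have hMc : IsCompact M := by
    apply hYc.inter_right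
    have : {y : HS | ∀ x ∈ Z, ρ / 2 ≤ dist y x} = ⋂ x ∈ Z, {y | ρ / 2 ≤ dist y x} := by
      ext y; simp
    rw [this]
    exact isClosed_biInter fun x _ => isClosed_le continuous_const (by fun_prop)
  have hMf : ∀ y ∈ M, f y ≠ 0 := by
    rintro y ⟨hy, hy'⟩ h
    have := hy' y ⟨hy, h⟩
    rw [dist_self] at this
    linarith
  -- the section
  set s : HS → HS := fun y => ins j y (ph (f y) ^ p) with hs
  have hsY : ∀ y ∈ Y, f y ≠ 0 → s y ∈ nextY p j Y f := by
    intro y hy hfy
    exact ins_mem_nextY hY hy (by rw [norm_pow, norm_ph hfy, one_pow]) (pow_eq_ph _ _ hfy)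
  have hzY : ∀ x ∈ Z, ∀ w : ℂ, ‖w‖ = 1 → ins j x w ∈ nextY p j Y f := by
    rintro x ⟨hx, hx0⟩ w hw
    apply ins_mem_nextY hY hx hw
    rw [show f x = 0 from hx0]
    simp [hp.ne']
  have hphc : ContinuousOn (fun y => ph (f y)) M := fun y hy =>
    ((continuousAt_ph (hMf y hy)).comp hf.continuousAt).continuousWithinAt
  have hsc : ContinuousOn s M := by
    have : s = (fun q : HS × ℂ => ins j q.1 q.2) ∘ fun y => (y, ph (f y) ^ p) := rfl
    rw [this]
    exact (continuous_ins j).comp_continuousOn (continuousOn_id.prodMk (hphc.pow p))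
  obtain ⟨δ1, hδ1, hu1⟩ := Metric.uniformContinuousOn_iff.1
    (hMc.uniformContinuousOn_of_continuous hsc) (ε / 3) (by positivity)
  obtain ⟨δ2, hδ2, hu2⟩ := Metric.uniformContinuousOn_iff.1
    (hMc.uniformContinuousOn_of_continuous hphc) δ hδ
  -- circle cocycles
  have hcoc : ∀ i, (U 0 i).Nonempty → ∃ β : ℂ → ZMod p, ∀ u v : ℂ, ‖u‖ = 1 → ‖v‖ = 1 →
      dist u v < δ → c (ins j (z i) (u ^ p)) (ins j (z i) (v ^ p)) = β v - β u := by
    intro i hi
    apply hcirc (fun w w' => c (ins j (z i) w) (ins j (z i) w'))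
    intro w hw w' hw' w'' hw'' d1 d2 d3
    rw [mem_sphere_zero_iff_norm] at hw hw' hw''
    have hzZ := (hz i hi).1
    exact hc _ (hzY _ hzZ w hw) _ (hzY _ hzZ w' hw') _ (hzY _ hzZ w'' hw'')
      ((dist_ins_val _ _ _ _).trans_lt d1) ((dist_ins_val _ _ _ _).trans_lt d2)
      ((dist_ins_val _ _ _ _).trans_lt d3)
  have hcoc' : ∀ i, ∃ β : ℂ → ZMod p, (U 0 i).Nonempty → ∀ u v : ℂ, ‖u‖ = 1 → ‖v‖ = 1 →
      dist u v < δ → c (ins j (z i) (u ^ p)) (ins j (z i) (v ^ p)) = β v - β u := by
    intro i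
    by_cases h : (U 0 i).Nonempty
    · obtain ⟨β, hβ⟩ := hcoc i h
      exact ⟨β, fun _ => hβ⟩
    · exact ⟨fun _ => 0, fun h' => absurd h' h⟩
  choose β hβ using hcoc'
  -- correction function
  set B : HS → ZMod p := fun y => if h : ∃ i, y ∈ U 0 i then
    c (ins j (z h.choose) (ph (f y) ^ p)) (s y) + β h.choose (ph (f y)) else 0 with hB
  have hBval : ∀ i y, y ∈ U 0 i → B y = c (ins j (z i) (ph (f y) ^ p)) (s y) + β i (ph (f y)) := by
    intro i y hy
    have h : ∃ i, y ∈ U 0 i := ⟨i, hy⟩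
    have hch : h.choose = i := by
      by_contra hne
      exact disjoint_left.1 (h2 0 _ _ hne) h.choose_spec hy
    simp only [hB]
    rw [dif_pos h, hch]
  have hBno : ∀ y, (¬ ∃ i, y ∈ U 0 i) → B y = 0 := by
    intro y hy
    simp only [hB]
    rw [dif_neg hy]
  set δ' : ℝ := min (min δ1 δ2) (ρ / 2) with hδ'
  have hδ'0 : 0 < δ' := lt_min (lt_min hδ1 hδ2) (by positivity)
  -- key identity
  have key : ∀ i, ∀ y ∈ M, ∀ y' ∈ M, y ∈ U 0 i → y' ∈ U 0 i → dist y y' < δ' →
      c (s y) (s y') = B y' - B y := by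
    intro i y hy y' hy' hyi hyi' hd
    have hne : (U 0 i).Nonempty := ⟨y, hyi⟩
    have hzi := hz i hne
    have hfy := hMf y hy
    have hfy' := hMf y' hy'
    have nw : ‖ph (f y) ^ p‖ = 1 := by rw [norm_pow, norm_ph hfy, one_pow]
    have nw' : ‖ph (f y') ^ p‖ = 1 := by rw [norm_pow, norm_ph hfy', one_pow]
    have ma := hzY _ hzi.1 _ nw
    have ma' := hzY _ hzi.1 _ nw'
    have ms := hsY y hy.1 hfy
    have ms' := hsY y' hy'.1 hfy'
    have hd1 : dist y y' < δ1 := hd.trans_le ((min_le_left _ _).trans (min_le_left _ _))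
    have hd2 : dist y y' < δ2 := hd.trans_le ((min_le_left _ _).trans (min_le_right _ _))
    have e1 : dist (s y) (s y') < ε / 3 := hu1 y hy y' hy' hd1
    have e2 : dist (ph (f y)) (ph (f y')) < δ := hu2 y hy y' hy' hd2
    have e3 : dist (ins j (z i) (ph (f y) ^ p)) (s y) < ε / 3 := by
      refine (dist_ins_base j (z i) y _).trans_lt ?_
      exact (h3' i _ hzi.2 _ hyi).trans_le (min_le_left _ _)
    have e4 : dist (ins j (z i) (ph (f y') ^ p)) (s y') < ε / 3 := by
      refine (dist_ins_base j (z i) y' _).trans_lt ?_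
      exact (h3' i _ hzi.2 _ hyi').trans_le (min_le_left _ _)
    have e5 : dist (ins j (z i) (ph (f y) ^ p)) (s y') < ε := by
      have := dist_triangle (ins j (z i) (ph (f y) ^ p)) (s y) (s y')
      linarith
    have e6 : dist (ins j (z i) (ph (f y) ^ p)) (ins j (z i) (ph (f y') ^ p)) < ε := by
      have t1 := dist_triangle (ins j (z i) (ph (f y) ^ p)) (s y) (s y')
      have t2 := dist_triangle_right (ins j (z i) (ph (f y) ^ p)) (ins j (z i) (ph (f y') ^ p))
        (s y')
      linarith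
    have c1 := hc _ ma _ ms _ ms' (by linarith) (by linarith) e5
    have c2 := hc _ ma _ ma' _ ms' e6 (by linarith) e5
    have c3 := hβ i hne (ph (f y)) (ph (f y')) (norm_ph hfy) (norm_ph hfy') e2
    rw [hBval i y hyi, hBval i y' hyi']
    rw [← c2, c3] at c1
    have : c (s y) (s y') = β i (ph (f y')) - β i (ph (f y)) +
        c (ins j (z i) (ph (f y') ^ p)) (s y') - c (ins j (z i) (ph (f y) ^ p)) (s y) := by
      rw [← c1]; abel
    rw [this]
    abel
  refine ⟨δ', hδ'0, fun y y' => if ∃ i, y ∈ U 0 i ∧ y' ∈ U 0 i then 0 else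
    c (s y) (s y') - (B y' - B y), ?_, ?_⟩
  · -- cocycle
    have hM' : ∀ y ∈ M, ∀ y' ∈ M, dist y y' < δ' → (if ∃ i, y ∈ U 0 i ∧ y' ∈ U 0 i then 0 else
        c (s y) (s y') - (B y' - B y)) = c (s y) (s y') - (B y' - B y) := by
      intro y hy y' hy' hd
      split_ifs with h
      · obtain ⟨i, hi, hi'⟩ := h
        rw [key i y hy y' hy' hi hi' hd, sub_self]
      · rfl
    intro x hx y hy w hw hxy hyw hxw
    by_cases hall : x ∈ M ∧ y ∈ M ∧ w ∈ M
    · obtain ⟨hxM, hyM, hwM⟩ := hall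
      simp only
      rw [hM' x hxM y hyM hxy, hM' y hyM w hwM hyw, hM' x hxM w hwM hxw]
      have e := hc _ (hsY x hx (hMf x hxM)) _ (hsY y hy (hMf y hyM)) _ (hsY w hw (hMf w hwM))
        (by have := hu1 x hxM y hyM (hxy.trans_le ((min_le_left _ _).trans (min_le_left _ _))); linarith)
        (by have := hu1 y hyM w hwM (hyw.trans_le ((min_le_left _ _).trans (min_le_left _ _))); linarith)
        (by have := hu1 x hxM w hwM (hxw.trans_le ((min_le_left _ _).trans (min_le_left _ _))); linarith)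
      rw [← e]
      abel
    · -- some point is close to the zero set
      have hρ' : ∀ a b : HS, dist a b < δ' → dist a b < ρ / 2 := fun a b h =>
        h.trans_le (min_le_right _ _)
      obtain ⟨z0, hz0, hx0, hy0, hw0⟩ : ∃ z0 ∈ Z, dist x z0 < ρ ∧ dist y z0 < ρ ∧
          dist w z0 < ρ := by
        have hxy' := hρ' _ _ hxy
        have hyw' := hρ' _ _ hyw
        have hxw' := hρ' _ _ hxw
        by_cases hxM : x ∈ M
        · by_cases hyM : y ∈ M
          · have hwM : w ∉ M := fun h => hall ⟨hxM, hyM, h⟩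
            have : ∃ z0 ∈ Z, dist w z0 < ρ / 2 := by
              by_contra hcon
              push Not at hcon
              exact hwM ⟨hw, hcon⟩
            obtain ⟨z0, hz0, hd⟩ := this
            refine ⟨z0, hz0, ?_, ?_, by linarith⟩
            · have := dist_triangle x w z0; linarith
            · have := dist_triangle y w z0; linarith
          · have : ∃ z0 ∈ Z, dist y z0 < ρ / 2 := by
              by_contra hcon
              push Not at hcon
              exact hyM ⟨hy, hcon⟩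
            obtain ⟨z0, hz0, hd⟩ := this
            refine ⟨z0, hz0, ?_, by linarith, ?_⟩
            · have := dist_triangle x y z0; linarith
            · have := dist_triangle_left w z0 y
              rw [dist_comm y w] at hyw'
              have := dist_triangle w y z0; linarith
        · have : ∃ z0 ∈ Z, dist x z0 < ρ / 2 := by
            by_contra hcon
            push Not at hcon
            exact hxM ⟨hx, hcon⟩
          obtain ⟨z0, hz0, hd⟩ := this
          refine ⟨z0, hz0, by linarith, ?_, ?_⟩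
          · rw [dist_comm x y] at hxy'
            have := dist_triangle y x z0; linarith
          · rw [dist_comm x w] at hxw'
            have := dist_triangle w x z0; linarith
      obtain ⟨i, hi⟩ := hleb z0 hz0
      have hρρ1 : ρ ≤ ρ1 := min_le_left _ _
      have hxi : x ∈ U 0 i := hi (by rw [Metric.mem_ball]; linarith)
      have hyi : y ∈ U 0 i := hi (by rw [Metric.mem_ball]; linarith)
      have hwi : w ∈ U 0 i := hi (by rw [Metric.mem_ball]; linarith)
      simp only
      rw [if_pos ⟨i, hxi, hyi⟩, if_pos ⟨i, hyi, hwi⟩, if_pos ⟨i, hxi, hwi⟩, add_zero]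
  · -- boundary values
    intro y hy y' hy' hn hn' hd
    have hDM : ∀ y ∈ Y, ‖y 0‖ = 1 → y ∈ M ∧ ¬ ∃ i, y ∈ U 0 i := by
      intro y hy hn
      refine ⟨⟨hy, fun x hx => ?_⟩, ?_⟩
      · have e1 := hd0 x hx y ⟨hy, hn⟩
        have e2 : ρ ≤ ρ0 := min_le_right _ _
        rw [dist_comm]
        linarith
      · rintro ⟨i, hi⟩
        have hzi := hz i ⟨y, hi⟩
        have e1 := hd0 _ hzi.1 y ⟨hy, hn⟩
        have e2 := (h3' i _ hzi.2 y hi).trans_le (min_le_right _ _)
        linarith
    obtain ⟨hyM, hyU⟩ := hDM y hy hn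
    obtain ⟨hyM', hyU'⟩ := hDM y' hy' hn'
    simp only
    rw [if_neg (fun ⟨i, hi, _⟩ => hyU ⟨i, hi⟩), hBno y hyU, hBno y' hyU', sub_zero, sub_zero]
    have e := hu1 y hyM y' hyM' (hd.trans_le ((min_le_left _ _).trans (min_le_left _ _)))
    have hs0 : ∀ y : HS, s y 0 = y 0 := by
      intro y
      simp only [hs, ins, Nat.zero_le, if_true]
    have := hcb _ (hsY y hy (hMf y hyM)) _ (hsY y' hy' (hMf y' hyM')) (by rw [hs0]; exact hn)
      (by rw [hs0]; exact hn') (by linarith)
    rw [this, hs0, hs0]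

theorem not_hasCoc_zero {p : ℕ} (hp : 1 < p) : ¬ HasCoc p Y0 := by
  rintro ⟨ε, hε, c, hc, hcb⟩
  -- transfer to the disc
  let e : ℂ → HS := fun x i => if i = 0 then x else 1
  have he : ∀ x : ℂ, ‖x‖ ≤ 1 → e x ∈ Y0 := by
    intro x hx
    refine ⟨by simpa [e] using hx, fun i hi => by simp [e, hi.ne']⟩
  have hed : ∀ x y : ℂ, dist (e x) (e y) ≤ dist x y := by
    intro x y
    have h1 : dist (e x) (e y) = ∑' i, min ((2 : ℝ)⁻¹ ^ (Encodable.encode i))
        (dist (e x i) (e y i)) := PiCountable.dist_eq_tsum (F := fun _ : ℕ => ℂ) (e x) (e y)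
    rw [h1, tsum_eq_single 0]
    · refine (min_le_right _ _).trans ?_
      simp [e]
    · intro i hi
      simp [e, hi]
  have hcd : IsCoc (Metric.closedBall (0 : ℂ) 1) ε (fun x y => c (e x) (e y)) := by
    intro x hx y hy z hz h1 h2 h3
    rw [mem_closedBall_zero_iff] at hx hy hz
    exact hc _ (he x hx) _ (he y hy) _ (he z hz) ((hed _ _).trans_lt h1) ((hed _ _).trans_lt h2)
      ((hed _ _).trans_lt h3)
  obtain ⟨b, hb⟩ := hcd.star (R := 1) (by
    intro x hx t ht
    rw [mem_closedBall_zero_iff] at hx ⊢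
    rw [norm_smul, Real.norm_of_nonneg ht.1]
    exact mul_le_one₀ ht.2 (norm_nonneg _) hx) (by
    intro x hx
    rwa [mem_closedBall_zero_iff] at hx) hε
  -- walk around the circle
  obtain ⟨M, hM⟩ := exists_nat_gt (max (2 * Real.pi / (ε / 2)) 2)
  have hM1 : 2 * Real.pi / (ε / 2) < M := (le_max_left _ _).trans_lt hM
  have hM2 : (2 : ℝ) < M := (le_max_right _ _).trans_lt hM
  have hMn : 2 < M := by exact_mod_cast hM2
  have hMpos : (0 : ℝ) < M := by linarith
  have hstep : ∀ k : ℕ, dist (EE ((k : ℝ) / M)) (EE (((k + 1 : ℕ) : ℝ) / M)) < ε / 2 := by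
    intro k
    refine (dist_EE_le _ _).trans_lt ?_
    rw [← sub_div]
    push_cast
    rw [show (k : ℝ) - (k + 1) = -1 by ring, neg_div, abs_neg, abs_of_pos (by positivity)]
    rw [div_lt_iff₀ (by positivity)] at hM1
    rw [mul_one_div, div_lt_iff₀ hMpos]
    linarith
  have hmem : ∀ t : ℝ, EE t ∈ Metric.closedBall (0 : ℂ) 1 := by
    intro t
    rw [mem_closedBall_zero_iff, EE_norm]
  have hval : ∀ k : ℕ, cst p (EE ((k : ℝ) / M)) (EE (((k + 1 : ℕ) : ℝ) / M)) =
      b (EE (((k + 1 : ℕ) : ℝ) / M)) - b (EE ((k : ℝ) / M)) := by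
    intro k
    rw [← hb _ (hmem _) _ (hmem _) (hstep k)]
    have h1 := hcb _ (he _ (by rw [EE_norm])) _ (he _ (by rw [EE_norm]))
      (by simp only [e, if_true]; exact EE_norm _) (by simp only [e, if_true]; exact EE_norm _)
      ((hed (EE ((k : ℝ) / M)) (EE (((k + 1 : ℕ) : ℝ) / M))).trans_lt
        ((hstep k).trans (by linarith)))
    simp only [e, if_true] at h1
    exact h1.symm
  have htau : ∀ t : ℝ, 0 ≤ t → t < 1 → tau (EE t) = t := by
    intro t h0 h1
    have h2 := EE_tau (EE_norm t)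
    have h3 : EE (tau (EE t) - t) = 1 := by
      have : EE t * EE (tau (EE t) - t) = EE t := by
        rw [← EE_add]
        have : t + (tau (EE t) - t) = tau (EE t) := by ring
        rw [this, h2]
      have hne : EE t ≠ 0 := by
        intro h
        have := EE_norm t
        rw [h, norm_zero] at this
        exact zero_ne_one this
      exact mul_left_cancel₀ hne (this.trans (mul_one _).symm)
    obtain ⟨n, hn⟩ := EE_eq_one_iff.1 h3
    have a1 := tau_nonneg (EE t)
    have a2 := tau_lt_one (EE t)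
    have b1 : (-1 : ℝ) < n := by rw [← hn]; linarith
    have b2 : (n : ℝ) < 1 := by rw [← hn]; linarith
    have c1 : -1 < n := by exact_mod_cast b1
    have c2 : n < 1 := by exact_mod_cast b2
    have : n = 0 := by omega
    rw [this] at hn
    push_cast at hn
    linarith
  have hsum := Finset.sum_range_sub (fun k : ℕ => b (EE ((k : ℝ) / M))) M
  have hend : EE ((M : ℝ) / M) = EE (((0 : ℕ) : ℝ) / M) := by
    rw [div_self hMpos.ne', EE_one]
    simp [EE_zero]
  rw [hend, sub_self] at hsum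
  have hsum2 : ∑ k ∈ Finset.range M, cst p (EE ((k : ℝ) / M)) (EE (((k + 1 : ℕ) : ℝ) / M)) = 0 := by
    rw [← hsum]
    exact Finset.sum_congr rfl fun k _ => hval k
  obtain ⟨q, rfl⟩ : ∃ q, M = q + 1 := ⟨M - 1, by omega⟩
  rw [Finset.sum_range_succ] at hsum2
  have hzero : ∑ k ∈ Finset.range q, cst p (EE ((k : ℝ) / (q + 1 : ℕ)))
      (EE (((k + 1 : ℕ) : ℝ) / (q + 1 : ℕ))) = 0 := by
    apply Finset.sum_eq_zero
    intro k hk
    have hkq : k < q := Finset.mem_range.1 hk
    have hkq' : ((k + 1 : ℕ) : ℝ) < (q + 1 : ℕ) := by exact_mod_cast (by omega : k + 1 < q + 1)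
    unfold cst
    rw [htau _ (by positivity) (by
        rw [div_lt_one hMpos]; push_cast at hkq' ⊢; linarith),
      htau _ (by positivity) (by rw [div_lt_one hMpos]; exact hkq')]
    have : round ((k : ℝ) / (q + 1 : ℕ) - ((k + 1 : ℕ) : ℝ) / (q + 1 : ℕ)) = 0 := by
      rw [← sub_div]
      have e0 : (k : ℝ) - ((k + 1 : ℕ) : ℝ) = -1 := by push_cast; ring
      rw [e0, round_eq_zero_iff]
      constructor
      · rw [neg_div, neg_le_neg_iff, div_le_div_iff₀ hMpos two_pos]
        linarith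
      · have : (-1 : ℝ) / (q + 1 : ℕ) < 0 := div_neg_of_neg_of_pos (by norm_num) hMpos
        linarith
    rw [this]
    simp
  rw [hzero, zero_add] at hsum2
  have hlast : cst p (EE ((q : ℝ) / (q + 1 : ℕ))) (EE (((q + 1 : ℕ) : ℝ) / (q + 1 : ℕ))) = 1 := by
    unfold cst
    rw [div_self hMpos.ne', EE_one, ← EE_zero, htau 0 le_rfl one_pos,
      htau _ (by positivity) (by rw [div_lt_one hMpos]; push_cast; linarith), sub_zero]
    have : round ((q : ℝ) / (q + 1 : ℕ)) = 1 := by
      rw [round_eq, Int.floor_eq_iff]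
      have e1 : (q : ℝ) / (q + 1 : ℕ) < 1 := by rw [div_lt_one hMpos]; push_cast; linarith
      have e2 : (1 / 2 : ℝ) ≤ (q : ℝ) / (q + 1 : ℕ) := by
        rw [div_le_div_iff₀ two_pos hMpos]
        push_cast at hM2 ⊢
        linarith
      push_cast at e1 e2 ⊢
      constructor <;> linarith
    rw [this]
    simp
  rw [hlast] at hsum2
  have : Fact (1 < p) := ⟨hp⟩
  exact one_ne_zero hsum2

theorem not_hasCoc {p : ℕ} (hp : 1 < p) (j : ℕ) : ¬ HasCoc p (YY p j) := by
  induction j with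
  | zero => rw [YY_zero]; exact not_hasCoc_zero hp
  | succ j ih =>
    intro h
    rw [YY_succ] at h
    exact ih (descend (by omega) (YY_stage p j) (ff p j).continuous (ff_boundary p j)
      (ff_zero p j) h)

end Pool.Agent.Helper52.CM
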