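import Pool.Agent.Helper52.CM.Basic

namespace Pool.Agent.Helper52.CM

open Set TopologicalSpace Topology

/-- From families to covers. -/
theorem Sm.covLT {X : Type} [PseudoMetricSpace X] {Z : Set X} (hZ : IsCompact Z) {n : ℕ}
    (H : Sm Z n) : CovLT Z n := by
  classical
  have : CompactSpace Z := isCompact_iff_compactSpace.1 hZ
  intro ι _ U hU hc
  rcases isEmpty_or_nonempty Z with hE | hN
  · exact covLT_of_isEmpty Z n ι U hU hc
  have hιN : Nonempty ι := by
    obtain ⟨x⟩ := hN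
    have hx : x ∈ ⋃ i, U i := by rw [hc]; trivial
    obtain ⟨i, _⟩ := mem_iUnion.1 hx
    exact ⟨i⟩
  obtain ⟨δ, hδ, hL⟩ := lebesgue_number_lemma_of_metric (isCompact_univ (X := Z)) hU (by rw [hc])
  obtain ⟨κ, W, h1, h2, h3, h4⟩ := H δ hδ
  have hcov : (univ : Set Z) ⊆ ⋃ p : Fin n × κ, (Subtype.val ⁻¹' W p.1 p.2 : Set Z) := by
    intro x _
    obtain ⟨c, i, hi⟩ := h4 x x.2
    exact mem_iUnion.2 ⟨(c, i), hi⟩
  obtain ⟨t, ht⟩ := (isCompact_univ (X := Z)).elim_finite_subcover _
    (fun p : Fin n × κ => (h1 p.1 p.2).preimage continuous_subtype_val) hcov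
  refine ⟨t, inferInstance, fun k => (Subtype.val ⁻¹' W k.1.1 k.1.2 : Set Z), ?_, ?_, ?_, ?_⟩
  · exact fun k => (h1 _ _).preimage continuous_subtype_val
  · apply eq_univ_of_forall
    intro x
    have := ht (mem_univ x)
    simp only [mem_iUnion] at this
    obtain ⟨p, hp, hx⟩ := this
    exact mem_iUnion.2 ⟨⟨p, hp⟩, hx⟩
  · intro k
    rcases (Subtype.val ⁻¹' W k.1.1 k.1.2 : Set Z).eq_empty_or_nonempty with he | ⟨x, hx⟩
    · obtain ⟨i⟩ := hιN
      exact ⟨i, by simp only [he]; exact empty_subset _⟩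
    · obtain ⟨i, hi⟩ := hL x (mem_univ x)
      refine ⟨i, fun y hy => hi ?_⟩
      rw [Metric.mem_ball]
      exact h3 _ _ y ⟨y.2, hy⟩ x ⟨x.2, hx⟩
  · intro x
    have hinj : InjOn (fun k : t => k.1.1) {k : t | x ∈ (Subtype.val ⁻¹' W k.1.1 k.1.2 : Set Z)} := by
      intro k hk l hl hkl
      simp only [mem_ofPred_eq, mem_preimage] at hk hl hkl
      apply Subtype.ext
      apply Prod.ext hkl
      by_contra hne
      have := h2 k.1.1 k.1.2 l.1.2 hne
      rw [hkl] at hk this
      exact disjoint_left.1 this hk hl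
    have h5 := ncard_le_ncard_of_injOn (s := {k : t | x ∈ (Subtype.val ⁻¹' W k.1.1 k.1.2 : Set Z)})
      (t := (univ : Set (Fin n))) (fun k : t => k.1.1) (fun _ _ => mem_univ _) hinj (toFinite _)
    rw [ncard_univ, Nat.card_eq_fintype_card, Fintype.card_fin] at h5
    exact h5

/-- From covers to families. -/
theorem sm_of_covLT {X : Type} [PseudoMetricSpace X] {Z : Set X} (hZ : IsCompact Z)
    (hZc : IsClosed Z) {n : ℕ} (H : CovLT Z n) : Sm Z n := by
  classical
  have : CompactSpace Z := isCompact_iff_compactSpace.1 hZ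
  intro ε hε
  -- cover by small balls
  obtain ⟨t, htZ, ht⟩ := hZ.elim_nhds_subcover (fun x => Metric.ball x (ε / 2))
    (fun x _ => Metric.ball_mem_nhds x (half_pos hε))
  have hcov : (⋃ i : t, (Subtype.val ⁻¹' Metric.ball i.1 (ε / 2) : Set Z)) = univ := by
    apply eq_univ_of_forall
    intro x
    have := ht x.2
    simp only [mem_iUnion] at this
    obtain ⟨i, hi, hx⟩ := this
    exact mem_iUnion.2 ⟨⟨i, hi⟩, hx⟩
  obtain ⟨V, hV1, hV2, hV3, hV4⟩ := H.shrink _
    (fun i : t => (Metric.isOpen_ball (x := i.1) (ε := ε / 2)).preimage continuous_subtype_val) hcov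
  -- functions
  have hφ : ∀ i : t, ∃ φ : C(Z, ℝ), ∀ x, (0 ≤ φ x) ∧ (0 < φ x ↔ x ∈ V i) := by
    intro i
    rcases (V i)ᶜ.eq_empty_or_nonempty with he | hne
    · refine ⟨⟨fun _ => 1, continuous_const⟩, fun x => ⟨zero_le_one, ?_⟩⟩
      have : V i = univ := compl_empty_iff.1 he
      simp [this]
    · refine ⟨⟨fun x => Metric.infDist x (V i)ᶜ, Metric.continuous_infDist_pt _⟩, fun x =>
        ⟨Metric.infDist_nonneg, ?_⟩⟩
      have h1 := (hV1 i).isClosed_compl.notMem_iff_infDist_pos hne (x := x)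
      have h2 : x ∈ V i ↔ x ∉ (V i)ᶜ := by simp
      rw [h2, h1]
      rfl
  choose φ hφ using hφ
  have hΦ : ∀ i : t, ∃ Φ : C(X, ℝ), ∀ x : Z, Φ x = φ i x := by
    intro i
    obtain ⟨Φ, hΦ⟩ := ContinuousMap.exists_restrict_eq hZc (φ i)
    exact ⟨Φ, fun x => by rw [← hΦ]; rfl⟩
  choose Φ hΦ using hΦ
  have hopen : ∀ S : Finset t, IsOpen ({x : X | (∀ s ∈ S, 0 < Φ s x) ∧
      ∀ s ∈ S, ∀ r : t, r ∉ S → Φ r x < Φ s x} ∩ ⋂ s ∈ S, Metric.ball s.1 (ε / 2)) := by
    intro S
    apply IsOpen.inter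
    · have : {x : X | (∀ s ∈ S, 0 < Φ s x) ∧ ∀ s ∈ S, ∀ r : t, r ∉ S → Φ r x < Φ s x} =
        (⋂ s ∈ S, {x | 0 < Φ s x}) ∩ ⋂ s ∈ S, ⋂ r ∈ (Finset.univ.filter (· ∉ S) : Finset t),
          {x | Φ r x < Φ s x} := by
        ext x
        simp
      rw [this]
      apply IsOpen.inter
      · exact isOpen_biInter_finset fun s _ => isOpen_lt continuous_const (Φ s).continuous
      · exact isOpen_biInter_finset fun s _ => isOpen_biInter_finset fun r _ =>
          isOpen_lt (Φ r).continuous (Φ s).continuous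
    · exact isOpen_biInter_finset fun s _ => Metric.isOpen_ball
  refine ⟨Finset t, fun c S => if S.card = c.1 + 1 then ({x : X | (∀ s ∈ S, 0 < Φ s x) ∧
      ∀ s ∈ S, ∀ r : t, r ∉ S → Φ r x < Φ s x} ∩ ⋂ s ∈ S, Metric.ball s.1 (ε / 2)) else ∅,
      ?_, ?_, ?_, ?_⟩
  · intro c S
    by_cases h : S.card = c.1 + 1
    · simp only [h, if_pos]; exact hopen S
    · simp only [h, if_false]; exact isOpen_empty
  · intro c S T hST
    by_cases hS : S.card = c.1 + 1
    · by_cases hT : T.card = c.1 + 1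
      · simp only [hS, hT, if_pos]
        rw [disjoint_left]
        rintro x ⟨⟨-, hx⟩, -⟩ ⟨⟨-, hy⟩, -⟩
        obtain ⟨s, hs, hs'⟩ : ∃ s ∈ S, s ∉ T := by
          by_contra hcon
          push Not at hcon
          exact hST (Finset.eq_of_subset_of_card_le hcon (by rw [hS, hT]))
        obtain ⟨r, hr, hr'⟩ : ∃ r ∈ T, r ∉ S := by
          by_contra hcon
          push Not at hcon
          exact hST (Finset.eq_of_subset_of_card_le hcon (by rw [hS, hT])).symm
        exact lt_asymm (hx s hs r hr') (hy r hr s hs')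
      · simp only [hT, if_false]; exact disjoint_bot_right
    · simp only [hS, if_false]; exact disjoint_bot_left
  · intro c S x hx y hy
    by_cases hS : S.card = c.1 + 1
    · simp only [hS, if_pos] at hx hy
      obtain ⟨s, hs⟩ : S.Nonempty := Finset.card_pos.1 (by omega)
      have hx' := mem_iInter₂.1 hx.2.2 s hs
      have hy' := mem_iInter₂.1 hy.2.2 s hs
      rw [Metric.mem_ball] at hx' hy'
      have := dist_triangle_right x y s.1
      linarith
    · simp only [hS, if_false] at hx; exact absurd hx.2 (notMem_empty _)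
  · intro x hx
    set z : Z := ⟨x, hx⟩ with hz
    obtain ⟨i0, hi0⟩ : ∃ i, z ∈ V i := by
      have : z ∈ ⋃ i, V i := by rw [hV2]; trivial
      exact mem_iUnion.1 this
    set S : Finset t := Finset.univ.filter (fun i => ∀ j, φ j z ≤ φ i z) with hSdef
    have hSne : S.Nonempty := by
      have : Nonempty t := ⟨i0⟩
      obtain ⟨i, hi⟩ := Finite.exists_max (fun i : t => φ i z)
      exact ⟨i, by rw [hSdef]; simpa using hi⟩
    have hSpos : ∀ s ∈ S, 0 < φ s z := by
      intro s hs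
      rw [hSdef, Finset.mem_filter] at hs
      exact lt_of_lt_of_le ((hφ i0 z).2.2 hi0) (hs.2 i0)
    have hScard : S.card ≤ n := by
      have h5 : (S : Set t) ⊆ {i | z ∈ V i} := fun s hs => (hφ s z).2.1 (hSpos s hs)
      have h6 := ncard_le_ncard h5 (toFinite _)
      rw [ncard_coe_finset] at h6
      exact h6.trans (hV4 z)
    have hcpos : 0 < S.card := Finset.card_pos.2 hSne
    refine ⟨⟨S.card - 1, by omega⟩, S, ?_⟩
    have h7 : S.card = S.card - 1 + 1 := by omega
    simp only []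
    rw [if_pos h7]
    refine ⟨⟨?_, ?_⟩, ?_⟩
    · intro s hs
      have := hΦ s z
      rw [show (z : X) = x from rfl] at this
      rw [this]
      exact hSpos s hs
    · intro s hs r hr
      have e1 := hΦ s z
      have e2 := hΦ r z
      rw [show (z : X) = x from rfl] at e1 e2
      rw [e1, e2]
      rw [hSdef, Finset.mem_filter] at hr hs
      simp only [Finset.mem_univ, true_and, not_forall, not_le] at hr hs
      obtain ⟨j, hj⟩ := hr
      exact hj.trans_le (hs j)
    · apply mem_iInter₂.2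
      intro s hs
      have := hV3 s ((hφ s z).2.1 (hSpos s hs))
      exact this

theorem sm_iff_covLT {X : Type} [PseudoMetricSpace X] {Z : Set X} (hZ : IsCompact Z)
    (hZc : IsClosed Z) {n : ℕ} : Sm Z n ↔ CovLT Z n :=
  ⟨fun h => h.covLT hZ, fun h => sm_of_covLT hZ hZc h⟩

theorem sm_univ_iff_covLT {X : Type} [PseudoMetricSpace X] [CompactSpace X] {n : ℕ} :
    Sm (univ : Set X) n ↔ CovLT X n := by
  rw [sm_iff_covLT isCompact_univ isClosed_univ]
  exact covLT_congr (Homeomorph.Set.univ X)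

/-- homeomorphism between the trace in a subspace and the set -/
def traceHomeo {X : Type*} [TopologicalSpace X] {Y F : Set X} (h : F ⊆ Y) :
    (Subtype.val ⁻¹' F : Set Y) ≃ₜ F where
  toFun x := ⟨x.1.1, x.2⟩
  invFun x := ⟨⟨x.1, h x.2⟩, x.2⟩
  left_inv _ := rfl
  right_inv _ := rfl
  continuous_toFun := by fun_prop
  continuous_invFun := by fun_prop

theorem covLT_trace {X : Type*} [TopologicalSpace X] {Y F : Set X} (h : F ⊆ Y) {n : ℕ} :
    CovLT (Subtype.val ⁻¹' F : Set Y) n ↔ CovLT F n := covLT_congr (traceHomeo h)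

end Pool.Agent.Helper52.CM
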