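import Pool.Agent.Helper52.CM.Generic

namespace Pool.Agent.Helper52.CM

open Set TopologicalSpace Topology

/-! Dimension bounds for subsets of the line, the circle and the plane. -/

theorem sm_real (s : Set ℝ) : Sm s 2 := by
  apply Sm.mono_set (subset_univ s)
  intro ε hε
  set δ : ℝ := ε / 2 with hδ
  have hδ0 : 0 < δ := by positivity
  refine ⟨ℤ, fun c k => if c = 0 then Ioo (k * δ) ((k + 1) * δ) else
    Ioo ((k - 1 / 2) * δ) ((k + 1 / 2) * δ), ?_, ?_, ?_, ?_⟩
  · intro c k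
    beta_reduce
    split_ifs <;> exact isOpen_Ioo
  · intro c k l hkl
    rw [disjoint_left]
    intro x hx hy
    beta_reduce at hx hy
    split_ifs at hx hy
    · rcases lt_or_gt_of_ne hkl with h | h
      · have h1 : (k : ℝ) + 1 ≤ l := by exact_mod_cast h
        have := mul_le_mul_of_nonneg_right h1 hδ0.le
        linarith [hx.2, hy.1]
      · have h1 : (l : ℝ) + 1 ≤ k := by exact_mod_cast h
        have := mul_le_mul_of_nonneg_right h1 hδ0.le
        linarith [hy.2, hx.1]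
    · rcases lt_or_gt_of_ne hkl with h | h
      · have h1 : (k : ℝ) + 1 ≤ l := by exact_mod_cast h
        have := mul_le_mul_of_nonneg_right (show (k : ℝ) + 1 / 2 ≤ l - 1 / 2 by linarith) hδ0.le
        linarith [hx.2, hy.1]
      · have h1 : (l : ℝ) + 1 ≤ k := by exact_mod_cast h
        have := mul_le_mul_of_nonneg_right (show (l : ℝ) + 1 / 2 ≤ k - 1 / 2 by linarith) hδ0.le
        linarith [hy.2, hx.1]
  · intro c k x hx y hy
    rw [Real.dist_eq, abs_lt]
    have hx' := hx.2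
    have hy' := hy.2
    beta_reduce at hx' hy'
    split_ifs at hx' hy'
    · constructor <;> nlinarith [hx'.1, hx'.2, hy'.1, hy'.2]
    · constructor <;> nlinarith [hx'.1, hx'.2, hy'.1, hy'.2]
  · intro x _
    set k : ℤ := ⌊x / δ⌋ with hk
    have h1 : (k : ℝ) ≤ x / δ := Int.floor_le _
    have h2 : x / δ < k + 1 := Int.lt_floor_add_one _
    rcases h1.eq_or_lt with h | h
    · refine ⟨1, k, ?_⟩
      simp only [one_ne_zero, if_false]
      have hx : x = k * δ := by rw [h]; field_simp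
      rw [hx]
      constructor <;> nlinarith
    · refine ⟨0, k, ?_⟩
      simp only [if_true]
      rw [lt_div_iff₀ hδ0] at h
      rw [div_lt_iff₀ hδ0] at h2
      exact ⟨h, h2⟩

theorem sm_circle : Sm (Metric.sphere (0 : ℂ) 1) 2 := by
  have hS : IsCompact (Metric.sphere (0 : ℂ) 1) := isCompact_sphere 0 1
  have key : ∀ z ∈ Metric.sphere (0 : ℂ) 1, z.re ^ 2 + z.im ^ 2 = 1 := by
    intro z hz
    rw [mem_sphere_zero_iff_norm] at hz
    have := Complex.sq_norm z
    rw [hz, Complex.normSq_apply] at this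
    nlinarith
  have hU : Sm (Metric.sphere (0 : ℂ) 1 ∩ {z | 0 ≤ z.im}) 2 := by
    apply Sm.of_injOn Complex.continuous_re
      (hS.inter_right (isClosed_le continuous_const Complex.continuous_im)) (mapsTo_univ _ _)
      _ (sm_real univ)
    rintro x ⟨hx, hx'⟩ y ⟨hy, hy'⟩ h
    have e1 := key x hx
    have e2 := key y hy
    simp only [mem_ofPred_eq] at hx' hy'
    rw [h] at e1
    have : x.im = y.im := by nlinarith [sq_nonneg (x.im - y.im), sq_nonneg (x.im + y.im)]
    rw [Complex.ext h this, dist_self]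
  have hL : Sm (Metric.sphere (0 : ℂ) 1 ∩ {z | z.im ≤ 0}) 2 := by
    apply Sm.of_injOn Complex.continuous_re
      (hS.inter_right (isClosed_le Complex.continuous_im continuous_const)) (mapsTo_univ _ _)
      _ (sm_real univ)
    rintro x ⟨hx, hx'⟩ y ⟨hy, hy'⟩ h
    have e1 := key x hx
    have e2 := key y hy
    simp only [mem_ofPred_eq] at hx' hy'
    rw [h] at e1
    have : x.im = y.im := by nlinarith [sq_nonneg (x.im - y.im), sq_nonneg (x.im + y.im)]
    rw [Complex.ext h this, dist_self]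
  have := Sm.union (hS.inter_right (isClosed_le continuous_const Complex.continuous_im))
    (hS.inter_right (isClosed_le Complex.continuous_im continuous_const)) hU hL
  apply this.mono_set
  intro z hz
  rcases le_total 0 z.im with h | h
  · exact Or.inl ⟨hz, h⟩
  · exact Or.inr ⟨hz, h⟩

theorem good_or_bad (t : ℝ) (c : ℕ) : (∃ k : ℤ, (k : ℝ) + c / 3 < t ∧ t < k + 1 + c / 3) ∨
    (∃ k : ℤ, t = k + c / 3) := by
  have h1 : (⌊t - c / 3⌋ : ℝ) ≤ t - c / 3 := Int.floor_le _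
  have h2 : t - c / 3 < ⌊t - c / 3⌋ + 1 := Int.lt_floor_add_one _
  rcases h1.eq_or_lt with h | h
  · right; exact ⟨⌊t - c / 3⌋, by linarith⟩
  · left; exact ⟨⌊t - c / 3⌋, by linarith, by linarith⟩

theorem bad_unique {t : ℝ} {c d : ℕ} (hc : c < 3) (hd : d < 3) {k l : ℤ} (h1 : t = k + c / 3)
    (h2 : t = l + d / 3) : c = d := by
  have : (3 * k + c : ℝ) = 3 * l + d := by linarith
  have h3 : 3 * k + (c : ℤ) = 3 * l + d := by exact_mod_cast this
  omega

theorem exists_common_color (s t : ℝ) : ∃ c : Fin 3,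
    (∃ k : ℤ, (k : ℝ) + (c : ℕ) / 3 < s ∧ s < k + 1 + (c : ℕ) / 3) ∧
    (∃ k : ℤ, (k : ℝ) + (c : ℕ) / 3 < t ∧ t < k + 1 + (c : ℕ) / 3) := by
  by_contra hcon
  push Not at hcon
  have hb : ∀ c : Fin 3, (∃ k : ℤ, s = k + (c : ℕ) / 3) ∨ (∃ k : ℤ, t = k + (c : ℕ) / 3) := by
    intro c
    rcases good_or_bad s c with ⟨k, hk1, hk2⟩ | h
    · rcases good_or_bad t c with ⟨l, hl1, hl2⟩ | h'
      · exact absurd hl2 (not_lt.2 (hcon c ⟨k, hk1, hk2⟩ l hl1))
      · exact Or.inr h'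
    · exact Or.inl h
  have h01 : ((0 : Fin 3) : ℕ) ≠ ((1 : Fin 3) : ℕ) := by decide
  have h02 : ((0 : Fin 3) : ℕ) ≠ ((2 : Fin 3) : ℕ) := by decide
  have h12 : ((1 : Fin 3) : ℕ) ≠ ((2 : Fin 3) : ℕ) := by decide
  rcases hb 0 with ⟨k0, e0⟩ | ⟨k0, e0⟩ <;> rcases hb 1 with ⟨k1, e1⟩ | ⟨k1, e1⟩ <;>
    rcases hb 2 with ⟨k2, e2⟩ | ⟨k2, e2⟩
  all_goals first
    | exact h01 (bad_unique (by decide) (by decide) e0 e1)
    | exact h02 (bad_unique (by decide) (by decide) e0 e2)
    | exact h12 (bad_unique (by decide) (by decide) e1 e2)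

theorem sm_complex (s : Set ℂ) : Sm s 3 := by
  apply Sm.mono_set (subset_univ s)
  intro ε hε
  set δ : ℝ := ε / 4 with hδ
  have hδ0 : 0 < δ := by positivity
  refine ⟨ℤ × ℤ, fun c p => {z | z.re / δ ∈ Ioo ((p.1 : ℝ) + (c : ℕ) / 3) (p.1 + 1 + (c : ℕ) / 3) ∧
    z.im / δ ∈ Ioo ((p.2 : ℝ) + (c : ℕ) / 3) (p.2 + 1 + (c : ℕ) / 3)}, ?_, ?_, ?_, ?_⟩
  · intro c p
    apply IsOpen.inter
    · exact isOpen_Ioo.preimage (by fun_prop : Continuous fun z : ℂ => z.re / δ)
    · exact isOpen_Ioo.preimage (by fun_prop : Continuous fun z : ℂ => z.im / δ)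
  · rintro c ⟨k, l⟩ ⟨k', l'⟩ hne
    rw [disjoint_left]
    rintro z ⟨⟨a1, a2⟩, ⟨a3, a4⟩⟩ ⟨⟨b1, b2⟩, ⟨b3, b4⟩⟩
    simp only at a1 a2 a3 a4 b1 b2 b3 b4
    apply hne
    have e1 : (k : ℝ) < k' + 1 := by linarith
    have e2 : (k' : ℝ) < k + 1 := by linarith
    have e3 : (l : ℝ) < l' + 1 := by linarith
    have e4 : (l' : ℝ) < l + 1 := by linarith
    have f1 : k < k' + 1 := by exact_mod_cast e1
    have f2 : k' < k + 1 := by exact_mod_cast e2
    have f3 : l < l' + 1 := by exact_mod_cast e3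
    have f4 : l' < l + 1 := by exact_mod_cast e4
    rw [show k = k' by omega, show l = l' by omega]
  · rintro c ⟨k, l⟩ x ⟨-, ⟨⟨a1, a2⟩, ⟨a3, a4⟩⟩⟩ y ⟨-, ⟨⟨b1, b2⟩, ⟨b3, b4⟩⟩⟩
    simp only at a1 a2 a3 a4 b1 b2 b3 b4
    rw [dist_eq_norm]
    refine (Complex.norm_le_abs_re_add_abs_im _).trans_lt ?_
    have e1 : |(x - y).re| < δ := by
      rw [Complex.sub_re, abs_lt]
      have : x.re / δ - y.re / δ < 1 := by linarith
      have h' : -1 < x.re / δ - y.re / δ := by linarith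
      rw [← sub_div] at this h'
      rw [div_lt_iff₀ hδ0] at this
      rw [lt_div_iff₀ hδ0] at h'
      constructor <;> linarith
    have e2 : |(x - y).im| < δ := by
      rw [Complex.sub_im, abs_lt]
      have : x.im / δ - y.im / δ < 1 := by linarith
      have h' : -1 < x.im / δ - y.im / δ := by linarith
      rw [← sub_div] at this h'
      rw [div_lt_iff₀ hδ0] at this
      rw [lt_div_iff₀ hδ0] at h'
      constructor <;> linarith
    linarith
  · intro z _
    obtain ⟨c, ⟨k, hk1, hk2⟩, ⟨l, hl1, hl2⟩⟩ := exists_common_color (z.re / δ) (z.im / δ)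
    exact ⟨c, (k, l), ⟨hk1, hk2⟩, ⟨hl1, hl2⟩⟩

theorem Sm.subtype {X : Type} [PseudoMetricSpace X] {Z : Set X} {n : ℕ} (H : Sm Z n) :
    Sm (univ : Set Z) n := fun ε hε =>
  (H ε hε).pullback (g := (Subtype.val : Z → X)) continuous_subtype_val (fun x _ => x.2)
    (fun _ _ _ _ h => h)

theorem Sm.image_val {X : Type} [MetricSpace X] {Y : Set X} (hY : IsCompact Y) {Z : Set Y}
    (hZ : IsClosed Z) {n : ℕ} (H : Sm Z n) : Sm (Subtype.val '' Z : Set X) n := by
  have : CompactSpace Y := isCompact_iff_compactSpace.1 hY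
  have h1 : IsClosed (Subtype.val '' Z : Set X) :=
    (hY.isClosed.isClosedEmbedding_subtypeVal.isClosedMap _ hZ)
  have h2 : (Subtype.val '' Z : Set X) ⊆ Y := by rintro _ ⟨y, -, rfl⟩; exact y.2
  rw [sm_iff_covLT (hY.of_isClosed_subset h1 h2) h1, ← covLT_trace h2,
    preimage_image_eq _ Subtype.val_injective]
  exact H.covLT hZ.isCompact

end Pool.Agent.Helper52.CM
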