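import Pool.Agent.Helper52.CM.ProdDim

namespace Pool.Agent.Helper52.CM

open Set TopologicalSpace Topology

theorem finite_quadratic {A B C : ℝ} (hC : C ≠ 0) : {s : ℝ | C * s ^ 2 + B * s + A = 0}.Finite := by
  rcases {s : ℝ | C * s ^ 2 + B * s + A = 0}.eq_empty_or_nonempty with h | ⟨s0, hs0⟩
  · rw [h]; exact finite_empty
  · apply (toFinite ({s0, -B / C - s0} : Set ℝ)).subset
    intro s hs
    simp only [mem_ofPred_eq] at hs hs0
    have h1 : (s - s0) * (C * (s + s0) + B) = 0 := by linear_combination hs - hs0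
    rcases mul_eq_zero.1 h1 with h2 | h2
    · left; linarith
    · right
      rw [mem_singleton_iff]
      field_simp
      linarith

/-- generic values: pairwise real-linearly independent -/
theorem exists_generic_values {t : Type} [Fintype t] (b : t → ℂ) {η : ℝ} (hη : 0 < η) :
    ∃ a : t → ℂ, (∀ i, ‖a i - b i‖ < η) ∧
      ∀ i j, i ≠ j → (a i * starRingEnd ℂ (a j)).im ≠ 0 := by
  classical
  let n : t → ℕ := fun i => (Fintype.equivFin t i : ℕ)
  have hn : ∀ i j, i ≠ j → n i ≠ n j := by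
    intro i j hij h
    exact hij ((Fintype.equivFin t).injective (Fin.ext h))
  let c : t → ℂ := fun i => 1 + (n i : ℂ) * Complex.I
  have hbad : ∀ i j, i ≠ j →
      {s : ℝ | ((b i + s * c i) * starRingEnd ℂ (b j + s * c j)).im = 0}.Finite := by
    intro i j hij
    have hC : ((n i : ℝ) - n j) ≠ 0 := by
      rw [sub_ne_zero]
      exact_mod_cast hn i j hij
    refine (finite_quadratic (A := (b i).im * (b j).re - (b i).re * (b j).im)
      (B := (b i).im + (n i : ℝ) * (b j).re - (b i).re * (n j : ℝ) - (b j).im) hC).subset ?_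
    intro s hs
    simp only [mem_ofPred_eq, c] at hs ⊢
    simp only [Complex.mul_im, Complex.add_re, Complex.add_im, Complex.mul_re, Complex.ofReal_re,
      Complex.ofReal_im, Complex.one_re, Complex.one_im, Complex.natCast_re, Complex.natCast_im,
      Complex.I_re, Complex.I_im, Complex.conj_re, Complex.conj_im] at hs
    linear_combination hs
  have hfin : (⋃ p : t × t, if p.1 = p.2 then (∅ : Set ℝ) else
      {s : ℝ | ((b p.1 + s * c p.1) * starRingEnd ℂ (b p.2 + s * c p.2)).im = 0}).Finite := by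
    apply finite_iUnion
    intro p
    split_ifs with h
    · exact finite_empty
    · exact hbad _ _ h
  set C0 : ℝ := 1 + ∑ i, ‖c i‖ with hC0
  have hC0pos : 0 < C0 := by
    have : 0 ≤ ∑ i, ‖c i‖ := Finset.sum_nonneg fun i _ => norm_nonneg _
    linarith
  have hinf : (Ioo (0 : ℝ) (η / C0)).Infinite := Ioo_infinite (div_pos hη hC0pos)
  obtain ⟨s, hs, hsn⟩ := (hinf.sdiff hfin).nonempty
  refine ⟨fun i => b i + s * c i, ?_, ?_⟩
  · intro i
    rw [add_sub_cancel_left, norm_mul, Complex.norm_real, Real.norm_eq_abs, abs_of_pos hs.1]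
    have h1 : ‖c i‖ ≤ ∑ i, ‖c i‖ :=
      Finset.single_le_sum (f := fun i => ‖c i‖) (fun i _ => norm_nonneg _) (Finset.mem_univ i)
    have h2 : ‖c i‖ < C0 := by linarith
    calc s * ‖c i‖ ≤ s * C0 := mul_le_mul_of_nonneg_left h2.le hs.1.le
      _ < η := (lt_div_iff₀ hC0pos).1 hs.2
  · intro i j hij h
    apply hsn
    refine mem_iUnion.2 ⟨(i, j), ?_⟩
    simp only [hij, if_false]
    exact h

/-- perturbation with few zeros -/
theorem exists_perturb {X : Type} [MetricSpace X] [CompactSpace X] {k : ℕ} {ι : Type}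
    {U : Fin k → ι → Set X} (h1 : ∀ c i, IsOpen (U c i))
    (h2 : ∀ c i j, i ≠ j → Disjoint (U c i) (U c j)) (h4 : ∀ x, ∃ c i, x ∈ U c i)
    {f : X → ℂ} {η : ℝ} (hη : 0 < η)
    (hf : ∀ c i, ∀ x ∈ U c i, ∀ y ∈ U c i, ‖f x - f y‖ < η) :
    ∃ g : X → ℂ, Continuous g ∧ (∀ x, ‖g x - f x‖ < 2 * η) ∧
      ∀ x, g x = 0 → ∃ c1 c2 c3 : Fin k, c1 ≠ c2 ∧ c1 ≠ c3 ∧ c2 ≠ c3 ∧ (∃ i, x ∈ U c1 i) ∧
        (∃ i, x ∈ U c2 i) ∧ (∃ i, x ∈ U c3 i) := by
  classical
  obtain ⟨t, ht⟩ := (isCompact_univ (X := X)).elim_finite_subcover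
    (fun p : Fin k × ι => U p.1 p.2) (fun p => h1 p.1 p.2) (by
      intro x _
      obtain ⟨c, i, hi⟩ := h4 x
      exact mem_iUnion.2 ⟨(c, i), hi⟩)
  choose φ hφ1 hφ2 hφ3 using fun p : t => exists_pos_fun (h1 p.1.1 p.1.2)
  have hb : ∀ p : t, ∃ b : ℂ, ∀ x ∈ U p.1.1 p.1.2, ‖b - f x‖ < η := by
    intro p
    rcases (U p.1.1 p.1.2).eq_empty_or_nonempty with he | ⟨y, hy⟩
    · exact ⟨0, by rw [he]; simp⟩
    · exact ⟨f y, fun x hx => hf _ _ y hy x hx⟩
  choose b hb using hb
  obtain ⟨a, ha1, ha2⟩ := exists_generic_values (t := Option t)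
    (fun o => match o with | none => 0 | some p => b p) hη
  set S : X → ℝ := fun x => ∑ p, φ p x with hS
  have hSpos : ∀ x, 0 < S x := by
    intro x
    have := ht (mem_univ x)
    simp only [mem_iUnion] at this
    obtain ⟨p, hp, hx⟩ := this
    apply Finset.sum_pos' (fun p _ => hφ2 p x)
    exact ⟨⟨p, hp⟩, Finset.mem_univ _, (hφ3 _ _).2 hx⟩
  have hSc : Continuous S := continuous_finsetSum _ fun p _ => hφ1 p
  set g : X → ℂ := fun x => (∑ p : t, (φ p x : ℂ) * a (some p)) / (S x : ℂ) with hg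
  refine ⟨g, ?_, ?_, ?_⟩
  · apply Continuous.div
    · exact continuous_finsetSum _ fun p _ =>
        (Complex.continuous_ofReal.comp (hφ1 p)).mul continuous_const
    · exact Complex.continuous_ofReal.comp hSc
    · intro x
      exact_mod_cast (hSpos x).ne'
  · intro x
    have hS0 : (S x : ℂ) ≠ 0 := by exact_mod_cast (hSpos x).ne'
    have e1 : g x - f x = (∑ p : t, (φ p x : ℂ) * (a (some p) - f x)) / (S x : ℂ) := by
      simp only [hg]
      rw [eq_div_iff hS0, sub_mul, div_mul_cancel₀ _ hS0]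
      simp only [mul_sub, Finset.sum_sub_distrib, ← Finset.sum_mul]
      rw [hS]
      push_cast
      ring
    rw [e1, norm_div, Complex.norm_real, Real.norm_eq_abs, abs_of_pos (hSpos x),
      div_lt_iff₀ (hSpos x)]
    have hle : ‖∑ p : t, (φ p x : ℂ) * (a (some p) - f x)‖ ≤
        ∑ p : t, φ p x * ‖a (some p) - f x‖ := by
      refine (norm_sum_le _ _).trans (Finset.sum_le_sum fun p _ => ?_)
      rw [norm_mul, Complex.norm_real, Real.norm_eq_abs, abs_of_nonneg (hφ2 p x)]
    have hterm : ∀ p : t, φ p x * ‖a (some p) - f x‖ ≤ φ p x * (2 * η) := by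
      intro p
      rcases (hφ2 p x).eq_or_lt with h0 | h0
      · rw [← h0]; simp
      · have hx := (hφ3 p x).1 h0
        have e2 := ha1 (some p)
        have e3 := hb p x hx
        simp only at e2
        have : ‖a (some p) - f x‖ ≤ ‖a (some p) - b p‖ + ‖b p - f x‖ := by
          have := norm_add_le (a (some p) - b p) (b p - f x)
          simpa using this
        exact mul_le_mul_of_nonneg_left (by linarith) h0.le
    have hstrict : ∑ p : t, φ p x * ‖a (some p) - f x‖ < ∑ p : t, φ p x * (2 * η) := by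
      apply Finset.sum_lt_sum (fun p _ => hterm p)
      have := ht (mem_univ x)
      simp only [mem_iUnion] at this
      obtain ⟨p, hp, hx⟩ := this
      refine ⟨⟨p, hp⟩, Finset.mem_univ _, ?_⟩
      have h0 := (hφ3 ⟨p, hp⟩ x).2 hx
      have e2 := ha1 (some ⟨p, hp⟩)
      have e3 := hb ⟨p, hp⟩ x hx
      simp only at e2
      have : ‖a (some ⟨p, hp⟩) - f x‖ ≤ ‖a (some ⟨p, hp⟩) - b ⟨p, hp⟩‖ + ‖b ⟨p, hp⟩ - f x‖ := by
        have := norm_add_le (a (some ⟨p, hp⟩) - b ⟨p, hp⟩) (b ⟨p, hp⟩ - f x)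
        simpa using this
      exact mul_lt_mul_of_pos_left (by linarith) h0
    have hfin : ∑ p : t, φ p x * (2 * η) = 2 * η * S x := by
      rw [← Finset.sum_mul, mul_comm]
    linarith
  · intro x hx
    have hS0 : (S x : ℂ) ≠ 0 := by exact_mod_cast (hSpos x).ne'
    have h0 : ∑ p : t, (φ p x : ℂ) * a (some p) = 0 := by
      simp only [hg] at hx
      exact (div_eq_zero_iff.1 hx).resolve_right hS0
    set T : Finset t := Finset.univ.filter (fun p => 0 < φ p x) with hT
    have hsumT : ∑ p ∈ T, (φ p x : ℂ) * a (some p) = 0 := by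
      rw [← h0]
      apply Finset.sum_subset (Finset.subset_univ _)
      intro p _ hp
      simp only [hT, Finset.mem_filter, Finset.mem_univ, true_and, not_lt] at hp
      have : φ p x = 0 := le_antisymm hp (hφ2 p x)
      rw [this]; simp
    have hTmem : ∀ p ∈ T, x ∈ U p.1.1 p.1.2 := by
      intro p hp
      simp only [hT, Finset.mem_filter, Finset.mem_univ, true_and] at hp
      exact (hφ3 p x).1 hp
    have hTne : T.Nonempty := by
      have := ht (mem_univ x)
      simp only [mem_iUnion] at this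
      obtain ⟨p, hp, hxp⟩ := this
      exact ⟨⟨p, hp⟩, by
        simp only [hT, Finset.mem_filter, Finset.mem_univ, true_and]; exact (hφ3 _ _).2 hxp⟩
    have hcard : 2 < T.card := by
      by_contra hcon
      push Not at hcon
      have hpos := Finset.card_pos.2 hTne
      rcases (by omega : T.card = 1 ∨ T.card = 2) with hc | hc
      · obtain ⟨p, hp⟩ := Finset.card_eq_one.1 hc
        rw [hp, Finset.sum_singleton] at hsumT
        have hφp : 0 < φ p x := by
          have : p ∈ T := by rw [hp]; simp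
          simpa [hT] using this
        have hap : a (some p) = 0 := (mul_eq_zero.1 hsumT).resolve_left
          (by exact_mod_cast hφp.ne')
        have := ha2 (some p) none (by simp)
        rw [hap] at this
        simp at this
      · obtain ⟨p, q, hpq, hp⟩ := Finset.card_eq_two.1 hc
        rw [hp, Finset.sum_pair hpq] at hsumT
        have hφp : 0 < φ p x := by
          have : p ∈ T := by rw [hp]; simp
          simpa [hT] using this
        have e := congrArg (fun w : ℂ => (w * starRingEnd ℂ (a (some q))).im) hsumT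
        simp only [add_mul, Complex.add_im, zero_mul, Complex.zero_im] at e
        have e2 : ((φ q x : ℂ) * a (some q) * starRingEnd ℂ (a (some q))).im = 0 := by
          rw [mul_assoc, Complex.mul_conj, ← Complex.ofReal_mul, Complex.ofReal_im]
        rw [e2, add_zero, mul_assoc, Complex.im_ofReal_mul] at e
        exact ha2 (some p) (some q) (by simpa using hpq)
          ((mul_eq_zero.1 e).resolve_left hφp.ne')
    obtain ⟨p, hp, q, hq, r, hr, hpq, hpr, hqr⟩ := Finset.two_lt_card.1 hcard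
    have hcol : ∀ p ∈ T, ∀ q ∈ T, p ≠ q → p.1.1 ≠ q.1.1 := by
      intro p hp q hq hpq h
      apply hpq
      apply Subtype.ext
      apply Prod.ext h
      by_contra hne
      have hd := h2 p.1.1 p.1.2 q.1.2 hne
      have hxq := hTmem q hq
      rw [← h] at hxq
      exact disjoint_left.1 hd (hTmem p hp) hxq
    exact ⟨p.1.1, q.1.1, r.1.1, hcol p hp q hq hpq, hcol p hp r hr hpr, hcol q hq r hr hqr,
      ⟨_, hTmem p hp⟩, ⟨_, hTmem q hq⟩, ⟨_, hTmem r hr⟩⟩

/-- one family of small pairwise disjoint open sets covering `Z` -/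
def StrongFam {X : Type} [PseudoMetricSpace X] (Z : Set X) (ε : ℝ) : Prop :=
  ∃ (ι : Type) (U : ι → Set X), (∀ i, IsOpen (U i)) ∧ (∀ i j, i ≠ j → Disjoint (U i) (U j)) ∧
    (∀ i, ∀ x ∈ U i, ∀ y ∈ U i, dist x y < ε) ∧ Z ⊆ ⋃ i, U i

theorem isOpen_strong {X : Type} [MetricSpace X] [CompactSpace X] (ε : ℝ) :
    IsOpen {f : C(X, ℂ) | StrongFam {x | f x = 0} ε} := by
  rw [Metric.isOpen_iff]
  rintro f ⟨ι, U, h1, h2, h3, h4⟩
  have hK : IsCompact (⋃ i, U i)ᶜ := (isOpen_iUnion h1).isClosed_compl.isCompact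
  rcases ((⋃ i, U i)ᶜ).eq_empty_or_nonempty with he | hne
  · refine ⟨1, one_pos, fun g _ => ⟨ι, U, h1, h2, h3, ?_⟩⟩
    rw [compl_empty_iff.1 he]
    exact subset_univ _
  · obtain ⟨x0, hx0, hmin⟩ := hK.exists_isMinOn hne (f := fun x => ‖f x‖) (by fun_prop)
    have hpos : 0 < ‖f x0‖ := by
      rw [norm_pos_iff]
      intro h
      exact hx0 (h4 h)
    refine ⟨‖f x0‖, hpos, fun g hg => ⟨ι, U, h1, h2, h3, ?_⟩⟩
    intro x hx
    by_contra hcon
    have e1 : ‖f x0‖ ≤ ‖f x‖ := hmin hcon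
    have e2 : dist (g x) (f x) ≤ dist g f := ContinuousMap.dist_apply_le_dist x
    rw [Metric.mem_ball] at hg
    have hx' : g x = 0 := hx
    rw [hx', dist_zero_left] at e2
    linarith

theorem dense_strong {X : Type} [MetricSpace X] [CompactSpace X] (hX : Sm (univ : Set X) 3)
    {ε : ℝ} (hε : 0 < ε) : Dense {f : C(X, ℂ) | StrongFam {x | f x = 0} ε} := by
  rw [Metric.dense_iff]
  intro f r hr
  obtain ⟨δ, hδ, hf⟩ := Metric.uniformContinuous_iff.1
    (CompactSpace.uniformContinuous_of_continuous f.continuous) (r / 4) (by positivity)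
  obtain ⟨ι, U, h1, h2, h3, h4⟩ := hX (min δ ε) (lt_min hδ hε)
  obtain ⟨g, hg1, hg2, hg3⟩ := exists_perturb (U := U) h1 h2 (fun x => h4 x (mem_univ x))
    (f := f) (η := r / 4) (by positivity) (by
      intro c i x hx y hy
      rw [← dist_eq_norm]
      exact hf ((h3 c i x ⟨mem_univ _, hx⟩ y ⟨mem_univ _, hy⟩).trans_le (min_le_left _ _)))
  refine ⟨⟨g, hg1⟩, ?_, ?_⟩
  · rw [Metric.mem_ball]
    refine lt_of_le_of_lt ((ContinuousMap.dist_le (C := r / 2) (by positivity)).2 ?_)
      (half_lt_self hr)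
    intro x
    rw [dist_eq_norm]
    have := hg2 x
    simp only [ContinuousMap.coe_mk]
    linarith
  · refine ⟨ι, U 0, h1 0, h2 0, fun i x hx y hy =>
      (h3 0 i x ⟨mem_univ _, hx⟩ y ⟨mem_univ _, hy⟩).trans_le (min_le_right _ _), ?_⟩
    intro x hx
    obtain ⟨c1, c2, c3, n12, n13, n23, k1, k2, k3⟩ := hg3 x hx
    have : c1 = 0 ∨ c2 = 0 ∨ c3 = 0 := by omega
    rcases this with rfl | rfl | rfl
    · obtain ⟨i, hi⟩ := k1; exact mem_iUnion.2 ⟨i, hi⟩
    · obtain ⟨i, hi⟩ := k2; exact mem_iUnion.2 ⟨i, hi⟩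
    · obtain ⟨i, hi⟩ := k3; exact mem_iUnion.2 ⟨i, hi⟩

theorem isOpen_nonvanishing {X : Type} [MetricSpace X] [CompactSpace X] {D : Set X}
    (hD : IsClosed D) : IsOpen {f : C(X, ℂ) | ∀ x ∈ D, f x ≠ 0} := by
  rw [Metric.isOpen_iff]
  intro f hf
  rcases D.eq_empty_or_nonempty with he | hne
  · exact ⟨1, one_pos, fun g _ x hx => by rw [he] at hx; exact absurd hx (notMem_empty _)⟩
  · obtain ⟨x0, hx0, hmin⟩ := hD.isCompact.exists_isMinOn hne (f := fun x => ‖f x‖) (by fun_prop)
    have hpos : 0 < ‖f x0‖ := by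
      rw [norm_pos_iff]
      exact hf x0 hx0
    refine ⟨‖f x0‖, hpos, fun g hg x hx hgx => ?_⟩
    have e1 : ‖f x0‖ ≤ ‖f x‖ := hmin hx
    have e2 : dist (g x) (f x) ≤ dist g f := ContinuousMap.dist_apply_le_dist x
    rw [Metric.mem_ball] at hg
    rw [hgx, dist_zero_left] at e2
    linarith

theorem norm_smul_trc_le {r : ℝ} (hr : 0 < r) (z : ℂ) : ‖(r : ℂ) * trc r z‖ ≤ r := by
  rw [norm_mul, Complex.norm_real, Real.norm_eq_abs, abs_of_pos hr]
  have := trc_norm_le hr z
  nlinarith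

theorem smul_trc_eq {r : ℝ} (hr : 0 < r) {z : ℂ} (hz : ‖z‖ ≤ r) : (r : ℂ) * trc r z = z := by
  unfold trc
  rw [max_eq_left hz]
  have : (r : ℂ) ≠ 0 := by exact_mod_cast hr.ne'
  field_simp

theorem dense_nonvanishing {X : Type} [MetricSpace X] [CompactSpace X] {D : Set X}
    (hD : IsClosed D) (hD2 : Sm D 2) : Dense {f : C(X, ℂ) | ∀ x ∈ D, f x ≠ 0} := by
  rw [Metric.dense_iff]
  intro f r hr
  have : CompactSpace D := isCompact_iff_compactSpace.1 hD.isCompact
  obtain ⟨δ, hδ, hf⟩ := Metric.uniformContinuous_iff.1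
    (CompactSpace.uniformContinuous_of_continuous f.continuous) (r / 4) (by positivity)
  obtain ⟨ι, U, h1, h2, h3, h4⟩ := hD2 δ hδ
  obtain ⟨g, hg1, hg2, hg3⟩ := exists_perturb (X := D) (k := 2)
    (U := fun c i => (Subtype.val ⁻¹' U c i : Set D))
    (fun c i => (h1 c i).preimage continuous_subtype_val)
    (fun c i j hij => (h2 c i j hij).preimage _) (fun x => h4 x x.2)
    (f := fun x : D => f x) (η := r / 4) (by positivity) (by
      intro c i x hx y hy
      rw [← dist_eq_norm]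
      exact hf (h3 c i x ⟨x.2, hx⟩ y ⟨y.2, hy⟩))
  obtain ⟨h, hh⟩ := ContinuousMap.exists_restrict_eq hD
    (⟨fun x : D => g x - f x, by fun_prop⟩ : C(D, ℂ))
  have hh' : ∀ x : D, h x = g x - f x := fun x => by
    have := congrArg (fun F : C(D, ℂ) => F x) hh
    simpa using this
  have hr2 : 0 < r / 2 := half_pos hr
  refine ⟨⟨fun x => f x + ((r / 2 : ℝ) : ℂ) * trc (r / 2) (h x), ?_⟩, ?_, ?_⟩
  · exact f.continuous.add (continuous_const.mul ((continuous_trc hr2).comp h.continuous))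
  · rw [Metric.mem_ball]
    refine lt_of_le_of_lt ((ContinuousMap.dist_le (C := r / 2) hr2.le).2 ?_)
      (half_lt_self hr)
    intro x
    rw [dist_eq_norm]
    simp only [ContinuousMap.coe_mk, add_sub_cancel_left]
    exact norm_smul_trc_le hr2 _
  · intro x hx
    simp only [ContinuousMap.coe_mk]
    have e1 : h x = g ⟨x, hx⟩ - f x := hh' ⟨x, hx⟩
    have e2 : ‖g ⟨x, hx⟩ - f x‖ ≤ r / 2 := by
      have := hg2 ⟨x, hx⟩
      simp only at this
      linarith
    rw [smul_trc_eq hr2 (by rw [e1]; exact e2), e1, add_sub_cancel]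
    intro hgx
    obtain ⟨c1, c2, c3, n12, n13, n23, -, -, -⟩ := hg3 _ hgx
    omega

/-- generic functions -/
theorem exists_generic {X : Type} [MetricSpace X] [CompactSpace X] (hX : Sm (univ : Set X) 3)
    {D : Set X} (hD : IsClosed D) (hD2 : Sm D 2) (h : C(X, ℂ)) {ε : ℝ} (hε : 0 < ε) :
    ∃ f : C(X, ℂ), (∀ x, ‖f x - h x‖ < ε) ∧ (∀ x ∈ D, f x ≠ 0) ∧ Sm {x | f x = 0} 1 := by
  have hdense : Dense (⋂ o : Option ℕ, match o with
      | none => {f : C(X, ℂ) | ∀ x ∈ D, f x ≠ 0}
      | some n => {f : C(X, ℂ) | StrongFam {x | f x = 0} (1 / ((n : ℝ) + 1))}) := by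
    apply dense_iInter_of_isOpen
    · rintro (_ | n)
      · exact isOpen_nonvanishing hD
      · exact isOpen_strong _
    · rintro (_ | n)
      · exact dense_nonvanishing hD hD2
      · exact dense_strong hX (by positivity)
  obtain ⟨f, hf1, hf2⟩ := Metric.dense_iff.1 hdense h ε hε
  have hf3 := mem_iInter.1 hf2
  refine ⟨f, ?_, hf3 none, ?_⟩
  · intro x
    rw [← dist_eq_norm]
    exact (ContinuousMap.dist_apply_le_dist x).trans_lt hf1
  · intro η hη
    obtain ⟨n, hn⟩ := exists_nat_one_div_lt hη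
    obtain ⟨ι, U, h1, h2, h3, h4⟩ := hf3 (some n)
    refine ⟨ι, fun _ => U, fun _ => h1, fun _ => h2,
      fun _ i x hx y hy => (h3 i x hx.2 y hy.2).trans hn, fun x hx => ⟨0, ?_⟩⟩
    exact mem_iUnion.1 (h4 hx)

end Pool.Agent.Helper52.CM
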