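import Pool.Agent.Helper52.CM.Minimal

namespace Pool.Agent.Helper52.CM

open Set TopologicalSpace Topology

theorem ph_of_norm {z : ℂ} (h : ‖z‖ = 1) : ph z = z := by
  unfold ph
  rw [h]
  simp

theorem exists_minPair {Z : Type*} [TopologicalSpace Z] [T2Space Z] [NormalSpace Z] {K D : Set Z}
    (hK : IsCompact K) (hD : IsClosed D) (hDK : D ⊆ K) {c : Z → ℂ} (hc : ContinuousOn c D)
    (hn : ∀ y ∈ D, ‖c y‖ = 1) (hi : InjOn c D) (hno : ¬ ExtOver c D K) :
    ∃ P, P ⊆ K ∧ MinPair c D P := by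
  set S : Set (Set Z) := {P | IsClosed P ∧ D ⊆ P ∧ P ⊆ K ∧ ¬ ExtOver c D P} with hS
  obtain ⟨m, hmK, hm⟩ := zorn_superset_nonempty S (by
    intro 𝒞 h𝒞 hchain hne
    have hcl : ∀ P ∈ 𝒞, IsClosed P := fun P hP => (h𝒞 hP).1
    refine ⟨⋂₀ 𝒞, ⟨isClosed_sInter hcl, subset_sInter fun P hP => (h𝒞 hP).2.1, ?_, ?_⟩,
      fun s hs => sInter_subset_of_mem hs⟩
    · obtain ⟨P, hP⟩ := hne
      exact (sInter_subset_of_mem hP).trans (h𝒞 hP).2.2.1
    · rintro ⟨g, hgc, hgn, hgD⟩
      obtain ⟨G, hG⟩ := tietze_on (isClosed_sInter hcl) hgc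
      have hDsub : D ⊆ ⋂₀ 𝒞 := subset_sInter fun P hP => (h𝒞 hP).2.1
      have hV : IsOpen {y | G y ≠ 0} := isOpen_ne_fun G.continuous continuous_const
      have : Nonempty 𝒞 := hne.to_subtype
      obtain ⟨i, hi⟩ := exists_subset_nhds_of_isCompact' (V := fun P : 𝒞 => P.1)
        (by
          intro a b
          rcases hchain.total a.2 b.2 with h | h
          · exact ⟨a, subset_rfl, h⟩
          · exact ⟨b, h, subset_rfl⟩)
        (fun P => hK.of_isClosed_subset (hcl P.1 P.2) (h𝒞 P.2).2.2.1) (fun P => hcl P.1 P.2)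
        (U := {y | G y ≠ 0}) (by
          intro x hx
          apply hV.mem_nhds
          have hx' : x ∈ ⋂₀ 𝒞 := by
            intro P hP
            exact mem_iInter.1 hx ⟨P, hP⟩
          simp only [mem_ofPred_eq]
          rw [hG x hx']
          intro h0
          have := hgn x hx'
          rw [h0, norm_zero] at this
          exact zero_ne_one this)
      apply (h𝒞 i.2).2.2.2
      refine ⟨fun y => ph (G y), ?_, ?_, ?_⟩
      · intro y hy
        exact ((continuousAt_ph (hi hy)).comp G.continuous.continuousAt).continuousWithinAt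
      · intro y hy
        exact norm_ph (hi hy)
      · intro y hy
        show ph (G y) = c y
        rw [hG y (hDsub hy), hgD y hy, ph_of_norm (hn y hy)]) K ⟨hK.isClosed, hDK, subset_rfl, hno⟩
  have hmS := hm.prop
  refine ⟨m, hmK, ⟨hD, hmS.1, hmS.2.1, hc, hn, hi, hmS.2.2.2, ?_⟩⟩
  intro P' h1 h2 h3 h4
  by_contra hcon
  exact h4 (hm.le_of_le ⟨h1, h2, h3.trans hmK, hcon⟩ h3)

/-- boundary curve of the limit -/
def BB (p : ℕ) : Set HS := XX p ∩ {y | ‖y 0‖ = 1}

theorem isClosed_BB (p : ℕ) : IsClosed (BB p) :=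
  (isClosed_XX p).inter (isClosed_eq (continuous_coord 0).norm continuous_const)

theorem isCompact_BB (p : ℕ) : IsCompact (BB p) :=
  (isCompact_XX p).of_isClosed_subset (isClosed_BB p) inter_subset_left

theorem BB_inj (p : ℕ) : InjOn (fun y : HS => y 0) (BB p) := by
  intro y hy y' hy' h
  have key : ∀ j, ret j y = ret j y' := by
    intro j
    apply (YY_stage p j).inj _ (hy.1.2 j) _ (hy'.1.2 j)
    · rw [ret_apply, if_pos (Nat.zero_le _)]; exact hy.2
    · rw [ret_apply, ret_apply, if_pos (Nat.zero_le _), if_pos (Nat.zero_le _)]; exact h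
  funext j
  have := congrFun (key j) j
  simpa only [ret_apply, le_refl, if_true] using this

theorem BB_surj (p : ℕ) (u : ℂ) (hu : ‖u‖ = 1) : ∃ y ∈ BB p, y 0 = u := by
  have h := fun j => (YY_stage p j).surj u hu
  choose y hy hyu using h
  have hret : ∀ i j, i ≤ j → ret i (y j) = y i := by
    intro i j hij
    apply (YY_stage p i).inj _ (ret_mem_YY hij _ (hy j)) _ (hy i)
    · rw [ret_apply, if_pos (Nat.zero_le _), hyu j, hu]
    · rw [ret_apply, if_pos (Nat.zero_le _), hyu j, hyu i]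
  set z : HS := fun i => y i i with hz
  have hzr : ∀ j, ret j z = y j := by
    intro j
    funext i
    rw [ret_apply]
    split_ifs with hi
    · have h1 := congrFun (hret i j hi) i
      rw [ret_apply, if_pos le_rfl] at h1
      exact h1.symm
    · exact ((YY_stage p j).tail _ (hy j) i (by omega)).symm
  have hz0 : z 0 = u := hyu 0
  refine ⟨z, ⟨⟨⟨?_, ?_⟩, ?_⟩, ?_⟩, hz0⟩
  · rw [hz0, hu]
  · intro i
    exact ((YY_stage p (i + 1)).sub (hy (i + 1))).2 i
  · intro j
    rw [hzr j]
    exact hy j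
  · show ‖z 0‖ = 1
    rw [hz0, hu]

theorem exists_minimal {p : ℕ} (hp : 1 < p) :
    ∃ P, P ⊆ XX p ∧ MinPair (fun y : HS => y 0) (BB p) P := by
  apply exists_minPair (isCompact_XX p) (isClosed_BB p) inter_subset_left
    (continuous_coord 0).continuousOn (fun y hy => hy.2) (BB_inj p)
  rintro ⟨g, hgc, hgn, hgD⟩
  apply not_extends hp
  have hc : Continuous fun y : XX p => g y.1 := continuousOn_iff_continuous_domRestrict.1 hgc
  refine ⟨toCircle (fun y : XX p => g y.1) hc (fun y => hgn y.1 y.2), ?_⟩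
  intro y hy
  rw [coe_toCircle]
  exact hgD y.1 ⟨y.2, hy⟩

/-- continuous parametrisation of the boundary curve -/
theorem exists_param (p : ℕ) : ∃ b : ℝ → HS, Continuous b ∧ ∀ s, b s ∈ BB p ∧
    b s 0 = Complex.exp (s * Complex.I) := by
  have : CompactSpace (BB p) := isCompact_iff_compactSpace.1 (isCompact_BB p)
  let f : BB p → Metric.sphere (0 : ℂ) 1 := fun y => ⟨y.1 0, by
    rw [mem_sphere_zero_iff_norm]; exact y.2.2⟩
  have hf : Continuous f := by
    apply Continuous.subtype_mk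
    exact (continuous_coord 0).comp continuous_subtype_val
  have hb : Function.Bijective f := by
    constructor
    · intro x y hxy
      apply Subtype.ext
      exact BB_inj p x.2 y.2 (congrArg Subtype.val hxy)
    · rintro ⟨u, hu⟩
      rw [mem_sphere_zero_iff_norm] at hu
      obtain ⟨y, hy, hyu⟩ := BB_surj p u hu
      exact ⟨⟨y, hy⟩, Subtype.ext hyu⟩
  let e := Continuous.homeoOfEquivCompactToT2 (f := Equiv.ofBijective f hb) hf
  have hex : ∀ s : ℝ, Complex.exp (s * Complex.I) ∈ Metric.sphere (0 : ℂ) 1 := fun s => by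
    rw [mem_sphere_zero_iff_norm, Complex.norm_exp_ofReal_mul_I]
  have hcont : Continuous fun s : ℝ => (⟨Complex.exp (s * Complex.I), hex s⟩ :
      Metric.sphere (0 : ℂ) 1) := by
    apply Continuous.subtype_mk
    fun_prop
  refine ⟨fun s => (e.symm ⟨Complex.exp (s * Complex.I), hex s⟩).1,
    continuous_subtype_val.comp (e.symm.continuous.comp hcont), fun s =>
      ⟨(e.symm ⟨Complex.exp (s * Complex.I), hex s⟩).2, ?_⟩⟩
  have h1 : e (e.symm ⟨Complex.exp (s * Complex.I), hex s⟩) =
    ⟨Complex.exp (s * Complex.I), hex s⟩ := e.apply_symm_apply _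
  exact congrArg Subtype.val h1

end Pool.Agent.Helper52.CM
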