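import Pool.Agent.Helper52.CM.NonExt

namespace Pool.Agent.Helper52.CM

open Set TopologicalSpace Topology

/-- the map `c` given on `D` extends to a circle valued map on `P` -/
def ExtOver {Z : Type*} [TopologicalSpace Z] (c : Z → ℂ) (D P : Set Z) : Prop :=
  ∃ g : Z → ℂ, ContinuousOn g P ∧ (∀ y ∈ P, ‖g y‖ = 1) ∧ ∀ y ∈ D, g y = c y

/-- minimal pairs for the extension problem -/
structure MinPair {Z : Type*} [TopologicalSpace Z] (c : Z → ℂ) (D P : Set Z) : Prop where
  closedD : IsClosed D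
  closedP : IsClosed P
  sub : D ⊆ P
  cont : ContinuousOn c D
  norm : ∀ y ∈ D, ‖c y‖ = 1
  inj : InjOn c D
  noext : ¬ ExtOver c D P
  min : ∀ P', IsClosed P' → D ⊆ P' → P' ⊆ P → ¬ (P ⊆ P') → ExtOver c D P'

theorem mem_slitPlane_of_norm {v : ℂ} (h1 : ‖v‖ = 1) (h2 : v ≠ -1) : v ∈ Complex.slitPlane := by
  rw [Complex.mem_slitPlane_iff]
  by_contra hcon
  push Not at hcon
  obtain ⟨ha, hb⟩ := hcon
  apply h2
  have h3 : v.re ^ 2 + v.im ^ 2 = 1 := by
    have := Complex.sq_norm v
    rw [h1, Complex.normSq_apply] at this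
    nlinarith
  rw [hb] at h3
  have h4 : v.re = -1 := by nlinarith
  exact Complex.ext (by simpa using h4) (by simpa using hb)

theorem MinPair.exists_notMem {Z : Type*} [TopologicalSpace Z] [NormalSpace Z] {c : Z → ℂ}
    {D P : Set Z} (h : MinPair c D P) {W : Set Z} (hW : IsOpen W) (hne : (W ∩ P).Nonempty) :
    ∃ y ∈ W ∩ P, y ∉ D := by
  classical
  by_contra hcon
  push Not at hcon
  obtain ⟨y0, hy0⟩ := hne
  have hy0D := hcon y0 hy0
  set u : ℂ := c y0 with hu
  have hu1 : ‖u‖ = 1 := h.norm y0 hy0D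
  have hu0 : u ≠ 0 := by
    intro h0; rw [h0, norm_zero] at hu1; exact zero_ne_one hu1
  have hnorm : ∀ y ∈ D, ‖-(c y / u)‖ = 1 := by
    intro y hy
    rw [norm_neg, norm_div, h.norm y hy, hu1, div_one]
  have hcl : IsClosed (D \ W) := h.closedD.sdiff hW
  have hθ : ContinuousOn (fun y => Complex.arg (-(c y / u))) (D \ W) := by
    intro y hy
    have hs : -(c y / u) ∈ Complex.slitPlane := by
      apply mem_slitPlane_of_norm (hnorm y hy.1)
      intro h1
      have h2 : c y / u = 1 := neg_inj.1 h1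
      rw [div_eq_one_iff_eq hu0] at h2
      have h3 := h.inj hy.1 hy0D h2
      rw [h3] at hy
      exact hy.2 hy0.1
    have hcw : ContinuousWithinAt (fun y => -(c y / u)) (D \ W) y :=
      (((h.cont y hy.1).mono sdiff_subset).div_const u).neg
    exact ContinuousAt.comp_continuousWithinAt (g := Complex.arg) (f := fun y => -(c y / u))
      (Complex.continuousAt_arg hs) hcw
  obtain ⟨Θ, hΘ⟩ := tietze_on_real hcl hθ
  apply h.noext
  set g : Z → ℂ := fun y => if y ∈ D then c y else -u * Complex.exp (Θ y * Complex.I) with hg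
  have hg2 : ∀ y ∈ P \ W, g y = -u * Complex.exp (Θ y * Complex.I) := by
    intro y hy
    simp only [hg]
    split_ifs with hD
    · rw [hΘ y ⟨hD, hy.2⟩, exp_arg_of_norm (hnorm y hD)]
      field_simp
    · rfl
  have hgD : ContinuousOn g D := h.cont.congr fun y hy => by simp only [hg, if_pos hy]
  have hgP : ContinuousOn g (P \ W) := by
    have : Continuous fun y => -u * Complex.exp (Θ y * Complex.I) := by
      have := Complex.continuous_ofReal.comp Θ.continuous
      fun_prop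
    exact this.continuousOn.congr hg2
  refine ⟨g, ?_, ?_, fun y hy => by simp only [hg, if_pos hy]⟩
  · apply (hgD.union_of_isClosed hgP h.closedD (h.closedP.sdiff hW)).mono
    intro y hy
    by_cases hyW : y ∈ W
    · exact Or.inl (hcon y ⟨hyW, hy⟩)
    · exact Or.inr ⟨hy, hyW⟩
  · intro y hy
    simp only [hg]
    split_ifs with hD
    · exact h.norm y hD
    · rw [norm_mul, norm_neg, hu1, one_mul, Complex.norm_exp_ofReal_mul_I]

/-- logarithms on zero-dimensional sets -/
theorem exists_log_on {Z : Type} [MetricSpace Z] {C D : Set Z} (hC : IsCompact C) (hs : Sm C 1)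
    (hD : IsClosed D) {u : Z → ℂ} (hu : ContinuousOn u C) (hu1 : ∀ y ∈ C, ‖u y‖ = 1)
    (huD : ∀ y ∈ C, y ∈ D → u y = 1) :
    ∃ Θ : C(Z, ℝ), (∀ y ∈ D, Θ y = 0) ∧ ∀ y ∈ C, Complex.exp (Θ y * Complex.I) = u y := by
  classical
  obtain ⟨δ, hδ, hd⟩ := Metric.uniformContinuousOn_iff.1
    (hC.uniformContinuousOn_of_continuous hu) 1 one_pos
  obtain ⟨ι, U, hU1, hU2, hU3, hU4⟩ := hs δ hδ
  have hU4' : ∀ y ∈ C, ∃ i, y ∈ U 0 i := by
    intro y hy
    obtain ⟨c, i, hi⟩ := hU4 y hy
    have : c = 0 := Subsingleton.elim _ _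
    exact ⟨i, this ▸ hi⟩
  have hw : ∀ i, ∃ w : ℂ, ‖w‖ = 1 ∧ (∀ y ∈ C ∩ U 0 i, dist (u y) w < 1) ∧
      ((C ∩ U 0 i ∩ D).Nonempty → w = 1) := by
    intro i
    by_cases h1 : (C ∩ U 0 i ∩ D).Nonempty
    · obtain ⟨x, hx, hxD⟩ := h1
      refine ⟨u x, hu1 x hx.1, fun y hy => hd y hy.1 x hx.1 (hU3 0 i y hy x hx), fun _ =>
        huD x hx.1 hxD⟩
    · by_cases h2 : (C ∩ U 0 i).Nonempty
      · obtain ⟨x, hx⟩ := h2
        exact ⟨u x, hu1 x hx.1, fun y hy => hd y hy.1 x hx.1 (hU3 0 i y hy x hx),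
          fun h => absurd h h1⟩
      · exact ⟨1, norm_one, fun y hy => absurd ⟨y, hy⟩ h2, fun h => absurd h h1⟩
  choose w hw1 hw2 hw3 using hw
  have hidx : ∀ y : Z, ∃ i : Option ι, y ∈ C → ∃ j, i = some j ∧ y ∈ U 0 j := by
    intro y
    by_cases hy : y ∈ C
    · obtain ⟨i, hi⟩ := hU4' y hy
      exact ⟨some i, fun _ => ⟨i, rfl, hi⟩⟩
    · exact ⟨none, fun h => absurd h hy⟩
  choose idx hidx using hidx
  set W : Z → ℂ := fun y => (idx y).elim 1 w with hW
  have hWval : ∀ y ∈ C, ∀ i, y ∈ U 0 i → W y = w i := by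
    intro y hy i hi
    obtain ⟨j, hj, hyj⟩ := hidx y hy
    have : j = i := by
      by_contra hne
      exact disjoint_left.1 (hU2 0 j i hne) hyj hi
    simp only [hW]
    rw [hj, this]
    rfl
  have hW1 : ∀ y ∈ C, ‖W y‖ = 1 := by
    intro y hy
    obtain ⟨i, hi⟩ := hU4' y hy
    rw [hWval y hy i hi]; exact hw1 i
  set θ : Z → ℝ := fun y => Complex.arg (u y / W y) + Complex.arg (W y) with hθ
  have hθc : ContinuousOn θ C := by
    intro y hy
    obtain ⟨i, hi⟩ := hU4' y hy
    have hnear : ∀ᶠ z in 𝓝[C] y, θ z = Complex.arg (u z / w i) + Complex.arg (w i) := by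
      have h1 : ∀ᶠ z in 𝓝[C] y, z ∈ U 0 i :=
        mem_nhdsWithin_of_mem_nhds ((hU1 0 i).mem_nhds hi)
      filter_upwards [h1, self_mem_nhdsWithin] with z hz hzC
      simp only [hθ]
      rw [hWval z hzC i hz]
    have hval : θ y = Complex.arg (u y / w i) + Complex.arg (w i) := by
      simp only [hθ]; rw [hWval y hy i hi]
    have hwi0 : w i ≠ 0 := by
      intro h0; have := hw1 i; rw [h0, norm_zero] at this; exact zero_ne_one this
    have hpos : 0 < (u y / w i).re := by
      have h2 := hw2 i y ⟨hy, hi⟩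
      have h3 : ‖u y / w i - 1‖ < 1 := by
        have : u y / w i - 1 = (u y - w i) / w i := by rw [sub_div, div_self hwi0]
        rw [this, norm_div, hw1 i, div_one, ← dist_eq_norm]
        exact h2
      have h4 := (abs_lt.1 ((Complex.abs_re_le_norm _).trans_lt h3)).1
      rw [Complex.sub_re, Complex.one_re] at h4
      linarith
    have hcw : ContinuousWithinAt (fun z => Complex.arg (u z / w i) + Complex.arg (w i)) C y := by
      apply ContinuousWithinAt.add _ continuousWithinAt_const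
      exact ContinuousAt.comp_continuousWithinAt (g := Complex.arg) (f := fun z => u z / w i)
        (Complex.continuousAt_arg (Or.inl hpos)) ((hu y hy).div_const (w i))
    exact hcw.congr_of_eventuallyEq hnear hval
  have hθe : ∀ y ∈ C, Complex.exp (θ y * Complex.I) = u y := by
    intro y hy
    simp only [hθ]
    push_cast
    rw [add_mul, Complex.exp_add, exp_arg_of_norm, exp_arg_of_norm (hW1 y hy)]
    · have hW0 : W y ≠ 0 := by
        intro h0; have := hW1 y hy; rw [h0, norm_zero] at this; exact zero_ne_one this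
      field_simp
    · rw [norm_div, hu1 y hy, hW1 y hy, div_one]
  have hθD : ∀ y ∈ C, y ∈ D → θ y = 0 := by
    intro y hy hyD
    obtain ⟨i, hi⟩ := hU4' y hy
    simp only [hθ]
    rw [hWval y hy i hi, hw3 i ⟨y, ⟨hy, hi⟩, hyD⟩, huD y hy hyD]
    simp
  set θ' : Z → ℝ := fun y => if y ∈ C then θ y else 0 with hθ'
  have h1 : ContinuousOn θ' C := hθc.congr fun y hy => by simp only [hθ', if_pos hy]
  have h2 : ContinuousOn θ' D := by
    apply (continuousOn_const (c := (0 : ℝ))).congr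
    intro y hy
    simp only [hθ']
    split_ifs with hyC
    · exact hθD y hyC hy
    · rfl
  obtain ⟨Θ, hΘ⟩ := tietze_on_real (hC.isClosed.union hD)
    (h1.union_of_isClosed h2 hC.isClosed hD)
  refine ⟨Θ, ?_, ?_⟩
  · intro y hy
    rw [hΘ y (Or.inr hy)]
    simp only [hθ']
    split_ifs with hyC
    · exact hθD y hyC hy
    · rfl
  · intro y hy
    rw [hΘ y (Or.inl hy)]
    simp only [hθ', if_pos hy]
    exact hθe y hy

/-- minimal pairs are not separated by zero-dimensional sets -/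
theorem MinPair.isPreconnected {Z : Type} [MetricSpace Z] {c : Z → ℂ} {D P : Set Z}
    (h : MinPair c D P) (hP : IsCompact P) {C : Set Z} (hC : IsClosed C) (hs : Sm (P ∩ C) 1) :
    IsPreconnected (P \ C) := by
  classical
  intro u v hu hv huv hneu hnev
  by_contra hcon
  rw [not_nonempty_iff_eq_empty] at hcon
  set A : Set Z := P \ (v \ C) with hA
  set B : Set Z := P \ (u \ C) with hB
  have hAc : IsClosed A := h.closedP.sdiff (hv.sdiff hC)
  have hBc : IsClosed B := h.closedP.sdiff (hu.sdiff hC)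
  have hAB : ∀ y ∈ P, y ∈ A ∨ y ∈ B := by
    intro y hy
    by_contra hno
    push Not at hno
    have h1 : y ∈ v \ C := by
      by_contra hh; exact hno.1 ⟨hy, hh⟩
    have h2 : y ∈ u \ C := by
      by_contra hh; exact hno.2 ⟨hy, hh⟩
    have : y ∈ (P \ C) ∩ (u ∩ v) := ⟨⟨hy, h1.2⟩, h2.1, h1.1⟩
    rw [hcon] at this
    exact this
  have hABC : ∀ y, y ∈ A → y ∈ B → y ∈ P ∩ C := by
    intro y hyA hyB
    refine ⟨hyA.1, ?_⟩
    by_contra hyC
    rcases huv ⟨hyA.1, hyC⟩ with h1 | h1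
    · exact hyB.2 ⟨h1, hyC⟩
    · exact hyA.2 ⟨h1, hyC⟩
  -- the two extensions
  have hext : ∀ w : Set Z, IsOpen w → ((P \ C) ∩ w).Nonempty → ExtOver c D (P \ (w \ C) ∪ D) := by
    intro w hw hne
    apply h.min
    · exact (h.closedP.sdiff (hw.sdiff hC)).union h.closedD
    · exact subset_union_right
    · exact union_subset sdiff_subset h.sub
    · intro hsub
      obtain ⟨x, hx, hxw⟩ := hne
      obtain ⟨y, hy, hyD⟩ := h.exists_notMem (hw.sdiff hC) ⟨x, ⟨hxw, hx.2⟩, hx.1⟩
      rcases hsub hy.2 with h1 | h1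
      · exact h1.2 hy.1
      · exact hyD h1
  obtain ⟨g1, hg1c, hg1n, hg1⟩ := hext v hv hnev
  obtain ⟨g2, hg2c, hg2n, hg2⟩ := hext u hu hneu
  have hPC : IsCompact (P ∩ C) := hP.inter_right hC
  have hsub1 : P ∩ C ⊆ P \ (v \ C) ∪ D := fun y hy => Or.inl ⟨hy.1, fun hh => hh.2 hy.2⟩
  have hsub2 : P ∩ C ⊆ P \ (u \ C) ∪ D := fun y hy => Or.inl ⟨hy.1, fun hh => hh.2 hy.2⟩
  have hg20 : ∀ y ∈ P \ (u \ C) ∪ D, g2 y ≠ 0 := by
    intro y hy h0
    have := hg2n y hy
    rw [h0, norm_zero] at this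
    exact zero_ne_one this
  obtain ⟨Θ, hΘD, hΘC⟩ := exists_log_on hPC hs h.closedD (u := fun y => g1 y / g2 y)
    ((hg1c.mono hsub1).div (hg2c.mono hsub2) fun y hy => hg20 y (hsub2 hy))
    (fun y hy => by
      show ‖g1 y / g2 y‖ = 1
      rw [norm_div, hg1n y (hsub1 hy), hg2n y (hsub2 hy), div_one])
    (fun y hy hyD => by
      show g1 y / g2 y = 1
      rw [hg1 y hyD, ← hg2 y hyD, div_self (hg20 y (Or.inr hyD))])
  apply h.noext
  set g : Z → ℂ := fun y => if y ∈ A then g1 y else g2 y * Complex.exp (Θ y * Complex.I) with hg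
  have hgA : ∀ y ∈ A, g y = g1 y := fun y hy => by simp only [hg, if_pos hy]
  have hgB : ∀ y ∈ B, g y = g2 y * Complex.exp (Θ y * Complex.I) := by
    intro y hy
    simp only [hg]
    split_ifs with hyA
    · have hyC := hABC y hyA hy
      rw [hΘC y hyC, mul_div_cancel₀ _ (hg20 y (hsub2 hyC))]
    · rfl
  have hcA : ContinuousOn g A := (hg1c.mono subset_union_left).congr hgA
  have hcB : ContinuousOn g B := by
    have he : Continuous fun y => Complex.exp (Θ y * Complex.I) := by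
      have := Complex.continuous_ofReal.comp Θ.continuous
      fun_prop
    exact ((hg2c.mono subset_union_left).mul he.continuousOn).congr hgB
  refine ⟨g, (hcA.union_of_isClosed hcB hAc hBc).mono fun y hy => hAB y hy, ?_, ?_⟩
  · intro y hy
    rcases hAB y hy with h1 | h1
    · rw [hgA y h1]; exact hg1n y (Or.inl h1)
    · rw [hgB y h1, norm_mul, hg2n y (Or.inl h1), one_mul, Complex.norm_exp_ofReal_mul_I]
  · intro y hy
    rcases hAB y (h.sub hy) with h1 | h1
    · rw [hgA y h1, hg1 y hy]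
    · rw [hgB y h1, hg2 y hy, hΘD y hy]
      simp

end Pool.Agent.Helper52.CM
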