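import Pool.Agent.Helper52.CM.Descend

namespace Pool.Agent.Helper52.CM

open Set TopologicalSpace Topology

/-- Tietze extension for a function given on a closed set of a metric space -/
theorem tietze_on {X : Type*} [TopologicalSpace X] [NormalSpace X] {A : Set X} (hA : IsClosed A)
    {f : X → ℂ} (hf : ContinuousOn f A) : ∃ F : C(X, ℂ), ∀ x ∈ A, F x = f x := by
  obtain ⟨F, hF⟩ := ContinuousMap.exists_restrict_eq hA
    (⟨A.domRestrict f, hf.domRestrict⟩ : C(A, ℂ))
  exact ⟨F, fun x hx => congrArg (fun G : C(A, ℂ) => G ⟨x, hx⟩) hF⟩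

theorem tietze_on_real {X : Type*} [TopologicalSpace X] [NormalSpace X] {A : Set X}
    (hA : IsClosed A) {f : X → ℝ} (hf : ContinuousOn f A) :
    ∃ F : C(X, ℝ), ∀ x ∈ A, F x = f x := by
  obtain ⟨F, hF⟩ := ContinuousMap.exists_restrict_eq hA
    (⟨A.domRestrict f, hf.domRestrict⟩ : C(A, ℝ))
  exact ⟨F, fun x hx => congrArg (fun G : C(A, ℝ) => G ⟨x, hx⟩) hF⟩

theorem ret_mem_YY {p i j : ℕ} (h : i ≤ j) : ∀ y ∈ YY p j, ret i y ∈ YY p i := by
  induction j, h using Nat.le_induction with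
  | base => intro y hy; rwa [(YY_stage p i).ret_eq hy]
  | succ j hij ih =>
    intro y hy
    rw [YY_succ] at hy
    have := ih _ hy.2.1
    rwa [ret_ret hij] at this

/-- stages are close to the limit -/
theorem YY_subset_nhds (p : ℕ) {V : Set HS} (hV : IsOpen V) (h : XX p ⊆ V) :
    ∃ j, YY p j ⊆ V := by
  by_contra hcon
  push Not at hcon
  have hx : ∀ j, ∃ y ∈ YY p j, y ∉ V := fun j => not_subset.1 (hcon j)
  choose y hy hyV using hx
  obtain ⟨x, hxK, φ, hφ, hlim⟩ := isCompact_KS.tendsto_subseq (fun j => (YY_stage p j).sub (hy j))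
  have hxV : x ∉ V := by
    have hcl : IsClosed Vᶜ := hV.isClosed_compl
    exact hcl.mem_of_tendsto hlim (Filter.Eventually.of_forall fun n => hyV (φ n))
  apply hxV
  apply h
  refine ⟨hxK, fun i => ?_⟩
  have h1 : Filter.Tendsto (fun n => ret i (y (φ n))) Filter.atTop (𝓝 (ret i x)) :=
    ((continuous_ret i).tendsto x).comp hlim
  apply (YY_stage p i).closed.mem_of_tendsto h1
  filter_upwards [Filter.eventually_ge_atTop i] with n hn
  exact ret_mem_YY (hn.trans (hφ.id_le n)) _ (hy (φ n))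

theorem round_eq_of_close {x : ℝ} {n : ℤ} (h : |x - n| < 1 / 2) : round x = n := by
  have h1 := abs_lt.1 h
  rw [round_eq, Int.floor_eq_iff]
  constructor <;> linarith [h1.1, h1.2]

theorem near_int {x : ℝ} (h0 : |x| ≤ 1) (h : |x| < 1 / 8 ∨ 1 - 1 / 8 < |x|) :
    ∃ n : ℤ, |x - n| < 1 / 4 := by
  rcases h with h | h
  · exact ⟨0, by push_cast; rw [sub_zero]; linarith⟩
  · rcases lt_abs.1 h with h' | h'
    · refine ⟨1, ?_⟩
      have := abs_le.1 h0
      push_cast
      rw [abs_lt]
      constructor <;> linarith [this.1, this.2]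
    · refine ⟨-1, ?_⟩
      have := abs_le.1 h0
      push_cast
      rw [abs_lt]
      constructor <;> linarith [this.1, this.2]

theorem exists_cst_coc (p : ℕ) : ∃ η > 0, ∀ u v w : ℂ, ‖u‖ = 1 → ‖v‖ = 1 → ‖w‖ = 1 →
    dist u v < η → dist v w < η → cst p u v + cst p v w = cst p u w := by
  obtain ⟨η, hη, h⟩ := exists_close_tau (show (0 : ℝ) < 1 / 8 by norm_num)
  refine ⟨η, hη, fun u v w hu hv hw h1 h2 => ?_⟩
  have b : ∀ x y : ℂ, |tau x - tau y| ≤ 1 := by
    intro x y
    rw [abs_le]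
    constructor <;> linarith [tau_nonneg x, tau_nonneg y, tau_lt_one x, tau_lt_one y]
  obtain ⟨n, hn⟩ := near_int (b u v) (h u v hu hv h1)
  obtain ⟨m, hm⟩ := near_int (b v w) (h v w hv hw h2)
  have r1 : round (tau u - tau v) = n := round_eq_of_close (by linarith)
  have r2 : round (tau v - tau w) = m := round_eq_of_close (by linarith)
  have r3 : round (tau u - tau w) = n + m := by
    apply round_eq_of_close
    have e : tau u - tau w - ((n + m : ℤ) : ℝ) = (tau u - tau v - n) + (tau v - tau w - m) := by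
      push_cast; ring
    rw [e]
    have := abs_add_le (tau u - tau v - n) (tau v - tau w - m)
    linarith
  unfold cst
  rw [r1, r2, r3]
  push_cast
  rfl

/-- the boundary circle map does not extend over the limit -/
theorem not_extends {p : ℕ} (hp : 1 < p) : ¬ ∃ g : C(XX p, Circle), ∀ y : XX p,
    ‖y.1 0‖ = 1 → (g y : ℂ) = y.1 0 := by
  classical
  rintro ⟨g, hg⟩
  have hXc := isClosed_XX p
  obtain ⟨G1, hG1⟩ := ContinuousMap.exists_restrict_eq hXc
    (⟨fun y => (g y : ℂ), circle_coe_continuous.comp g.continuous⟩ : C(XX p, ℂ))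
  have hG1' : ∀ y : XX p, G1 y = (g y : ℂ) := fun y =>
    congrArg (fun F : C(XX p, ℂ) => F y) hG1
  set Bd : Set HS := KS ∩ {y | ‖y 0‖ = 1} with hBd
  have hBdc : IsClosed Bd := isCompact_KS.isClosed.inter
    (isClosed_eq (continuous_coord 0).norm continuous_const)
  set F : HS → ℂ := fun y => if y ∈ XX p then G1 y else y 0 with hF
  have hF1 : ContinuousOn F (XX p) := by
    apply G1.continuous.continuousOn.congr
    intro y hy
    simp only [hF, if_pos hy]
  have hF2 : ContinuousOn F Bd := by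
    apply (continuous_coord 0).continuousOn.congr
    intro y hy
    simp only [hF]
    split_ifs with h
    · rw [hG1' ⟨y, h⟩]; exact hg ⟨y, h⟩ hy.2
    · rfl
  obtain ⟨G, hG⟩ := tietze_on (hXc.union hBdc) (hF1.union_of_isClosed hF2 hXc hBdc)
  have hGX : ∀ y ∈ XX p, ‖G y‖ = 1 := by
    intro y hy
    rw [hG y (Or.inl hy)]
    simp only [hF, if_pos hy]
    rw [hG1' ⟨y, hy⟩, Circle.norm_coe]
  have hGB : ∀ y ∈ KS, ‖y 0‖ = 1 → G y = y 0 := by
    intro y hy hy1
    rw [hG y (Or.inr ⟨hy, hy1⟩)]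
    simp only [hF]
    split_ifs with h
    · rw [hG1' ⟨y, h⟩]; exact hg ⟨y, h⟩ hy1
    · rfl
  obtain ⟨j, hj⟩ := YY_subset_nhds p (V := {y | 1 / 2 < ‖G y‖})
    (isOpen_lt continuous_const G.continuous.norm) (by
      intro y hy
      simp only [mem_ofPred_eq]
      rw [hGX y hy]; norm_num)
  have hne : ∀ y ∈ YY p j, G y ≠ 0 := by
    intro y hy h
    have := hj hy
    simp only [mem_ofPred_eq] at this
    rw [h, norm_zero] at this
    norm_num at this
  have hphc : ContinuousOn (fun y => ph (G y)) (YY p j) := fun y hy =>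
    ((continuousAt_ph (hne y hy)).comp G.continuous.continuousAt).continuousWithinAt
  obtain ⟨η, hη, hcst⟩ := exists_cst_coc p
  obtain ⟨δ, hδ, hu⟩ := Metric.uniformContinuousOn_iff.1
    ((YY_stage p j).compact.uniformContinuousOn_of_continuous hphc) η hη
  apply not_hasCoc hp j
  refine ⟨δ, hδ, fun y y' => cst p (ph (G y)) (ph (G y')), ?_, ?_⟩
  · intro x hx y hy z hz h1 h2 _
    exact hcst _ _ _ (norm_ph (hne x hx)) (norm_ph (hne y hy)) (norm_ph (hne z hz))
      (hu x hx y hy h1) (hu y hy z hz h2)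
  · intro y hy y' hy' hn hn' _
    have e : ∀ y ∈ YY p j, ‖y 0‖ = 1 → ph (G y) = y 0 := by
      intro y hy hn
      rw [hGB y ((YY_stage p j).sub hy) hn]
      unfold ph
      rw [hn]
      simp
    show cst p (ph (G y)) (ph (G y')) = cst p (y 0) (y' 0)
    rw [e y hy hn, e y' hy' hn']

end Pool.Agent.Helper52.CM
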