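import Pool.Agent.Helper52.CM.Push

namespace Pool.Agent.Helper52.CM

open Set TopologicalSpace Topology

theorem circle_coe_continuous : Continuous (fun x : Circle => (x : ℂ)) := continuous_induced_dom

/-- a unit-modulus complex function as a map to the circle -/
def toCircle {X : Type*} [TopologicalSpace X] (f : X → ℂ) (hf : Continuous f)
    (h1 : ∀ x, ‖f x‖ = 1) : C(X, Circle) where
  toFun x := ⟨f x, mem_sphere_zero_iff_norm.2 (h1 x)⟩
  continuous_toFun := continuous_induced_rng.2 hf

theorem coe_toCircle {X : Type*} [TopologicalSpace X] (f : X → ℂ) (hf : Continuous f)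
    (h1 : ∀ x, ‖f x‖ = 1) (x : X) : (toCircle f hf h1 x : ℂ) = f x := rfl

theorem Ext.exists_pow {p : ℕ} {X : Type*} [TopologicalSpace X] (h : Ext p X) {z : X → ℂ}
    (hz : Continuous z) {r : ℝ} (hr : 0 < r) :
    ∃ F : X → ℂ, Continuous F ∧ (∀ x, ‖F x‖ = 1) ∧ ∀ x, r ≤ ‖z x‖ → F x = trc r (z x) ^ p := by
  have hA : IsClosed {x | r ≤ ‖z x‖} := isClosed_le continuous_const hz.norm
  obtain ⟨F, hF⟩ := h _ hA (toCircle (fun x : {x | r ≤ ‖z x‖} => trc r (z x))
    ((continuous_trc hr).comp (hz.comp continuous_subtype_val)) (fun x => trc_norm_eq hr x.2))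
  refine ⟨fun x => (F x : ℂ), circle_coe_continuous.comp F.continuous,
    fun x => Circle.norm_coe _, ?_⟩
  intro x hx
  have h1 := hF ⟨x, hx⟩
  have h2 : (F x : ℂ) = ((toCircle (fun x : {x | r ≤ ‖z x‖} => trc r (z x))
    ((continuous_trc hr).comp (hz.comp continuous_subtype_val)) (fun x => trc_norm_eq hr x.2)
      ⟨x, hx⟩ ^ p : Circle) : ℂ) := congrArg (fun c : Circle => (c : ℂ)) h1
  rw [Circle.coe_pow, coe_toCircle] at h2
  exact h2

/-- pushing off the origin -/
theorem exists_push {P Q : Type} [MetricSpace P] [MetricSpace Q]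
    (h2 : Ext 2 P) (h3 : Ext 3 Q) {z : P → ℂ} (hz : Continuous z) {w : Q → ℂ} (hw : Continuous w)
    {r : ℝ} (hr : 0 < r) :
    ∃ Θ : P × Q → ℂ × ℂ, Continuous Θ ∧ (∀ x, Θ x ≠ 0) ∧
      ∀ x : P × Q, (r ≤ ‖z x.1‖ ∨ r ≤ ‖w x.2‖) → Θ x = (z x.1, w x.2) := by
  obtain ⟨F, hF, hF1, hF2⟩ := h2.exists_pow hz hr
  obtain ⟨G, hG, hG1, hG2⟩ := h3.exists_pow hw hr
  set K : Set (P × Q) := {x | r ≤ ‖z x.1‖ ∨ r ≤ ‖w x.2‖} with hK
  have hKc : IsClosed K := by
    have : K = {x | r ≤ ‖z x.1‖} ∪ {x | r ≤ ‖w x.2‖} := by ext x; rfl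
    rw [this]
    exact (isClosed_le continuous_const (by fun_prop)).union
      (isClosed_le continuous_const (by fun_prop))
  have htr := continuous_trc hr
  have hconj := Complex.continuous_conj
  set zs : P × Q → ℂ := fun x => trc r (z x.1) with hzs
  set ws : P × Q → ℂ := fun x => trc r (w x.2) with hws
  have hzsc : Continuous zs := htr.comp (hz.comp continuous_fst)
  have hwsc : Continuous ws := htr.comp (hw.comp continuous_snd)
  have hzs1 : ∀ x, ‖zs x‖ ≤ 1 := fun x => trc_norm_le hr _
  have hws1 : ∀ x, ‖ws x‖ ≤ 1 := fun x => trc_norm_le hr _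
  -- not both zero on K
  have hK0 : ∀ x ∈ K, ¬ (zs x = 0 ∧ ws x = 0) := by
    rintro x (hx | hx) ⟨h1, h2⟩
    · rw [hzs, trc_eq_zero hr] at h1
      rw [h1, norm_zero] at hx; linarith
    · rw [hws, trc_eq_zero hr] at h2
      rw [h2, norm_zero] at hx; linarith
  -- the two extendable maps
  set Θ1 : P × Q → ℂ × ℂ := fun x =>
    ((1 - ‖ws x‖ : ℝ) * F x.1 + (‖ws x‖ : ℝ) * zs x ^ 2, ws x) with hΘ1
  set Θ2 : P × Q → ℂ × ℂ := fun x =>
    (zs x, (1 - ‖zs x‖ : ℝ) * G x.2 + (‖zs x‖ : ℝ) * ws x ^ 3) with hΘ2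
  have hof := Complex.continuous_ofReal
  have hΘ1c : Continuous Θ1 := by
    apply Continuous.prodMk _ hwsc
    apply Continuous.add
    · exact (hof.comp (continuous_const.sub hwsc.norm)).mul (hF.comp continuous_fst)
    · exact (hof.comp hwsc.norm).mul (hzsc.pow 2)
  have hΘ2c : Continuous Θ2 := by
    apply Continuous.prodMk hzsc
    apply Continuous.add
    · exact (hof.comp (continuous_const.sub hzsc.norm)).mul (hG.comp continuous_snd)
    · exact (hof.comp hzsc.norm).mul (hwsc.pow 3)
  have hΘ1ne : ∀ x, Θ1 x ≠ 0 := by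
    intro x h
    have h2 : ws x = 0 := congrArg Prod.snd h
    have h1 := congrArg Prod.fst h
    simp only [hΘ1, h2, norm_zero] at h1
    have h3 : F x.1 = 0 := by simpa using h1
    have h4 := hF1 x.1
    rw [h3, norm_zero] at h4
    exact zero_ne_one h4
  have hΘ2ne : ∀ x, Θ2 x ≠ 0 := by
    intro x h
    have h2 : zs x = 0 := congrArg Prod.fst h
    have h1 := congrArg Prod.snd h
    simp only [hΘ2, h2, norm_zero] at h1
    have h3 : G x.2 = 0 := by simpa using h1
    have h4 := hG1 x.2
    rw [h3, norm_zero] at h4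
    exact zero_ne_one h4
  have hΘ1K : ∀ x ∈ K, Θ1 x = (zs x ^ 2, ws x) := by
    rintro x (hx | hx)
    · have : F x.1 = zs x ^ 2 := hF2 x.1 hx
      simp only [hΘ1, this]
      congr 1
      push_cast; ring
    · have : ‖ws x‖ = 1 := trc_norm_eq hr hx
      simp only [hΘ1, this]
      congr 1
      push_cast; ring
  have hΘ2K : ∀ x ∈ K, Θ2 x = (zs x, ws x ^ 3) := by
    rintro x (hx | hx)
    · have : ‖zs x‖ = 1 := trc_norm_eq hr hx
      simp only [hΘ2, this]
      congr 1
      push_cast; ring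
    · have : G x.2 = ws x ^ 3 := hG2 x.2 hx
      simp only [hΘ2, this]
      congr 1
      push_cast; ring
  have hnsq : ∀ u : ℂ, u * starRingEnd ℂ u = (‖u‖ : ℂ) ^ 2 := by
    intro u
    rw [Complex.mul_conj, Complex.normSq_eq_norm_sq]; push_cast; rfl
  -- stage A
  obtain ⟨g1, hg1c, hg1ne, hg1K⟩ := hep hKc
    (fun p : (P × Q) × ℝ => (((‖zs p.1‖ ^ 2 : ℝ) * starRingEnd ℂ (zs p.1) +
      (‖ws p.1‖ ^ 2 : ℝ) * ws p.1 ^ 2,
      (p.2 : ℂ) * (zs p.1 * ws p.1 * (ws p.1 ^ 2 * zs p.1 - 1)) +
        (1 - p.2 : ℝ) * starRingEnd ℂ (ws p.1)) : ℂ × ℂ))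
    (by
      apply Continuous.prodMk
      · apply Continuous.add
        · exact (hof.comp ((hzsc.comp continuous_fst).norm.pow 2)).mul
            (hconj.comp (hzsc.comp continuous_fst))
        · exact (hof.comp ((hwsc.comp continuous_fst).norm.pow 2)).mul
            ((hwsc.comp continuous_fst).pow 2)
      · apply Continuous.add
        · exact (hof.comp continuous_snd).mul
            (((hzsc.comp continuous_fst).mul (hwsc.comp continuous_fst)).mul
              ((((hwsc.comp continuous_fst).pow 2).mul (hzsc.comp continuous_fst)).sub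
                continuous_const))
        · exact (hof.comp (continuous_const.sub continuous_snd)).mul
            (hconj.comp (hwsc.comp continuous_fst)))
    (fun x hx t ht => stageA_ne (hK0 x hx) ht)
    (fun x => qmul (Θ2 x) (Θ1 x)) (continuous_qmul.comp (hΘ2c.prodMk hΘ1c))
    (fun x => qmul_ne_zero (hΘ2ne x) (hΘ1ne x))
    (by
      intro x hx
      simp only [hΘ1K x hx, hΘ2K x hx, qmul, map_pow]
      have e1 := hnsq (zs x)
      have e2 := hnsq (ws x)
      apply Prod.ext
      · simp only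
        push_cast
        rw [← e1, ← e2]
        ring
      · simp only
        push_cast
        ring)
  -- stage B
  obtain ⟨g2, hg2c, hg2ne, hg2K⟩ := hep hKc
    (fun p : (P × Q) × ℝ => (((p.2 : ℂ) * ((‖zs p.1‖ ^ 2 : ℝ) * starRingEnd ℂ (zs p.1) +
      (‖ws p.1‖ ^ 2 : ℝ) * ws p.1 ^ 2) + (1 - p.2 : ℝ) * starRingEnd ℂ (zs p.1),
        starRingEnd ℂ (ws p.1)) : ℂ × ℂ))
    (by
      apply Continuous.prodMk
      · apply Continuous.add
        · apply (hof.comp continuous_snd).mul
          apply Continuous.add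
          · exact (hof.comp ((hzsc.comp continuous_fst).norm.pow 2)).mul
              (hconj.comp (hzsc.comp continuous_fst))
          · exact (hof.comp ((hwsc.comp continuous_fst).norm.pow 2)).mul
              ((hwsc.comp continuous_fst).pow 2)
        · exact (hof.comp (continuous_const.sub continuous_snd)).mul
            (hconj.comp (hzsc.comp continuous_fst))
      · exact hconj.comp (hwsc.comp continuous_fst))
    (fun x hx t ht => stageB_ne (hK0 x hx) ht)
    g1 hg1c hg1ne
    (by
      intro x hx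
      rw [hg1K x hx]
      apply Prod.ext
      · simp
      · simp)
  -- stage C
  have hpos : ∀ (u : ℂ) (t : ℝ), t ∈ Icc (0 : ℝ) 1 →
      (t : ℂ) * trc r u + (1 - t : ℝ) * u = 0 → u = 0 := by
    intro u t ht h
    have hm : (0 : ℝ) < max r ‖u‖ := lt_max_of_lt_left hr
    have e : ((t / max r ‖u‖ + (1 - t) : ℝ) : ℂ) * u = 0 := by
      rw [← h]
      unfold trc
      push_cast
      ring
    rcases mul_eq_zero.1 e with h1 | h1
    · exfalso
      have h2 : t / max r ‖u‖ + (1 - t) = 0 := by exact_mod_cast h1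
      rcases eq_or_lt_of_le ht.1 with h0 | h0
      · rw [← h0] at h2; simp at h2
      · have : 0 < t / max r ‖u‖ := div_pos h0 hm
        linarith [ht.2]
    · exact h1
  obtain ⟨g3, hg3c, hg3ne, hg3K⟩ := hep hKc
    (fun p : (P × Q) × ℝ => (((p.2 : ℂ) * zs p.1 + (1 - p.2 : ℝ) * z p.1.1,
        (p.2 : ℂ) * ws p.1 + (1 - p.2 : ℝ) * w p.1.2) : ℂ × ℂ))
    (by
      apply Continuous.prodMk
      · apply Continuous.add
        · exact (hof.comp continuous_snd).mul (hzsc.comp continuous_fst)
        · exact (hof.comp (continuous_const.sub continuous_snd)).mul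
            (hz.comp (continuous_fst.comp continuous_fst))
      · apply Continuous.add
        · exact (hof.comp continuous_snd).mul (hwsc.comp continuous_fst)
        · exact (hof.comp (continuous_const.sub continuous_snd)).mul
            (hw.comp (continuous_snd.comp continuous_fst)))
    (by
      intro x hx t ht h
      have h1 := hpos (z x.1) t ht (congrArg Prod.fst h)
      have h2 := hpos (w x.2) t ht (congrArg Prod.snd h)
      rcases hx with hx | hx
      · rw [h1, norm_zero] at hx; linarith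
      · rw [h2, norm_zero] at hx; linarith)
    (fun x => (starRingEnd ℂ (g2 x).1, starRingEnd ℂ (g2 x).2))
    (by
      apply Continuous.prodMk
      · exact hconj.comp (continuous_fst.comp hg2c)
      · exact hconj.comp (continuous_snd.comp hg2c))
    (by
      intro x h
      apply hg2ne x
      have h1 : starRingEnd ℂ (g2 x).1 = 0 := congrArg Prod.fst h
      have h2 : starRingEnd ℂ (g2 x).2 = 0 := congrArg Prod.snd h
      apply Prod.ext
      · simpa using h1
      · simpa using h2)
    (by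
      intro x hx
      rw [hg2K x hx]
      simp)
  refine ⟨g3, hg3c, hg3ne, ?_⟩
  intro x hx
  rw [hg3K x hx]
  simp

end Pool.Agent.Helper52.CM
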