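import Pool.Agent.Helper52.CM.Sum
import Pool.Agent.Helper52.CM.Push2
import Pool.Agent.Helper52.CM.Colors

namespace Pool.Agent.Helper52.CM

open Set TopologicalSpace Topology

theorem exists_pos_fun {P : Type} [PseudoMetricSpace P] {O : Set P} (hO : IsOpen O) :
    ∃ φ : P → ℝ, Continuous φ ∧ (∀ x, 0 ≤ φ x) ∧ ∀ x, 0 < φ x ↔ x ∈ O := by
  rcases (O)ᶜ.eq_empty_or_nonempty with he | hne
  · refine ⟨fun _ => 1, continuous_const, fun x => zero_le_one, fun x => ?_⟩
    have : O = univ := compl_empty_iff.1 he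
    simp [this]
  · refine ⟨fun x => Metric.infDist x Oᶜ, Metric.continuous_infDist_pt _,
      fun x => Metric.infDist_nonneg, fun x => ?_⟩
    have h1 := hO.isClosed_compl.notMem_iff_infDist_pos hne (x := x)
    have h2 : x ∈ O ↔ x ∉ Oᶜ := by simp
    rw [h2, h1]

theorem exists_pou {P : Type} [PseudoMetricSpace P] {ε : ℝ} (H : SetFam (univ : Set P) 3 ε) :
    ∃ (ι : Type) (U : Fin 3 → ι → Set P) (u : Fin 3 → P → ℝ), (∀ c i, IsOpen (U c i)) ∧
      (∀ c i j, i ≠ j → Disjoint (U c i) (U c j)) ∧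
      (∀ c i, ∀ x ∈ U c i, ∀ y ∈ U c i, dist x y < ε) ∧ (∀ c, Continuous (u c)) ∧
      (∀ c x, 0 ≤ u c x) ∧ (∀ x, u 0 x + u 1 x + u 2 x = 1) ∧
      (∀ c x, 0 < u c x → ∃ i, x ∈ U c i) := by
  obtain ⟨ι, U, h1, h2, h3, h4⟩ := H
  choose φ hφ1 hφ2 hφ3 using fun c : Fin 3 => exists_pos_fun (isOpen_iUnion fun i => h1 c i)
  have hpos : ∀ x, 0 < φ 0 x + φ 1 x + φ 2 x := by
    intro x
    obtain ⟨c, i, hi⟩ := h4 x (mem_univ x)
    have hc : 0 < φ c x := (hφ3 c x).2 (mem_iUnion.2 ⟨i, hi⟩)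
    have p0 := hφ2 0 x
    have p1 := hφ2 1 x
    have p2 := hφ2 2 x
    fin_cases c <;> simp at hc <;> linarith
  refine ⟨ι, U, fun c x => φ c x / (φ 0 x + φ 1 x + φ 2 x), h1, h2,
    fun c i x hx y hy => h3 c i x ⟨mem_univ _, hx⟩ y ⟨mem_univ _, hy⟩, ?_, ?_, ?_, ?_⟩
  · intro c
    exact (hφ1 c).div (((hφ1 0).add (hφ1 1)).add (hφ1 2)) fun x => (hpos x).ne'
  · intro c x
    exact div_nonneg (hφ2 c x) (hpos x).le
  · intro x
    have := (hpos x).ne'
    field_simp
  · intro c x hx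
    have h5 : 0 < φ c x := by
      by_contra hcon
      have : φ c x = 0 := le_antisymm (not_lt.1 hcon) (hφ2 c x)
      simp only [this, zero_div] at hx
      exact lt_irrefl _ hx
    exact mem_iUnion.1 ((hφ3 c x).1 h5)

/-- barycentric offsets of a complex number -/
noncomputable def off (z : ℂ) : Fin 3 → ℝ := fun i =>
  if i = 0 then -(z.re + z.im) else if i = 1 then z.re else z.im

@[simp] theorem off_zero (z : ℂ) : off z 0 = -(z.re + z.im) := by simp [off]
@[simp] theorem off_one (z : ℂ) : off z 1 = z.re := by simp [off]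
@[simp] theorem off_two (z : ℂ) : off z 2 = z.im := by simp [off]

theorem continuous_off (i : Fin 3) : Continuous fun z : ℂ => off z i := by
  fin_cases i <;> simp <;> fun_prop

/-- largest negative offset of a pair -/
noncomputable def mo (p : ℂ × ℂ) : ℝ :=
  max (max (max (-off p.1 0) (-off p.1 1)) (-off p.1 2))
    (max (max (-off p.2 0) (-off p.2 1)) (-off p.2 2))

theorem continuous_mo : Continuous mo := by
  unfold mo
  have h := continuous_off
  have h1 : ∀ i, Continuous fun p : ℂ × ℂ => -off p.1 i := fun i =>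
    ((h i).comp continuous_fst).neg
  have h2 : ∀ i, Continuous fun p : ℂ × ℂ => -off p.2 i := fun i =>
    ((h i).comp continuous_snd).neg
  exact (((h1 0).max (h1 1)).max (h1 2)).max (((h2 0).max (h2 1)).max (h2 2))

theorem neg_off_le_mo1 (p : ℂ × ℂ) (i : Fin 3) : -off p.1 i ≤ mo p := by
  unfold mo
  fin_cases i
  · exact ((le_max_left _ _).trans (le_max_left _ _)).trans (le_max_left _ _)
  · exact ((le_max_right _ _).trans (le_max_left _ _)).trans (le_max_left _ _)
  · exact (le_max_right _ _).trans (le_max_left _ _)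

theorem neg_off_le_mo2 (p : ℂ × ℂ) (i : Fin 3) : -off p.2 i ≤ mo p := by
  unfold mo
  fin_cases i
  · exact ((le_max_left _ _).trans (le_max_left _ _)).trans (le_max_right _ _)
  · exact ((le_max_right _ _).trans (le_max_left _ _)).trans (le_max_right _ _)
  · exact (le_max_right _ _).trans (le_max_right _ _)

theorem mo_eq (p : ℂ × ℂ) : (∃ i, mo p = -off p.1 i) ∨ (∃ i, mo p = -off p.2 i) := by
  unfold mo
  rcases max_choice (max (max (-off p.1 0) (-off p.1 1)) (-off p.1 2))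
    (max (max (-off p.2 0) (-off p.2 1)) (-off p.2 2)) with h | h
  · left
    rw [h]
    rcases max_choice (max (-off p.1 0) (-off p.1 1)) (-off p.1 2) with h' | h'
    · rw [h']
      rcases max_choice (-off p.1 0) (-off p.1 1) with h'' | h''
      · exact ⟨0, h''⟩
      · exact ⟨1, h''⟩
    · exact ⟨2, h'⟩
  · right
    rw [h]
    rcases max_choice (max (-off p.2 0) (-off p.2 1)) (-off p.2 2) with h' | h'
    · rw [h']
      rcases max_choice (-off p.2 0) (-off p.2 1) with h'' | h''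
      · exact ⟨0, h''⟩
      · exact ⟨1, h''⟩
    · exact ⟨2, h'⟩

theorem mo_pos {p : ℂ × ℂ} (hp : p ≠ 0) : 0 < mo p := by
  by_contra hcon
  push Not at hcon
  have h1 := fun i => neg_off_le_mo1 p i
  have h2 := fun i => neg_off_le_mo2 p i
  apply hp
  have a0 := h1 0
  have a1 := h1 1
  have a2 := h1 2
  have b0 := h2 0
  have b1 := h2 1
  have b2 := h2 2
  simp only [off_zero, off_one, off_two, neg_neg] at a0 a1 a2 b0 b1 b2
  apply Prod.ext
  · apply Complex.ext
    · simp only [Prod.fst_zero, Complex.zero_re]; linarith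
    · simp only [Prod.fst_zero, Complex.zero_im]; linarith
  · apply Complex.ext
    · simp only [Prod.snd_zero, Complex.zero_re]; linarith
    · simp only [Prod.snd_zero, Complex.zero_im]; linarith

/-- The product of two surfaces with coprime torsion has dimension at most three. -/
theorem sm_prod_of_ext {P Q : Type} [MetricSpace P] [MetricSpace Q]
    (hP : Sm (univ : Set P) 3) (hQ : Sm (univ : Set Q) 3) (h2 : Ext 2 P) (h3 : Ext 3 Q) :
    Sm (univ : Set (P × Q)) 4 := by
  intro ε hε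
  obtain ⟨ι, U, u, a1, a2, a3, a4, a5, a6, a7⟩ := exists_pou (hP ε hε)
  obtain ⟨κ, V, v, b1, b2, b3, b4, b5, b6, b7⟩ := exists_pou (hQ ε hε)
  set z : P → ℂ := fun x => ⟨u 1 x - 1 / 3, u 2 x - 1 / 3⟩ with hz
  set w : Q → ℂ := fun x => ⟨v 1 x - 1 / 3, v 2 x - 1 / 3⟩ with hw
  have hzc : Continuous z := by
    have : z = fun x => ((u 1 x - 1 / 3 : ℝ) : ℂ) + ((u 2 x - 1 / 3 : ℝ) : ℂ) * Complex.I := by
      funext x; apply Complex.ext <;> simp [hz]
    rw [this]
    have := a4 1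
    have := a4 2
    fun_prop
  have hwc : Continuous w := by
    have : w = fun x => ((v 1 x - 1 / 3 : ℝ) : ℂ) + ((v 2 x - 1 / 3 : ℝ) : ℂ) * Complex.I := by
      funext x; apply Complex.ext <;> simp [hw]
    rw [this]
    have := b4 1
    have := b4 2
    fun_prop
  have hoffz : ∀ x i, off (z x) i = u i x - 1 / 3 := by
    intro x i
    have := a6 x
    fin_cases i <;> simp [hz] <;> linarith
  have hoffw : ∀ x i, off (w x) i = v i x - 1 / 3 := by
    intro x i
    have := b6 x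
    fin_cases i <;> simp [hw] <;> linarith
  obtain ⟨Θ, hΘc, hΘ0, hΘ⟩ := exists_push h2 h3 hzc hwc (show (0 : ℝ) < 1 / 6 by norm_num)
  -- the pushed barycentric coordinates
  set uh : P × Q → Fin 3 → ℝ := fun x i => 1 / 3 + off (Θ x).1 i / (3 * mo (Θ x)) with huh
  set vh : P × Q → Fin 3 → ℝ := fun x i => 1 / 3 + off (Θ x).2 i / (3 * mo (Θ x)) with hvh
  have hmo : ∀ x, 0 < mo (Θ x) := fun x => mo_pos (hΘ0 x)
  have huhc : Continuous uh := by
    apply continuous_pi
    intro i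
    apply continuous_const.add
    exact ((continuous_off i).comp (continuous_fst.comp hΘc)).div
      (continuous_const.mul (continuous_mo.comp hΘc)) (fun x => (mul_pos (by norm_num : (0 : ℝ) < 3) (hmo x)).ne')
  have hvhc : Continuous vh := by
    apply continuous_pi
    intro i
    apply continuous_const.add
    exact ((continuous_off i).comp (continuous_snd.comp hΘc)).div
      (continuous_const.mul (continuous_mo.comp hΘc)) (fun x => (mul_pos (by norm_num : (0 : ℝ) < 3) (hmo x)).ne')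
  have huhs : ∀ x, uh x 0 + uh x 1 + uh x 2 = 1 := by
    intro x
    have := (hmo x).ne'
    simp only [huh, off_zero, off_one, off_two]
    field_simp
    ring
  have hvhs : ∀ x, vh x 0 + vh x 1 + vh x 2 = 1 := by
    intro x
    have := (hmo x).ne'
    simp only [hvh, off_zero, off_one, off_two]
    field_simp
    ring
  have hzero : ∀ x, (∃ i, uh x i = 0) ∨ (∃ i, vh x i = 0) := by
    intro x
    have hm := (hmo x).ne'
    rcases mo_eq (Θ x) with ⟨i, hi⟩ | ⟨i, hi⟩
    · left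
      refine ⟨i, ?_⟩
      have : off (Θ x).1 i = - mo (Θ x) := by linarith
      simp only [huh, this]
      field_simp
      ring
    · right
      refine ⟨i, ?_⟩
      have : off (Θ x).2 i = - mo (Θ x) := by linarith
      simp only [hvh, this]
      field_simp
      ring
  -- support property
  have hsmall : ∀ x : P × Q, ¬ ((1 / 6 : ℝ) ≤ ‖z x.1‖ ∨ 1 / 6 ≤ ‖w x.2‖) →
      (∀ i, 0 < u i x.1) ∧ (∀ i, 0 < v i x.2) := by
    intro x hx
    push Not at hx
    have e1 := Complex.abs_re_le_norm (z x.1)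
    have e2 := Complex.abs_im_le_norm (z x.1)
    have e3 := Complex.abs_re_le_norm (w x.2)
    have e4 := Complex.abs_im_le_norm (w x.2)
    have f1 := abs_lt.1 (e1.trans_lt hx.1)
    have f2 := abs_lt.1 (e2.trans_lt hx.1)
    have f3 := abs_lt.1 (e3.trans_lt hx.2)
    have f4 := abs_lt.1 (e4.trans_lt hx.2)
    simp only [hz] at f1 f2
    simp only [hw] at f3 f4
    have s1 := a6 x.1
    have s2 := b6 x.2
    constructor
    · intro i
      fin_cases i <;> simp <;> linarith [f1.1, f1.2, f2.1, f2.2]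
    · intro i
      fin_cases i <;> simp <;> linarith [f3.1, f3.2, f4.1, f4.2]
  have hsuppU : ∀ x i, 0 < uh x i → 0 < u i x.1 := by
    intro x i hi
    by_cases hx : (1 / 6 : ℝ) ≤ ‖z x.1‖ ∨ 1 / 6 ≤ ‖w x.2‖
    · have hm := hmo x
      have h5 : -mo (Θ x) < off (Θ x).1 i := by
        simp only [huh] at hi
        by_contra hcon
        push Not at hcon
        have : off (Θ x).1 i / (3 * mo (Θ x)) ≤ -(1 / 3) := by
          rw [div_le_iff₀ (by positivity)]
          linarith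
        linarith
      have h6 : mo (Θ x) ≤ 1 / 3 := by
        rcases mo_eq (Θ x) with ⟨j, hj⟩ | ⟨j, hj⟩
        · rw [hj, hΘ x hx, hoffz]
          linarith [a5 j x.1]
        · rw [hj, hΘ x hx, hoffw]
          linarith [b5 j x.2]
      rw [hΘ x hx] at h5
      simp only [hoffz] at h5
      rw [hΘ x hx] at h6
      linarith
    · exact (hsmall x hx).1 i
  have hsuppV : ∀ x i, 0 < vh x i → 0 < v i x.2 := by
    intro x i hi
    by_cases hx : (1 / 6 : ℝ) ≤ ‖z x.1‖ ∨ 1 / 6 ≤ ‖w x.2‖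
    · have hm := hmo x
      have h5 : -mo (Θ x) < off (Θ x).2 i := by
        simp only [hvh] at hi
        by_contra hcon
        push Not at hcon
        have : off (Θ x).2 i / (3 * mo (Θ x)) ≤ -(1 / 3) := by
          rw [div_le_iff₀ (by positivity)]
          linarith
        linarith
      have h6 : mo (Θ x) ≤ 1 / 3 := by
        rcases mo_eq (Θ x) with ⟨j, hj⟩ | ⟨j, hj⟩
        · rw [hj, hΘ x hx, hoffz]
          linarith [a5 j x.1]
        · rw [hj, hΘ x hx, hoffw]
          linarith [b5 j x.2]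
      rw [hΘ x hx] at h5
      simp only [hoffw] at h5
      rw [hΘ x hx] at h6
      linarith
    · exact (hsmall x hx).2 i
  -- the families
  refine ⟨(Fin 3 × ι) × (Fin 3 × κ), fun c p =>
    {x | x.1 ∈ U p.1.1 p.1.2 ∧ x.2 ∈ V p.2.1 p.2.2 ∧ Good c (uh x) p.1.1 ∧ Good c (vh x) p.2.1},
    ?_, ?_, ?_, ?_⟩
  · rintro c ⟨⟨i, a⟩, ⟨j, b⟩⟩
    exact ((a1 i a).preimage continuous_fst).inter (((b1 j b).preimage continuous_snd).inter
      (((isOpen_good c i).preimage huhc).inter ((isOpen_good c j).preimage hvhc)))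
  · rintro c ⟨⟨i, a⟩, ⟨j, b⟩⟩ ⟨⟨i', a'⟩, ⟨j', b'⟩⟩ hne
    rw [disjoint_left]
    rintro x ⟨x1, x2, x3, x4⟩ ⟨y1, y2, y3, y4⟩
    simp only at x1 x2 x3 x4 y1 y2 y3 y4
    have hii : i = i' := x3.unique y3
    have hjj : j = j' := x4.unique y4
    subst hii hjj
    by_cases haa : a = a'
    · subst haa
      by_cases hbb : b = b'
      · subst hbb; exact hne rfl
      · exact disjoint_left.1 (b2 j b b' hbb) x2 y2
    · exact disjoint_left.1 (a2 i a a' haa) x1 y1
  · rintro c ⟨⟨i, a⟩, ⟨j, b⟩⟩ x hx y hy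
    rw [Prod.dist_eq, max_lt_iff]
    exact ⟨a3 i a _ hx.2.1 _ hy.2.1, b3 j b _ hx.2.2.1 _ hy.2.2.1⟩
  · intro x _
    obtain ⟨c, i, j, hi, hj⟩ := exists_common_good (huhs x) (hvhs x) (hzero x)
    obtain ⟨a, ha⟩ := a7 i x.1 (hsuppU x i (hi.pos (by omega) (huhs x)))
    obtain ⟨b, hb⟩ := b7 j x.2 (hsuppV x j (hj.pos (by omega) (hvhs x)))
    exact ⟨c, ((i, a), (j, b)), ha, hb, hi, hj⟩

/-- product theorem in the case 2 + 2 -/
theorem sm_prod_two_two {P Q : Type} [PseudoMetricSpace P] [PseudoMetricSpace Q]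
    (hP : Sm (univ : Set P) 3) (hQ : Sm (univ : Set Q) 3) : Sm (univ : Set (P × Q)) 5 := by
  intro ε hε
  obtain ⟨ι, U, u, a1, a2, a3, a4, a5, a6, a7⟩ := exists_pou (hP ε hε)
  obtain ⟨κ, V, v, b1, b2, b3, b4, b5, b6, b7⟩ := exists_pou (hQ ε hε)
  set uh : P × Q → Fin 3 → ℝ := fun x i => u i x.1 with huh
  set vh : P × Q → Fin 3 → ℝ := fun x i => v i x.2 with hvh
  have huhc : Continuous uh := continuous_pi fun i => (a4 i).comp continuous_fst
  have hvhc : Continuous vh := continuous_pi fun i => (b4 i).comp continuous_snd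
  refine ⟨(Fin 3 × ι) × (Fin 3 × κ), fun c p =>
    {x | x.1 ∈ U p.1.1 p.1.2 ∧ x.2 ∈ V p.2.1 p.2.2 ∧ Good c (uh x) p.1.1 ∧ Good c (vh x) p.2.1},
    ?_, ?_, ?_, ?_⟩
  · rintro c ⟨⟨i, a⟩, ⟨j, b⟩⟩
    exact ((a1 i a).preimage continuous_fst).inter (((b1 j b).preimage continuous_snd).inter
      (((isOpen_good c i).preimage huhc).inter ((isOpen_good c j).preimage hvhc)))
  · rintro c ⟨⟨i, a⟩, ⟨j, b⟩⟩ ⟨⟨i', a'⟩, ⟨j', b'⟩⟩ hne
    rw [disjoint_left]
    rintro x ⟨x1, x2, x3, x4⟩ ⟨y1, y2, y3, y4⟩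
    simp only at x1 x2 x3 x4 y1 y2 y3 y4
    have hii : i = i' := x3.unique y3
    have hjj : j = j' := x4.unique y4
    subst hii hjj
    by_cases haa : a = a'
    · subst haa
      by_cases hbb : b = b'
      · subst hbb; exact hne rfl
      · exact disjoint_left.1 (b2 j b b' hbb) x2 y2
    · exact disjoint_left.1 (a2 i a a' haa) x1 y1
  · rintro c ⟨⟨i, a⟩, ⟨j, b⟩⟩ x hx y hy
    rw [Prod.dist_eq, max_lt_iff]
    exact ⟨a3 i a _ hx.2.1 _ hy.2.1, b3 j b _ hx.2.2.1 _ hy.2.2.1⟩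
  · intro x _
    obtain ⟨c, i, j, hi, hj⟩ := exists_common_good5 (u := uh x) (v := vh x) (a6 x.1) (b6 x.2)
    obtain ⟨a, ha⟩ := a7 i x.1 (hi.pos (by omega) (a6 x.1))
    obtain ⟨b, hb⟩ := b7 j x.2 (hj.pos (by omega) (b6 x.2))
    exact ⟨c, ((i, a), (j, b)), ha, hb, hi, hj⟩

end Pool.Agent.Helper52.CM
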