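import Mathlib

namespace Pool.Agent.Helper52.CM

open Set TopologicalSpace Topology

/-- every map from a closed subset to the circle has its `p`-th power extendable -/
def Ext (p : ℕ) (X : Type*) [TopologicalSpace X] : Prop :=
  ∀ (A : Set X), IsClosed A → ∀ f : C(A, Circle), ∃ F : C(X, Circle), ∀ a : A, F a = f a ^ p

/-- homotopy extension for nonvanishing maps -/
theorem hep {X : Type*} [TopologicalSpace X] [NormalSpace X] {E : Type*} [NormedAddCommGroup E]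
    [NormedSpace ℝ E] {K : Set X} (hK : IsClosed K) (H : X × ℝ → E) (hH : Continuous H)
    (hne : ∀ x ∈ K, ∀ t ∈ Icc (0 : ℝ) 1, H (x, t) ≠ 0) (g : X → E) (hg : Continuous g)
    (hg0 : ∀ x, g x ≠ 0) (hgK : ∀ x ∈ K, H (x, 1) = g x) :
    ∃ g0 : X → E, Continuous g0 ∧ (∀ x, g0 x ≠ 0) ∧ ∀ x ∈ K, g0 x = H (x, 0) := by
  set G : X × ℝ → E := fun p => H p + p.2 • (g p.1 - H (p.1, 1)) with hG
  have hGc : Continuous G := by
    rw [hG]
    fun_prop
  set B : Set X := Prod.fst '' {p : X × Icc (0 : ℝ) 1 | G (p.1, p.2) = 0} with hB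
  have hBc : IsClosed B := by
    apply isClosedMap_fst_of_compactSpace
    exact isClosed_eq (by fun_prop) continuous_const
  have hdisj : Disjoint K B := by
    rw [disjoint_left]
    rintro x hxK ⟨⟨y, t⟩, hyt, rfl⟩
    simp only [hG, mem_ofPred_eq] at hyt
    have h1 := hgK y hxK
    rw [h1, sub_self, smul_zero, add_zero] at hyt
    exact hne y hxK t t.2 hyt
  obtain ⟨l, hl0, hl1, hl⟩ := exists_continuous_zero_one_of_isClosed hK hBc hdisj
  refine ⟨fun x => G (x, l x), by fun_prop, ?_, ?_⟩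
  · intro x h
    by_cases hx : x ∈ B
    · have h1 : l x = 1 := hl1 hx
      simp only [hG] at h
      rw [h1, one_smul, add_sub_cancel] at h
      exact hg0 x h
    · exact hx ⟨(x, ⟨l x, hl x⟩), h, rfl⟩
  · intro x hx
    have h1 : l x = 0 := hl0 hx
    simp only [hG, h1, zero_smul, add_zero]

/-- radial truncation -/
noncomputable def trc (r : ℝ) (z : ℂ) : ℂ := z / (max r ‖z‖ : ℝ)

theorem continuous_trc {r : ℝ} (hr : 0 < r) : Continuous (trc r) := by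
  unfold trc
  apply Continuous.div continuous_id
  · exact Complex.continuous_ofReal.comp (continuous_const.max continuous_norm)
  · intro z
    have : (0 : ℝ) < max r ‖z‖ := lt_max_of_lt_left hr
    exact_mod_cast this.ne'

theorem trc_norm_le {r : ℝ} (hr : 0 < r) (z : ℂ) : ‖trc r z‖ ≤ 1 := by
  unfold trc
  rw [norm_div, Complex.norm_real, Real.norm_eq_abs]
  have : (0 : ℝ) < max r ‖z‖ := lt_max_of_lt_left hr
  rw [abs_of_pos this, div_le_one this]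
  exact le_max_right _ _

theorem trc_norm_eq {r : ℝ} (hr : 0 < r) {z : ℂ} (hz : r ≤ ‖z‖) : ‖trc r z‖ = 1 := by
  unfold trc
  rw [norm_div, Complex.norm_real, Real.norm_eq_abs, max_eq_right hz, abs_of_pos (hr.trans_le hz)]
  exact div_self (hr.trans_le hz).ne'

theorem trc_eq_zero {r : ℝ} (hr : 0 < r) {z : ℂ} : trc r z = 0 ↔ z = 0 := by
  unfold trc
  have : (0 : ℝ) < max r ‖z‖ := lt_max_of_lt_left hr
  rw [div_eq_zero_iff]
  constructor
  · rintro (h | h)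
    · exact h
    · exact absurd (by exact_mod_cast h) this.ne'
  · intro h; exact Or.inl h

/-- the algebraic combination (quaternionic quotient) -/
def qmul (p q : ℂ × ℂ) : ℂ × ℂ :=
  (p.1 * starRingEnd ℂ q.1 + p.2 * starRingEnd ℂ q.2, p.2 * q.1 - p.1 * q.2)

theorem continuous_qmul : Continuous fun x : (ℂ × ℂ) × (ℂ × ℂ) => qmul x.1 x.2 := by
  unfold qmul
  have := Complex.continuous_conj
  fun_prop

theorem qmul_ne_zero {p q : ℂ × ℂ} (hp : p ≠ 0) (hq : q ≠ 0) : qmul p q ≠ 0 := by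
  intro h
  obtain ⟨a, b⟩ := p
  obtain ⟨c, d⟩ := q
  have h1 : a * starRingEnd ℂ c + b * starRingEnd ℂ d = 0 := congrArg Prod.fst h
  have h2 : b * c - a * d = 0 := congrArg Prod.snd h
  -- a (|c|^2 + |d|^2) = 0 and b (|c|^2+|d|^2) = 0
  have e1 : a * (c * starRingEnd ℂ c + d * starRingEnd ℂ d) = 0 := by
    linear_combination c * h1 - starRingEnd ℂ d * h2
  have e2 : b * (c * starRingEnd ℂ c + d * starRingEnd ℂ d) = 0 := by
    linear_combination d * h1 + starRingEnd ℂ c * h2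
  have e3 : c * starRingEnd ℂ c + d * starRingEnd ℂ d ≠ 0 := by
    rw [Complex.mul_conj, Complex.mul_conj]
    intro h0
    have h0' : Complex.normSq c + Complex.normSq d = 0 := by exact_mod_cast h0
    have n1 := Complex.normSq_nonneg c
    have n2 := Complex.normSq_nonneg d
    have c0 : c = 0 := Complex.normSq_eq_zero.1 (by linarith)
    have d0 : d = 0 := Complex.normSq_eq_zero.1 (by linarith)
    exact hq (by rw [c0, d0]; rfl)
  have a0 := (mul_eq_zero.1 e1).resolve_right e3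
  have b0 := (mul_eq_zero.1 e2).resolve_right e3
  exact hp (by rw [a0, b0]; rfl)

/-- first stage nonvanishing -/
theorem stageA_ne {z w : ℂ} (hzw : ¬ (z = 0 ∧ w = 0)) {t : ℝ} (ht : t ∈ Icc (0 : ℝ) 1) :
    ((‖z‖ ^ 2 : ℝ) * starRingEnd ℂ z + (‖w‖ ^ 2 : ℝ) * w ^ 2,
      (t : ℂ) * (z * w * (w ^ 2 * z - 1)) + (1 - t : ℝ) * starRingEnd ℂ w) ≠ (0 : ℂ × ℂ) := by
  intro h
  have h1 : ((‖z‖ ^ 2 : ℝ) : ℂ) * starRingEnd ℂ z + (‖w‖ ^ 2 : ℝ) * w ^ 2 = 0 := congrArg Prod.fst h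
  have h2 : (t : ℂ) * (z * w * (w ^ 2 * z - 1)) + (1 - t : ℝ) * starRingEnd ℂ w = 0 :=
    congrArg Prod.snd h
  by_cases hw : w = 0
  · subst hw
    simp only [norm_zero, ne_eq, OfNat.ofNat_ne_zero, not_false_eq_true, zero_pow, Complex.ofReal_zero,
      mul_zero, add_zero, mul_eq_zero, Complex.ofReal_eq_zero, pow_eq_zero_iff, norm_eq_zero,
      map_eq_zero, or_self] at h1
    exact hzw ⟨h1, rfl⟩
  have hwn : 0 < ‖w‖ := norm_pos_iff.2 hw
  have hz : z ≠ 0 := by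
    rintro rfl
    simp at h1
    exact hw h1
  have hzn : 0 < ‖z‖ := norm_pos_iff.2 hz
  have hzz : starRingEnd ℂ z * z = ((‖z‖ ^ 2 : ℝ) : ℂ) := by
    rw [mul_comm, Complex.mul_conj, Complex.normSq_eq_norm_sq]
  have hww : starRingEnd ℂ w * w = ((‖w‖ ^ 2 : ℝ) : ℂ) := by
    rw [mul_comm, Complex.mul_conj, Complex.normSq_eq_norm_sq]
  -- w^2 z = - κ
  set κ : ℝ := ‖z‖ ^ 4 / ‖w‖ ^ 2 with hκ
  have hκpos : 0 < κ := by positivity
  have hwz : w ^ 2 * z = -(κ : ℂ) := by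
    have e : ((‖w‖ ^ 2 : ℝ) : ℂ) * (w ^ 2 * z) = -((‖z‖ ^ 4 : ℝ) : ℂ) := by
      have e' : ((‖z‖ ^ 4 : ℝ) : ℂ) = ((‖z‖ ^ 2 : ℝ) : ℂ) * ((‖z‖ ^ 2 : ℝ) : ℂ) := by
        push_cast; ring
      rw [e']
      linear_combination z * h1 - ((‖z‖ ^ 2 : ℝ) : ℂ) * hzz
    have hne : ((‖w‖ ^ 2 : ℝ) : ℂ) ≠ 0 := by
      have : (‖w‖ ^ 2 : ℝ) ≠ 0 := by positivity
      exact_mod_cast this
    have : w ^ 2 * z = -((‖z‖ ^ 4 : ℝ) : ℂ) / ((‖w‖ ^ 2 : ℝ) : ℂ) := by
      rw [eq_div_iff hne, mul_comm]; exact e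
    rw [this, hκ]
    push_cast
    ring
  have h3 : ((t * (κ * (κ + 1)) + (1 - t) * ‖w‖ ^ 2 : ℝ) : ℂ) = 0 := by
    push_cast
    have e1 : (z * w ^ 2 * (w ^ 2 * z - 1)) = κ * (κ + 1) := by
      rw [show z * w ^ 2 = w ^ 2 * z by ring, hwz]; ring
    have e2 : starRingEnd ℂ w * w = (‖w‖ : ℂ) ^ 2 := by rw [hww]; push_cast; ring
    push_cast at h2
    linear_combination w * h2 - (t : ℂ) * e1 - (1 - (t : ℂ)) * e2
  have h4 : t * (κ * (κ + 1)) + (1 - t) * ‖w‖ ^ 2 = 0 := by exact_mod_cast h3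
  have h5 : 0 < κ * (κ + 1) := by positivity
  have h6 : 0 < ‖w‖ ^ 2 := by positivity
  rcases eq_or_lt_of_le ht.1 with h0 | h0
  · rw [← h0] at h4; simp at h4; exact hw h4
  · have : 0 < t * (κ * (κ + 1)) := mul_pos h0 h5
    have : 0 ≤ (1 - t) * ‖w‖ ^ 2 := mul_nonneg (by linarith [ht.2]) h6.le
    linarith

theorem stageB_ne {z w : ℂ} (hzw : ¬ (z = 0 ∧ w = 0)) {t : ℝ} (ht : t ∈ Icc (0 : ℝ) 1) :
    ((t : ℂ) * ((‖z‖ ^ 2 : ℝ) * starRingEnd ℂ z + (‖w‖ ^ 2 : ℝ) * w ^ 2) +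
      (1 - t : ℝ) * starRingEnd ℂ z, starRingEnd ℂ w) ≠ (0 : ℂ × ℂ) := by
  intro h
  have h1 := congrArg Prod.fst h
  have h2 : starRingEnd ℂ w = 0 := congrArg Prod.snd h
  simp only [Prod.fst_zero] at h1
  have hw : w = 0 := by simpa using h2
  subst hw
  have e : ((t * ‖z‖ ^ 2 + (1 - t) : ℝ) : ℂ) * starRingEnd ℂ z = 0 := by
    push_cast
    push_cast at h1
    simp only [norm_zero] at h1
    push_cast at h1
    linear_combination h1
  have hz : z ≠ 0 := fun h => hzw ⟨h, rfl⟩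
  have hz' : starRingEnd ℂ z ≠ 0 := by simpa using hz
  have e2 := (mul_eq_zero.1 e).resolve_right hz'
  have e3 : t * ‖z‖ ^ 2 + (1 - t) = 0 := by exact_mod_cast e2
  have hzn : 0 < ‖z‖ := norm_pos_iff.2 hz
  have h6 : 0 < ‖z‖ ^ 2 := by positivity
  rcases eq_or_lt_of_le ht.1 with h0 | h0
  · rw [← h0] at e3; simp at e3
  · have : 0 < t * ‖z‖ ^ 2 := mul_pos h0 h6
    linarith [ht.2]

end Pool.Agent.Helper52.CM
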