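import Pool.Agent.Helper52.CM.Sym
import Pool.Agent.Helper52.CM.Partition

namespace Pool.Agent.Helper52.CM

open Set TopologicalSpace Topology

section
variable {P Q : Set HS} {b c : ℝ → HS} {p q : ℕ}

/-- the four-dimensional cube embeds in the symmetric square -/
theorem not_sm_symProd (hP : Piece p P b) (hQ : Piece q Q c) :
    ¬ Sm (univ : Set (SymProd (ESet P Q b c) 2)) 4 := by
  intro h
  apply not_covLT_cube 4
  rw [← sm_iff_covLT isCompact_Icc isClosed_Icc]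
  let κ : ℝ → ℝ := fun s => (projIcc (0 : ℝ) 1 zero_le_one s : ℝ)
  have hκc : Continuous κ := continuous_subtype_val.comp continuous_projIcc
  have hκm : ∀ s, κ s ∈ Icc (0 : ℝ) 1 := fun s => (projIcc (0 : ℝ) 1 zero_le_one s).2
  have hκe : ∀ s ∈ Icc (0 : ℝ) 1, κ s = s := fun s hs => by
    simp only [κ]
    rw [projIcc_of_mem _ hs]
  let sq : ℝ → ℝ → ESet P Q b c := fun s t => ⟨(b (κ s), c (κ t)),
    square_subset_ESet ⟨⟨κ s, hκm s, rfl⟩, ⟨κ t, hκm t, rfl⟩⟩⟩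
  have hsqc : Continuous fun x : ℝ × ℝ => sq x.1 x.2 := by
    apply Continuous.subtype_mk
    exact (hP.cont.comp (hκc.comp continuous_fst)).prodMk
      (hQ.cont.comp (hκc.comp continuous_snd))
  have hsqi : ∀ s ∈ Icc (0 : ℝ) 1, ∀ t ∈ Icc (0 : ℝ) 1, ∀ s' ∈ Icc (0 : ℝ) 1,
      ∀ t' ∈ Icc (0 : ℝ) 1, sq s t = sq s' t' → s = s' ∧ t = t' := by
    intro s hs t ht s' hs' t' ht' hst
    have h1 := congrArg (fun x : ESet P Q b c => x.1.1) hst
    have h2 := congrArg (fun x : ESet P Q b c => x.1.2) hst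
    simp only [sq] at h1 h2
    rw [hκe s hs, hκe s' hs'] at h1
    rw [hκe t ht, hκe t' ht'] at h2
    exact ⟨hP.injOn hs hs' h1, hQ.injOn ht ht' h2⟩
  let g : (Fin 4 → ℝ) → SymProd (ESet P Q b c) 2 := fun x =>
    pp (sq (x 0 / 3) (x 1), sq (2 / 3 + x 2 / 3) (x 3))
  have hg : Continuous g := by
    apply continuous_pp.comp
    apply Continuous.prodMk
    · exact hsqc.comp (g := fun x : ℝ × ℝ => sq x.1 x.2)
        (f := fun x : Fin 4 → ℝ => (x 0 / 3, x 1)) (by fun_prop)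
    · exact hsqc.comp (g := fun x : ℝ × ℝ => sq x.1 x.2)
        (f := fun x : Fin 4 → ℝ => (2 / 3 + x 2 / 3, x 3)) (by fun_prop)
  apply Sm.of_injOn hg isCompact_Icc (mapsTo_univ _ _) _ h
  intro x hx y hy hxy
  have hx' : ∀ i, x i ∈ Icc (0 : ℝ) 1 := fun i => ⟨hx.1 i, hx.2 i⟩
  have hy' : ∀ i, y i ∈ Icc (0 : ℝ) 1 := fun i => ⟨hy.1 i, hy.2 i⟩
  have a1 : ∀ s ∈ Icc (0 : ℝ) 1, s / 3 ∈ Icc (0 : ℝ) 1 := fun s hs =>
    ⟨by linarith [hs.1], by linarith [hs.2]⟩
  have a2 : ∀ s ∈ Icc (0 : ℝ) 1, 2 / 3 + s / 3 ∈ Icc (0 : ℝ) 1 := fun s hs =>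
    ⟨by linarith [hs.1], by linarith [hs.2]⟩
  rcases pp_eq_iff.1 hxy with h' | h'
  · obtain ⟨h0, h1⟩ := hsqi _ (a1 _ (hx' 0)) _ (hx' 1) _ (a1 _ (hy' 0)) _ (hy' 1) h'.1
    obtain ⟨h2, h3⟩ := hsqi _ (a2 _ (hx' 2)) _ (hx' 3) _ (a2 _ (hy' 2)) _ (hy' 3) h'.2
    have : x = y := by
      funext i
      fin_cases i
      · show x 0 = y 0; linarith
      · exact h1
      · show x 2 = y 2; linarith
      · exact h3
    rw [this, dist_self]
  · obtain ⟨h0, h1⟩ := hsqi _ (a1 _ (hx' 0)) _ (hx' 1) _ (a2 _ (hy' 2)) _ (hy' 3) h'.1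
    linarith [(hx' 0).2, (hy' 2).1]

theorem ESet_cases {e : HS × HS} (he : e ∈ ESet P Q b c) (h : e.1 ∉ b '' Icc 0 1) :
    e.1 ∈ P ∧ e.2 = c 0 := by
  rcases he with (he | he) | he
  · exact ⟨he.1, he.2⟩
  · exact absurd he.1 h
  · exact absurd ⟨0, ⟨le_rfl, zero_le_one⟩, (mem_singleton_iff.1 he.1).symm⟩ h

theorem ESet_cases' {e : HS × HS} (he : e ∈ ESet P Q b c) (h : e.2 ∉ c '' Icc 0 1) :
    e.2 ∈ Q ∧ e.1 = b 0 := by
  rcases he with (he | he) | he
  · exact absurd ⟨0, ⟨le_rfl, zero_le_one⟩, (mem_singleton_iff.1 he.2).symm⟩ h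
  · exact absurd he.2 h
  · exact ⟨he.2, he.1⟩

theorem exists_radius (hP : Piece p P b) : ∃ s ρ, 0 < ρ ∧
    ∀ x, dist x (b s) ≤ ρ → x ∉ b '' Icc 0 1 := by
  obtain ⟨s, hs⟩ := hP.off
  have hL : IsClosed (b '' Icc 0 1) := (isCompact_Icc.image hP.cont).isClosed
  obtain ⟨ρ, hρ, h⟩ := Metric.isOpen_iff.1 hL.isOpen_compl (b s) hs
  refine ⟨s, ρ / 2, by positivity, fun x hx => h ?_⟩
  rw [Metric.mem_ball]
  linarith

theorem exists_separator (hP : Piece 2 P b) (hQ : Piece 3 Q c) :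
    ∃ C : Set (SymProd (ESet P Q b c) 2), IsClosed C ∧ Sm C 3 ∧ ¬ IsPreconnected Cᶜ := by
  have : CompactSpace (ESet P Q b c) := isCompact_iff_compactSpace.1 (isCompact_ESet hP hQ)
  obtain ⟨s, ρ, hρ, hs⟩ := exists_radius hP
  obtain ⟨t, σ, hσ, ht⟩ := exists_radius hQ
  set A : Set HS := P ∩ {x | dist x (b s) ≤ ρ} with hA
  set B : Set HS := Q ∩ {y | dist y (c t) ≤ σ} with hB
  have cA : IsClosed {x : HS | dist x (b s) ≤ ρ} := Metric.isClosed_closedBall
  have cB : IsClosed {y : HS | dist y (c t) ≤ σ} := Metric.isClosed_closedBall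
  have hAc : IsCompact A := hP.compact.inter_right cA
  have hBc : IsCompact B := hQ.compact.inter_right cB
  have : CompactSpace A := isCompact_iff_compactSpace.1 hAc
  have : CompactSpace B := isCompact_iff_compactSpace.1 hBc
  have hsm : Sm (univ : Set (A × B)) (3 + 1) :=
    sm_prod_of_ext (hP.sm.mono_set inter_subset_left).subtype
      (hQ.sm.mono_set inter_subset_left).subtype
      (hP.ext.subset hAc.isClosed inter_subset_left) (hQ.ext.subset hBc.isClosed inter_subset_left)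
  let x0 : A := ⟨b s, hP.mem s, by show dist (b s) (b s) ≤ ρ; rw [dist_self]; exact hρ.le⟩
  let y0 : B := ⟨c t, hQ.mem t, by show dist (c t) (c t) ≤ σ; rw [dist_self]; exact hσ.le⟩
  have hF : IsClosed {z : A × B | ρ / 2 ≤ dist z.1.1 (b s) ∨ σ / 2 ≤ dist z.2.1 (c t)} := by
    have f1 : IsClosed {z : A × B | ρ / 2 ≤ dist z.1.1 (b s)} :=
      isClosed_le continuous_const (by fun_prop)
    have f2 : IsClosed {z : A × B | σ / 2 ≤ dist z.2.1 (c t)} :=
      isClosed_le continuous_const (by fun_prop)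
    exact f1.union f2
  obtain ⟨U, V, hU, hV, hAU, hFV, hUV, hC0⟩ := exists_partition hsm
    (isClosed_singleton (x := ((x0, y0) : A × B))) hF (by
      rw [disjoint_singleton_left]
      rintro (h | h)
      · have h' : ρ / 2 ≤ dist (b s) (b s) := h
        rw [dist_self] at h'; linarith
      · have h' : σ / 2 ≤ dist (c t) (c t) := h
        rw [dist_self] at h'; linarith)
  -- the map to pairs
  let Ψ : A × B → (ESet P Q b c) × (ESet P Q b c) := fun z =>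
    (⟨(z.1.1, c 0), Or.inl (Or.inl ⟨z.1.2.1, rfl⟩)⟩, ⟨(b 0, z.2.1), Or.inr ⟨rfl, z.2.2.1⟩⟩)
  have hΨc : Continuous Ψ := by
    apply Continuous.prodMk
    · apply Continuous.subtype_mk; fun_prop
    · apply Continuous.subtype_mk; fun_prop
  let Φ : A × B → SymProd (ESet P Q b c) 2 := fun z => pp (Ψ z)
  have hΦc : Continuous Φ := continuous_pp.comp hΨc
  have h0 : b 0 ∈ b '' Icc 0 1 := ⟨0, ⟨le_rfl, zero_le_one⟩, rfl⟩
  have hne : ∀ z : A × B, ∀ y : HS, (z.1.1, c 0) ≠ (b 0, y) := by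
    intro z y h
    apply hs z.1.1 z.1.2.2
    rw [show z.1.1 = b 0 from congrArg Prod.fst h]
    exact h0
  have hΦi : Function.Injective Φ := by
    intro z w h
    rcases pp_eq_iff.1 h with h' | h'
    · have e1 : z.1.1 = w.1.1 := congrArg (fun e : ESet P Q b c => e.1.1) h'.1
      have e2 : z.2.1 = w.2.1 := congrArg (fun e : ESet P Q b c => e.1.2) h'.2
      exact Prod.ext (Subtype.ext e1) (Subtype.ext e2)
    · exact absurd (congrArg Subtype.val h'.1) (hne z w.2.1)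
  have hΦcl : IsClosedMap Φ := hΦc.isClosedMap
  have hUopen : IsOpen (Φ '' U) := by
    rw [← pp_isOpen_iff]
    have hind : Topology.IsInducing (fun z : A × B => ((z.1.1, z.2.1) : HS × HS)) :=
      Topology.IsInducing.subtypeVal.prodMap Topology.IsInducing.subtypeVal
    obtain ⟨O, hO, hOU⟩ := hind.isOpen_iff.1 hU
    set W : Set ((ESet P Q b c) × (ESet P Q b c)) :=
      {e | dist e.1.1.1 (b s) < ρ ∧ dist e.2.1.2 (c t) < σ ∧ (e.1.1.1, e.2.1.2) ∈ O} with hW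
    have hWo : IsOpen W := by
      have k1 : IsOpen {e : (ESet P Q b c) × (ESet P Q b c) | dist e.1.1.1 (b s) < ρ} :=
        isOpen_lt (by fun_prop) continuous_const
      have k2 : IsOpen {e : (ESet P Q b c) × (ESet P Q b c) | dist e.2.1.2 (c t) < σ} :=
        isOpen_lt (by fun_prop) continuous_const
      have k3 : IsOpen {e : (ESet P Q b c) × (ESet P Q b c) | (e.1.1.1, e.2.1.2) ∈ O} :=
        hO.preimage (by fun_prop)
      exact k1.inter (k2.inter k3)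
    have hWU : W = Ψ '' U := by
      ext e
      constructor
      · rintro ⟨h1, h2, h3⟩
        obtain ⟨m1, m2⟩ := ESet_cases e.1.2 (hs _ h1.le)
        obtain ⟨m3, m4⟩ := ESet_cases' e.2.2 (ht _ h2.le)
        have hz : (((⟨e.1.1.1, m1, h1.le⟩ : A), (⟨e.2.1.2, m3, h2.le⟩ : B)) : A × B) ∈ U := by
          rw [← hOU]; exact h3
        refine ⟨_, hz, ?_⟩
        apply Prod.ext
        · apply Subtype.ext
          exact Prod.ext rfl m2.symm
        · apply Subtype.ext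
          exact Prod.ext m4.symm rfl
      · rintro ⟨z, hz, rfl⟩
        have hzV : z ∉ V := disjoint_left.1 hUV hz
        have hzF : ¬ (ρ / 2 ≤ dist z.1.1 (b s) ∨ σ / 2 ≤ dist z.2.1 (c t)) := fun h =>
          hzV (hFV h)
        push Not at hzF
        refine ⟨?_, ?_, ?_⟩
        · show dist z.1.1 (b s) < ρ
          linarith [hzF.1]
        · show dist z.2.1 (c t) < σ
          linarith [hzF.2]
        · rw [← hOU] at hz; exact hz
    have hpre : pp ⁻¹' (Φ '' U) = W ∪ Prod.swap ⁻¹' W := by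
      ext e
      rw [hWU]
      constructor
      · rintro ⟨z, hz, hze⟩
        rcases pp_eq_iff.1 hze with h | h
        · exact Or.inl ⟨z, hz, Prod.ext h.1 h.2⟩
        · exact Or.inr ⟨z, hz, Prod.ext h.1 h.2⟩
      · rintro (⟨z, hz, hze⟩ | ⟨z, hz, hze⟩)
        · exact ⟨z, hz, congrArg pp hze⟩
        · refine ⟨z, hz, ?_⟩
          apply pp_eq_iff.2
          exact Or.inr ⟨congrArg Prod.fst hze, congrArg Prod.snd hze⟩
    rw [hpre]
    exact hWo.union (hWo.preimage continuous_swap)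
  have hVcl : IsClosed (Φ '' Vᶜ) := hΦcl _ hV.isClosed_compl
  have hC0cl : IsClosed (U ∪ V)ᶜ := (hU.union hV).isClosed_compl
  refine ⟨Φ '' (U ∪ V)ᶜ, hΦcl _ hC0cl,
    Sm.image_injOn hΦc.continuousOn hC0cl.isCompact hΦi.injOn hC0, ?_⟩
  intro hpre
  have hx0 : Φ (x0, y0) ∈ Φ '' U := ⟨_, hAU rfl, rfl⟩
  have h1 : ((Φ '' (U ∪ V)ᶜ)ᶜ ∩ Φ '' U).Nonempty := by
    refine ⟨Φ (x0, y0), ?_, hx0⟩
    rintro ⟨w, hw, hwe⟩
    rw [hΦi hwe] at hw
    exact hw (Or.inl (hAU rfl))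
  have h2 : ((Φ '' (U ∪ V)ᶜ)ᶜ ∩ (Φ '' Vᶜ)ᶜ).Nonempty := by
    let e0 : ESet P Q b c := ⟨(b 0, c 0), Or.inr ⟨rfl, hQ.mem 0⟩⟩
    have hno : ∀ w, Φ w ≠ pp (e0, e0) := by
      intro w hw
      rcases pp_eq_iff.1 hw with h | h
      · exact absurd (congrArg Subtype.val h.1) (hne w (c 0))
      · exact absurd (congrArg Subtype.val h.1) (hne w (c 0))
    refine ⟨pp (e0, e0), ?_, ?_⟩
    · rintro ⟨w, -, hw⟩
      exact hno w hw
    · rintro ⟨w, -, hw⟩
      exact hno w hw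
  obtain ⟨z, hz, hzU, hzV⟩ := hpre (Φ '' U) (Φ '' Vᶜ)ᶜ hUopen hVcl.isOpen_compl (by
    intro z hz
    by_contra hcon
    rw [mem_union, not_or, notMem_compl_iff] at hcon
    obtain ⟨h3, w, hw, rfl⟩ := hcon
    apply hz
    refine ⟨w, ?_, rfl⟩
    rintro (h4 | h4)
    · exact h3 ⟨w, h4, rfl⟩
    · exact hw h4) h1 h2
  obtain ⟨w, hw, rfl⟩ := hzU
  exact hzV ⟨w, disjoint_left.1 hUV hw, rfl⟩

end

/-- the counterexample -/
theorem main : ∃ (E : Type) (_ : MetricSpace E) (_ : CompactSpace E), IsCantorManifold E 2 ∧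
    Dim (SymProd E 2) = 4 ∧ ∃ C : Set (SymProd E 2), IsClosed C ∧ Dim C ≤ 2 ∧
      ¬ IsPreconnected Cᶜ := by
  obtain ⟨P, b, hP⟩ := exists_piece (p := 2) (by norm_num)
  obtain ⟨Q, c, hQ⟩ := exists_piece (p := 3) (by norm_num)
  have hcp := isCompact_ESet hP hQ
  have hcs : CompactSpace (ESet P Q b c) := isCompact_iff_compactSpace.1 hcp
  refine ⟨ESet P Q b c, inferInstance, hcs, ESet_isCantorManifold hP hQ, ?_, ?_⟩
  · have h3 : Sm (univ : Set (ESet P Q b c)) 3 := (sm_ESet hP hQ).subtype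
    have h5 := sm_symProd (h3.mono_nat (by norm_num)) (sm_prod_two_two h3 h3)
    have := dim_eq_of (n := 3) (sm_univ_iff_covLT.1 h5)
      (fun h => not_sm_symProd hP hQ (sm_univ_iff_covLT.2 h))
    rw [this]
    norm_num
  · obtain ⟨C, hC, hCs, hCp⟩ := exists_separator hP hQ
    refine ⟨C, hC, ?_, hCp⟩
    have := dim_le_iff.2 (hCs.covLT hC.isCompact)
    exact_mod_cast this

end Pool.Agent.Helper52.CM
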