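import Pool.Agent.Helper52.CM.Square
import Pool.Agent.Helper52.CM.Cube

namespace Pool.Agent.Helper52.CM

open Set TopologicalSpace Topology

/-- the two-dimensional building blocks -/
structure Piece (p : ℕ) (P : Set HS) (b : ℝ → HS) : Prop where
  compact : IsCompact P
  sm : Sm P 3
  ext : Ext p P
  cont : Continuous b
  coord : ∀ s ∈ Icc (0 : ℝ) 1, ∀ t ∈ Icc (0 : ℝ) 1, (b s 0).re = (b t 0).re → s = t
  mem : ∀ s, b s ∈ P
  off : ∃ s, b s ∉ b '' Icc 0 1
  conn : ∀ C, IsClosed C → Sm (P ∩ C) 1 → IsPreconnected (P \ C)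

theorem Piece.injOn {p : ℕ} {P : Set HS} {b : ℝ → HS} (h : Piece p P b) :
    InjOn b (Icc 0 1) := by
  intro s hs t ht hst
  apply h.coord s hs t ht
  rw [hst]

theorem Ext.subset {Z : Type} [TopologicalSpace Z] {X P : Set Z}
    (hP : IsClosed P) (hPX : P ⊆ X) {p : ℕ} (h : Ext p X) : Ext p P := by
  intro A hA f
  let j : P → X := fun y => ⟨y.1, hPX y.2⟩
  have hj : Continuous j := by
    apply Continuous.subtype_mk
    exact continuous_subtype_val
  have hcl : IsClosed (j '' A) := by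
    have h1 : IsClosed (Subtype.val '' A : Set Z) :=
      hP.isClosedEmbedding_subtypeVal.isClosedMap _ hA
    have h2 : j '' A = Subtype.val ⁻¹' (Subtype.val '' A : Set Z) := by
      ext x
      constructor
      · rintro ⟨y, hy, rfl⟩
        exact ⟨y, hy, rfl⟩
      · rintro ⟨y, hy, hyx⟩
        exact ⟨y, hy, Subtype.ext hyx⟩
    rw [h2]
    exact h1.preimage continuous_subtype_val
  let k : (j '' A : Set X) → A := fun x => ⟨⟨x.1.1, by
    obtain ⟨y, -, hy⟩ := x.2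
    rw [← hy]; exact y.2⟩, by
    obtain ⟨y, hyA, hy⟩ := x.2
    have h2 : y.1 = x.1.1 := congrArg Subtype.val hy
    have : ∀ z : P, z.1 = x.1.1 → z ∈ A := fun z hz => by
      have : z = y := Subtype.ext (hz.trans h2.symm)
      rw [this]; exact hyA
    exact this _ rfl⟩
  have hk : Continuous k := by
    apply Continuous.subtype_mk
    apply Continuous.subtype_mk
    exact continuous_subtype_val.comp continuous_subtype_val
  obtain ⟨F, hF⟩ := h (j '' A) hcl (f.comp ⟨k, hk⟩)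
  refine ⟨F.comp ⟨j, hj⟩, fun a => ?_⟩
  exact hF ⟨j a.1, a.1, a.2, rfl⟩

theorem exists_piece {p : ℕ} (hp : 1 < p) : ∃ P b, Piece p P b := by
  obtain ⟨P, hPX, hP⟩ := exists_minimal hp
  obtain ⟨b, hb, hb2⟩ := exists_param p
  have hPc : IsCompact P := (isCompact_XX p).of_isClosed_subset hP.closedP hPX
  have hre : ∀ s, (b s 0).re = Real.cos s := by
    intro s
    rw [(hb2 s).2, Complex.exp_ofReal_mul_I_re]
  have hpi := Real.two_le_pi
  refine ⟨P, b, ⟨hPc, (sm_XX p).mono_set hPX, (ext_XX p).subset hP.closedP hPX,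
    hb, ?_, fun s => hP.sub (hb2 s).1, ⟨Real.pi, ?_⟩, fun C hC hs => hP.isPreconnected hPc hC hs⟩⟩
  · intro s hs t ht h
    rw [hre, hre] at h
    exact Real.injOn_cos ⟨hs.1, by linarith [hs.2]⟩ ⟨ht.1, by linarith [ht.2]⟩ h
  · rintro ⟨s, hs, hsb⟩
    have h1 : (b s 0).re = (b Real.pi 0).re := by rw [hsb]
    rw [hre, hre] at h1
    have h2 := Real.injOn_cos ⟨hs.1, by linarith [hs.2]⟩ ⟨Real.pi_pos.le, le_rfl⟩ h1
    linarith [hs.2]

/-- the compactum -/
def ESet (P Q : Set HS) (b c : ℝ → HS) : Set (HS × HS) :=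
  P ×ˢ {c 0} ∪ (b '' Icc 0 1) ×ˢ (c '' Icc 0 1) ∪ {b 0} ×ˢ Q

section
variable {P Q : Set HS} {b c : ℝ → HS} {p q : ℕ}

theorem isCompact_ESet (hP : Piece p P b) (hQ : Piece q Q c) : IsCompact (ESet P Q b c) :=
  ((hP.compact.prod isCompact_singleton).union ((isCompact_Icc.image hP.cont).prod
    (isCompact_Icc.image hQ.cont))).union (isCompact_singleton.prod hQ.compact)

theorem sm_ESet (hP : Piece p P b) (hQ : Piece q Q c) : Sm (ESet P Q b c) 3 := by
  have c1 : IsCompact (P ×ˢ {c 0}) := hP.compact.prod isCompact_singleton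
  have c2 : IsCompact ((b '' Icc 0 1) ×ˢ (c '' Icc 0 1)) :=
    (isCompact_Icc.image hP.cont).prod (isCompact_Icc.image hQ.cont)
  have c3 : IsCompact ({b 0} ×ˢ Q) := isCompact_singleton.prod hQ.compact
  have s1 : Sm (P ×ˢ {c 0}) 3 := by
    apply Sm.of_injOn continuous_fst c1 _ _ hP.sm
    · intro x hx; exact hx.1
    · intro x hx y hy h
      have : x = y := Prod.ext h (hx.2.trans hy.2.symm)
      rw [this, dist_self]
  have s3 : Sm ({b 0} ×ˢ Q) 3 := by
    apply Sm.of_injOn continuous_snd c3 _ _ hQ.sm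
    · intro x hx; exact hx.2
    · intro x hx y hy h
      have : x = y := Prod.ext (hx.1.trans hy.1.symm) h
      rw [this, dist_self]
  have s2 : Sm ((b '' Icc 0 1) ×ˢ (c '' Icc 0 1)) 3 := by
    apply Sm.of_injOn (g := fun x : HS × HS => ((x.1 0).re : ℂ) + ((x.2 0).re : ℂ) * Complex.I)
      _ c2 (mapsTo_univ _ _) _ (sm_complex univ)
    · have h1 : Continuous fun x : HS × HS => (x.1 0).re :=
        Complex.continuous_re.comp ((continuous_coord 0).comp continuous_fst)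
      have h2 : Continuous fun x : HS × HS => (x.2 0).re :=
        Complex.continuous_re.comp ((continuous_coord 0).comp continuous_snd)
      exact (Complex.continuous_ofReal.comp h1).add
        ((Complex.continuous_ofReal.comp h2).mul continuous_const)
    · rintro ⟨x, x'⟩ ⟨⟨s, hs, rfl⟩, ⟨s', hs', rfl⟩⟩ ⟨y, y'⟩ ⟨⟨t, ht, rfl⟩, ⟨t', ht', rfl⟩⟩ h
      have h1 := congrArg Complex.re h
      have h2 := congrArg Complex.im h
      simp only [Complex.add_re, Complex.ofReal_re, Complex.mul_re, Complex.I_re, mul_zero,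
        Complex.ofReal_im, Complex.I_im, mul_one, sub_self, add_zero] at h1
      simp only [Complex.add_im, Complex.ofReal_re, Complex.mul_im, Complex.I_re, mul_zero,
        Complex.ofReal_im, Complex.I_im, mul_one, add_zero, zero_add] at h2
      rw [hP.coord s hs t ht h1, hQ.coord s' hs' t' ht' h2, dist_self]
  exact (s1.union c1 c2 s2).union (c1.union c2) c3 s3

/-- arcs are not zero-dimensional -/
theorem not_sm_arc (hP : Piece p P b) : ¬ Sm (b '' Icc 0 1) 1 := by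
  intro h
  apply not_covLT_cube 1
  rw [← sm_iff_covLT isCompact_Icc isClosed_Icc]
  apply Sm.of_injOn (g := fun x : Fin 1 → ℝ => b (x 0)) (hP.cont.comp (continuous_apply 0))
    isCompact_Icc _ _ h
  · intro x hx
    exact ⟨x 0, ⟨hx.1 0, hx.2 0⟩, rfl⟩
  · intro x hx y hy hxy
    have h1 := hP.injOn ⟨hx.1 0, hx.2 0⟩ ⟨hy.1 0, hy.2 0⟩ hxy
    have : x = y := by
      funext i
      have : i = 0 := Subsingleton.elim _ _
      rw [this]; exact h1
    rw [this, dist_self]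

theorem not_sm_square (hP : Piece p P b) (hQ : Piece q Q c) :
    ¬ Sm ((b '' Icc 0 1) ×ˢ (c '' Icc 0 1)) 2 := by
  intro h
  apply not_covLT_cube 2
  rw [← sm_iff_covLT isCompact_Icc isClosed_Icc]
  apply Sm.of_injOn (g := fun x : Fin 2 → ℝ => (b (x 0), c (x 1)))
    ((hP.cont.comp (continuous_apply 0)).prodMk (hQ.cont.comp (continuous_apply 1)))
    isCompact_Icc _ _ h
  · intro x hx
    exact ⟨⟨x 0, ⟨hx.1 0, hx.2 0⟩, rfl⟩, ⟨x 1, ⟨hx.1 1, hx.2 1⟩, rfl⟩⟩
  · intro x hx y hy hxy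
    have h1 := hP.injOn ⟨hx.1 0, hx.2 0⟩ ⟨hy.1 0, hy.2 0⟩ (congrArg Prod.fst hxy)
    have h2 := hQ.injOn ⟨hx.1 1, hx.2 1⟩ ⟨hy.1 1, hy.2 1⟩ (congrArg Prod.snd hxy)
    have : x = y := by
      funext i
      fin_cases i
      · exact h1
      · exact h2
    rw [this, dist_self]

theorem square_subset_ESet : (b '' Icc 0 1) ×ˢ (c '' Icc 0 1) ⊆ ESet P Q b c :=
  fun _ hx => Or.inl (Or.inr hx)

theorem ESet_isPreconnected (hP : Piece p P b) (hQ : Piece q Q c) {C : Set (HS × HS)}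
    (hC : IsClosed C) (hs : Sm (ESet P Q b c ∩ C) 1) : IsPreconnected (ESet P Q b c \ C) := by
  have h0 : (0 : ℝ) ∈ Icc (0 : ℝ) 1 := ⟨le_rfl, zero_le_one⟩
  have i1 : Continuous fun x : HS => (x, c 0) := by fun_prop
  have i3 : Continuous fun y : HS => (b 0, y) := by fun_prop
  have k1 : IsPreconnected (P ×ˢ {c 0} \ C) := by
    have he : P ×ˢ {c 0} \ C = (fun x : HS => (x, c 0)) '' (P \ (fun x : HS => (x, c 0)) ⁻¹' C) := by
      ext x
      constructor
      · rintro ⟨⟨h1, h2⟩, h3⟩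
        have h4 : (x.1, c 0) = x := Prod.ext rfl (mem_singleton_iff.1 h2).symm
        refine ⟨x.1, ⟨h1, ?_⟩, h4⟩
        show (x.1, c 0) ∉ C
        rw [h4]; exact h3
      · rintro ⟨y, ⟨hy, hyC⟩, rfl⟩
        exact ⟨⟨hy, rfl⟩, hyC⟩
    rw [he]
    apply IsPreconnected.image _ _ i1.continuousOn
    apply hP.conn _ (hC.preimage i1)
    apply Sm.of_injOn i1 (hP.compact.inter_right (hC.preimage i1)) _ _ hs
    · intro x hx
      exact ⟨Or.inl (Or.inl ⟨hx.1, rfl⟩), hx.2⟩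
    · intro x _ y _ h
      rw [show x = y from congrArg Prod.fst h, dist_self]
  have k3 : IsPreconnected ({b 0} ×ˢ Q \ C) := by
    have he : {b 0} ×ˢ Q \ C = (fun y : HS => (b 0, y)) '' (Q \ (fun y : HS => (b 0, y)) ⁻¹' C) := by
      ext x
      constructor
      · rintro ⟨⟨h1, h2⟩, h3⟩
        have h4 : (b 0, x.2) = x := Prod.ext (mem_singleton_iff.1 h1).symm rfl
        refine ⟨x.2, ⟨h2, ?_⟩, h4⟩
        show (b 0, x.2) ∉ C
        rw [h4]; exact h3
      · rintro ⟨y, ⟨hy, hyC⟩, rfl⟩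
        exact ⟨⟨rfl, hy⟩, hyC⟩
    rw [he]
    apply IsPreconnected.image _ _ i3.continuousOn
    apply hQ.conn _ (hC.preimage i3)
    apply Sm.of_injOn i3 (hQ.compact.inter_right (hC.preimage i3)) _ _ hs
    · intro x hx
      exact ⟨Or.inr ⟨rfl, hx.1⟩, hx.2⟩
    · intro x _ y _ h
      rw [show x = y from congrArg Prod.snd h, dist_self]
  have k2 : IsPreconnected ((b '' Icc 0 1) ×ˢ (c '' Icc 0 1) \ C) := by
    apply arcs_isPreconnected hP.cont hQ.cont hP.injOn hQ.injOn hC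
    apply hs.mono_set
    exact inter_subset_inter_left _ square_subset_ESet
  have m12 : ((P ×ˢ {c 0} \ C) ∩ ((b '' Icc 0 1) ×ˢ (c '' Icc 0 1) \ C)).Nonempty := by
    by_contra hne
    apply not_sm_arc hP
    apply Sm.of_injOn i1 (isCompact_Icc.image hP.cont) _ _ hs
    · rintro x ⟨s, hs, rfl⟩
      refine ⟨Or.inl (Or.inr ⟨⟨s, hs, rfl⟩, ⟨0, h0, rfl⟩⟩), ?_⟩
      by_contra hx
      exact hne ⟨(b s, c 0), ⟨⟨hP.mem s, rfl⟩, hx⟩, ⟨⟨⟨s, hs, rfl⟩, ⟨0, h0, rfl⟩⟩, hx⟩⟩
    · intro x _ y _ h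
      rw [show x = y from congrArg Prod.fst h, dist_self]
  have m23 : (((P ×ˢ {c 0} \ C) ∪ ((b '' Icc 0 1) ×ˢ (c '' Icc 0 1) \ C)) ∩
      ({b 0} ×ˢ Q \ C)).Nonempty := by
    by_contra hne
    apply not_sm_arc hQ
    apply Sm.of_injOn i3 (isCompact_Icc.image hQ.cont) _ _ hs
    · rintro x ⟨s, hs, rfl⟩
      refine ⟨Or.inl (Or.inr ⟨⟨0, h0, rfl⟩, ⟨s, hs, rfl⟩⟩), ?_⟩
      by_contra hx
      exact hne ⟨(b 0, c s), Or.inr ⟨⟨⟨0, h0, rfl⟩, ⟨s, hs, rfl⟩⟩, hx⟩, ⟨⟨rfl, hQ.mem s⟩, hx⟩⟩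
    · intro x _ y _ h
      rw [show x = y from congrArg Prod.snd h, dist_self]
  have := (k1.union' m12 k2).union' m23 k3
  have he : ESet P Q b c \ C = (P ×ˢ {c 0} \ C) ∪ ((b '' Icc 0 1) ×ˢ (c '' Icc 0 1) \ C) ∪
      ({b 0} ×ˢ Q \ C) := by
    unfold ESet
    rw [union_sdiff_distrib, union_sdiff_distrib]
  rw [he]
  exact this

theorem dim_le_zero_of {d : WithBot ℕ∞} (h : d + 2 ≤ 2) : d ≤ 0 := by
  induction d using WithBot.recBotCoe with
  | bot => exact bot_le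
  | coe d =>
    have h' : ((d + 2 : ℕ∞) : WithBot ℕ∞) ≤ ((2 : ℕ∞) : WithBot ℕ∞) := h
    have h2 : d + 2 ≤ 2 := WithBot.coe_le_coe.1 h'
    have h3 : d ≠ ⊤ := by
      rintro rfl
      simp at h2
    lift d to ℕ using h3
    have h4' : ((d + 2 : ℕ) : ℕ∞) ≤ ((2 : ℕ) : ℕ∞) := by push_cast; exact h2
    have h4 : d + 2 ≤ 2 := Nat.cast_le.1 h4'
    have h5 : d ≤ 0 := by omega
    exact_mod_cast h5

theorem dim_eq_of {X : Type*} [TopologicalSpace X] {n : ℕ} (h1 : CovLT X (n + 2))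
    (h2 : ¬ CovLT X (n + 1)) : Dim X = ((n + 1 : ℕ) : WithBot ℕ∞) := by
  apply le_antisymm
  · exact dim_le_iff.2 h1
  · by_contra hcon
    exact h2 (dim_lt_iff.1 (not_le.1 hcon))

theorem ESet_isCantorManifold (hP : Piece p P b) (hQ : Piece q Q c) :
    IsCantorManifold (ESet P Q b c) 2 := by
  have hcp := isCompact_ESet hP hQ
  have : CompactSpace (ESet P Q b c) := isCompact_iff_compactSpace.1 hcp
  have hdim : Dim (ESet P Q b c) = ((1 + 1 : ℕ) : WithBot ℕ∞) := by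
    apply dim_eq_of
    · exact (sm_ESet hP hQ).covLT hcp
    · intro h
      apply not_sm_square hP hQ
      exact (sm_of_covLT hcp hcp.isClosed h).mono_set square_subset_ESet
  refine ⟨by norm_num, hdim, ?_⟩
  intro C hC hCd
  have hd0 : Dim C ≤ ((0 : ℕ) : WithBot ℕ∞) := by
    push_cast at hCd ⊢
    exact dim_le_zero_of hCd
  have hcov : CovLT C 1 := dim_le_iff.1 hd0
  have hsm : Sm C 1 := sm_of_covLT hC.isCompact hC hcov
  have hsm' : Sm (Subtype.val '' C : Set (HS × HS)) 1 := Sm.image_val hcp hC hsm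
  have hCcl : IsClosed (Subtype.val '' C : Set (HS × HS)) :=
    hcp.isClosed.isClosedEmbedding_subtypeVal.isClosedMap _ hC
  have hpre := ESet_isPreconnected hP hQ hCcl (hsm'.mono_set inter_subset_right)
  constructor
  · by_contra hne
    rw [not_nonempty_iff_eq_empty, compl_empty_iff] at hne
    apply not_sm_square hP hQ
    rw [hne, image_univ, Subtype.range_coe] at hsm'
    exact (hsm'.mono_set square_subset_ESet).mono_nat (by norm_num)
  · rw [← Topology.IsInducing.subtypeVal.isPreconnected_image]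
    have he : (Subtype.val '' Cᶜ : Set (HS × HS)) = ESet P Q b c \ Subtype.val '' C := by
      ext x
      constructor
      · rintro ⟨y, hy, rfl⟩
        refine ⟨y.2, ?_⟩
        rintro ⟨z, hz, hzy⟩
        exact hy (Subtype.ext hzy ▸ hz)
      · rintro ⟨hx, hxC⟩
        exact ⟨⟨x, hx⟩, fun h => hxC ⟨_, h, rfl⟩, rfl⟩
    rw [he]
    exact hpre

end

end Pool.Agent.Helper52.CM
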