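import Pool.Agent.Helper52.CM.MinX

namespace Pool.Agent.Helper52.CM

open Set TopologicalSpace Topology

/-- no retraction of the disc onto the circle -/
theorem no_retract : ¬ ∃ g : ℂ → ℂ, ContinuousOn g (Metric.closedBall 0 1) ∧
    (∀ z, ‖z‖ ≤ 1 → ‖g z‖ = 1) ∧ ∀ z, ‖z‖ = 1 → g z = z := by
  rintro ⟨g, hgc, hgn, hgb⟩
  have hY0 : ∀ y ∈ Y0, y 0 ∈ Metric.closedBall (0 : ℂ) 1 := by
    intro y hy
    rw [mem_closedBall_zero_iff]
    exact hy.1
  have hGc : ContinuousOn (fun y : HS => g (y 0)) Y0 :=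
    hgc.comp (continuous_coord 0).continuousOn hY0
  obtain ⟨η, hη, hcst⟩ := exists_cst_coc 2
  obtain ⟨δ, hδ, hu⟩ := Metric.uniformContinuousOn_iff.1
    (stage_zero.compact.uniformContinuousOn_of_continuous hGc) η hη
  apply not_hasCoc_zero (p := 2) (by norm_num)
  refine ⟨δ, hδ, fun y y' => cst 2 (g (y 0)) (g (y' 0)), ?_, ?_⟩
  · intro x hx y hy z hz h1 h2 _
    exact hcst _ _ _ (hgn _ hx.1) (hgn _ hy.1) (hgn _ hz.1) (hu x hx y hy h1) (hu y hy z hz h2)
  · intro y hy y' hy' hn hn' _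
    show cst 2 (g (y 0)) (g (y' 0)) = cst 2 (y 0) (y' 0)
    rw [hgb _ hn, hgb _ hn']

/-- sup norm on the plane -/
noncomputable def NN (z : ℂ) : ℝ := max |z.re| |z.im|

theorem continuous_NN : Continuous NN := by
  unfold NN
  fun_prop

theorem NN_real_smul (t : ℝ) (z : ℂ) : NN ((t : ℂ) * z) = |t| * NN z := by
  unfold NN
  rw [Complex.re_ofReal_mul, Complex.im_ofReal_mul, abs_mul, abs_mul,
    mul_max_of_nonneg _ _ (abs_nonneg t)]

theorem NN_zero : NN 0 = 0 := by simp [NN]

theorem norm_le_two_NN (z : ℂ) : ‖z‖ ≤ 2 * NN z := by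
  have h1 := Complex.norm_le_abs_re_add_abs_im z
  have h2 : |z.re| ≤ NN z := le_max_left _ _
  have h3 : |z.im| ≤ NN z := le_max_right _ _
  linarith

/-- the square -/
def Sq : Set ℂ := {z | NN z ≤ 1}

/-- boundary of the square -/
def dSq : Set ℂ := {z | NN z = 1}

theorem isClosed_Sq : IsClosed Sq := isClosed_le continuous_NN continuous_const

theorem isClosed_dSq : IsClosed dSq := isClosed_eq continuous_NN continuous_const

theorem isCompact_Sq : IsCompact Sq := by
  apply (isCompact_closedBall (0 : ℂ) 2).of_isClosed_subset isClosed_Sq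
  intro z hz
  rw [mem_closedBall_zero_iff]
  have := norm_le_two_NN z
  have hz' : NN z ≤ 1 := hz
  linarith

theorem ne_zero_of_dSq {z : ℂ} (h : z ∈ dSq) : z ≠ 0 := by
  rintro rfl
  have h' : NN 0 = 1 := h
  rw [NN_zero] at h'
  exact zero_ne_one h'

theorem norm_mul_ph (z : ℂ) (hz : z ≠ 0) : (‖z‖ : ℂ) * ph z = z := by
  unfold ph
  have : (‖z‖ : ℂ) ≠ 0 := by
    have := norm_pos_iff.2 hz
    exact_mod_cast this.ne'
  field_simp

theorem ph_injOn : InjOn ph dSq := by
  intro z hz w hw h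
  have hz0 := ne_zero_of_dSq hz
  have hw0 := ne_zero_of_dSq hw
  have e1 := norm_mul_ph z hz0
  have e2 := norm_mul_ph w hw0
  have hzp : 0 < ‖z‖ := norm_pos_iff.2 hz0
  have hwp : 0 < ‖w‖ := norm_pos_iff.2 hw0
  have n1 : NN z = ‖z‖ * NN (ph z) := by
    conv_lhs => rw [← e1]
    rw [NN_real_smul, abs_of_pos hzp]
  have n2 : NN w = ‖w‖ * NN (ph w) := by
    conv_lhs => rw [← e2]
    rw [NN_real_smul, abs_of_pos hwp]
  have hz' : NN z = 1 := hz
  have hw' : NN w = 1 := hw
  rw [hz', h] at n1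
  rw [hw'] at n2
  have h3 : NN (ph w) ≠ 0 := by
    intro h0
    rw [h0, mul_zero] at n2
    exact one_ne_zero n2
  have h4 : ‖z‖ = ‖w‖ := mul_right_cancel₀ h3 (n1.symm.trans n2)
  rw [← e1, ← e2, h, h4]

theorem ph_exp_arg {w : ℂ} (hw : w ≠ 0) : Complex.exp (Complex.arg w * Complex.I) = ph w := by
  have h1 := Complex.norm_mul_exp_arg_mul_I w
  have h2 := norm_mul_ph w hw
  have : (‖w‖ : ℂ) ≠ 0 := by
    have := norm_pos_iff.2 hw
    exact_mod_cast this.ne'
  exact mul_left_cancel₀ this (h1.trans h2.symm)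

theorem ph_ne_zero {w : ℂ} (hw : w ≠ 0) : ph w ≠ 0 := by
  intro h
  have := norm_ph hw
  rw [h, norm_zero] at this
  exact zero_ne_one this

theorem ph_div (a b : ℂ) : ph (a / b) = ph a / ph b := by
  unfold ph
  rw [norm_div]
  push_cast
  by_cases hb : b = 0
  · simp [hb]
  by_cases ha : a = 0
  · simp [ha]
  have h1 : (‖a‖ : ℂ) ≠ 0 := by
    have := norm_pos_iff.2 ha
    exact_mod_cast this.ne'
  have h2 : (‖b‖ : ℂ) ≠ 0 := by
    have := norm_pos_iff.2 hb
    exact_mod_cast this.ne'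
  field_simp

theorem sq_noext : ¬ ExtOver ph dSq Sq := by
  classical
  rintro ⟨g, hgc, hgn, hgb⟩
  apply no_retract
  have h2 : ∀ z : ℂ, NN (2 * z) = 2 * NN z := by
    intro z
    have := NN_real_smul 2 z
    push_cast at this
    rw [this, abs_of_pos two_pos]
  have hph : ∀ z : ℂ, ph (2 * z) = ph z := by
    intro z
    unfold ph
    rw [norm_mul, Complex.norm_ofNat]
    push_cast
    by_cases hz : z = 0
    · simp [hz]
    have h1 : (‖z‖ : ℂ) ≠ 0 := by
      have := norm_pos_iff.2 hz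
      exact_mod_cast this.ne'
    field_simp
  set G : ℂ → ℂ := fun z => if NN (2 * z) ≤ 1 then g (2 * z) else ph z with hG
  have hG1 : ∀ z, 1 ≤ NN (2 * z) → G z = ph z := by
    intro z hz
    simp only [hG]
    split_ifs with h
    · rw [hgb (2 * z) (le_antisymm h hz), hph]
    · rfl
  have hc1 : ContinuousOn G {z | NN (2 * z) ≤ 1} := by
    have : ContinuousOn (fun z : ℂ => g (2 * z)) {z | NN (2 * z) ≤ 1} :=
      hgc.comp (by fun_prop) fun z hz => hz
    apply this.congr
    intro z hz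
    have hz' : NN (2 * z) ≤ 1 := hz
    simp only [hG, if_pos hz']
  have hc2 : ContinuousOn G {z | 1 ≤ NN (2 * z)} := by
    have : ContinuousOn ph {z | 1 ≤ NN (2 * z)} := by
      intro z hz
      apply (continuousAt_ph _).continuousWithinAt
      rintro rfl
      have hz' : 1 ≤ NN (2 * 0) := hz
      rw [mul_zero, NN_zero] at hz'
      linarith
    exact this.congr hG1
  have hcN : Continuous fun z : ℂ => NN (2 * z) := continuous_NN.comp (by fun_prop)
  refine ⟨G, ?_, ?_, ?_⟩
  · apply (hc1.union_of_isClosed hc2 (isClosed_le hcN continuous_const)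
      (isClosed_le continuous_const hcN)).mono
    intro z _
    exact le_total (NN (2 * z)) 1
  · intro z _
    rcases le_total (NN (2 * z)) 1 with h | h
    · have : G z = g (2 * z) := by simp only [hG, if_pos h]
      rw [this]
      exact hgn _ h
    · rw [hG1 z h]
      apply norm_ph
      rintro rfl
      rw [mul_zero, NN_zero] at h
      linarith
  · intro z hz
    have h3 : 1 ≤ NN (2 * z) := by
      rw [h2, ← hz]
      exact norm_le_two_NN z
    rw [hG1 z h3, ph_of_norm hz]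

theorem sq_minPair : MinPair ph dSq Sq := by
  refine ⟨isClosed_dSq, isClosed_Sq, fun z hz => le_of_eq hz, ?_, fun z hz =>
    norm_ph (ne_zero_of_dSq hz), ph_injOn, sq_noext, ?_⟩
  · intro z hz
    exact (continuousAt_ph (ne_zero_of_dSq hz)).continuousWithinAt
  · intro P' hP' hD hsub hne
    obtain ⟨z0, hz0, hz0P⟩ := not_subset.1 hne
    have hN0 : NN z0 < 1 := by
      refine lt_of_le_of_ne hz0 fun h => hz0P (hD h)
    have hslit : ∀ z ∈ dSq, 1 - z0 / z ∈ Complex.slitPlane := by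
      intro z hz
      have hz1 := ne_zero_of_dSq hz
      rw [Complex.mem_slitPlane_iff]
      by_contra hcon
      push Not at hcon
      obtain ⟨h1, h2⟩ := hcon
      set s : ℝ := (z0 / z).re with hs
      have h3 : z0 / z = (s : ℂ) := by
        apply Complex.ext
        · simp [hs]
        · rw [Complex.sub_im, Complex.one_im, zero_sub, neg_eq_zero] at h2
          rw [h2, Complex.ofReal_im]
      rw [Complex.sub_re, Complex.one_re] at h1
      have h4 : 1 ≤ s := by linarith
      have h5 : z0 = (s : ℂ) * z := by rw [← h3]; field_simp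
      have hz' : NN z = 1 := hz
      rw [h5, NN_real_smul, hz', mul_one, abs_of_pos (by linarith)] at hN0
      linarith
    have hθ : ContinuousOn (fun z => Complex.arg (1 - z0 / z)) dSq := by
      intro z hz
      have hcw : ContinuousWithinAt (fun z => 1 - z0 / z) dSq z :=
        (continuousWithinAt_const.sub
          (continuousWithinAt_const.div continuousWithinAt_id (ne_zero_of_dSq hz)))
      exact ContinuousAt.comp_continuousWithinAt (g := Complex.arg) (f := fun z => 1 - z0 / z)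
        (Complex.continuousAt_arg (hslit z hz)) hcw
    obtain ⟨Θ, hΘ⟩ := tietze_on_real isClosed_dSq hθ
    have hne0 : ∀ z ∈ P', z - z0 ≠ 0 := by
      intro z hz h
      rw [sub_eq_zero] at h
      exact hz0P (h ▸ hz)
    refine ⟨fun z => ph (z - z0) * Complex.exp (-(Θ z : ℂ) * Complex.I), ?_, ?_, ?_⟩
    · apply ContinuousOn.mul
      · intro z hz
        exact (ContinuousAt.comp (g := ph) (f := fun z => z - z0) (continuousAt_ph (hne0 z hz))
          (by fun_prop)).continuousWithinAt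
      · have := Complex.continuous_ofReal.comp Θ.continuous
        apply Continuous.continuousOn
        fun_prop
    · intro z hz
      show ‖ph (z - z0) * Complex.exp (-(Θ z : ℂ) * Complex.I)‖ = 1
      rw [norm_mul, norm_ph (hne0 z hz), one_mul]
      have := Complex.norm_exp_ofReal_mul_I (-(Θ z))
      push_cast at this
      exact this
    · intro z hz
      show ph (z - z0) * Complex.exp (-(Θ z : ℂ) * Complex.I) = ph z
      have hz1 := ne_zero_of_dSq hz
      have h1 : 1 - z0 / z = (z - z0) / z := by field_simp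
      have h2 := hslit z hz
      have h3 : (1 - z0 / z) ≠ 0 := Complex.slitPlane_ne_zero h2
      rw [hΘ z hz, neg_mul, Complex.exp_neg, ph_exp_arg h3, h1, ph_div]
      have h4 := ph_ne_zero hz1
      have h5 := ph_ne_zero (hne0 z (hD hz))
      field_simp

theorem sq_isPreconnected {C : Set ℂ} (hC : IsClosed C) (hs : Sm (Sq ∩ C) 1) :
    IsPreconnected (Sq \ C) := sq_minPair.isPreconnected isCompact_Sq hC hs

/-- products of arcs are not separated by zero-dimensional sets -/
theorem arcs_isPreconnected {b b' : ℝ → HS} (hb : Continuous b) (hb' : Continuous b')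
    (hi : InjOn b (Icc 0 1)) (hi' : InjOn b' (Icc 0 1)) {C : Set (HS × HS)} (hC : IsClosed C)
    (hs : Sm ((b '' Icc 0 1) ×ˢ (b' '' Icc 0 1) ∩ C) 1) :
    IsPreconnected ((b '' Icc 0 1) ×ˢ (b' '' Icc 0 1) \ C) := by
  set lam : ℂ → HS × HS := fun z => (b ((z.re + 1) / 2), b' ((z.im + 1) / 2)) with hlam
  have hlc : Continuous lam := by
    have h1 : Continuous fun z : ℂ => (z.re + 1) / 2 := by fun_prop
    have h2 : Continuous fun z : ℂ => (z.im + 1) / 2 := by fun_prop
    exact (hb.comp h1).prodMk (hb'.comp h2)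
  have hIcc : ∀ z ∈ Sq, (z.re + 1) / 2 ∈ Icc (0 : ℝ) 1 ∧ (z.im + 1) / 2 ∈ Icc (0 : ℝ) 1 := by
    intro z hz
    have hz' : NN z ≤ 1 := hz
    have h1 := abs_le.1 ((le_max_left _ _).trans hz' : |z.re| ≤ 1)
    have h2 := abs_le.1 ((le_max_right _ _).trans hz' : |z.im| ≤ 1)
    refine ⟨⟨by linarith [h1.1], by linarith [h1.2]⟩, ⟨by linarith [h2.1], by linarith [h2.2]⟩⟩
  have himg : ∀ q, q ∈ (b '' Icc 0 1) ×ˢ (b' '' Icc 0 1) → ∃ z ∈ Sq, lam z = q := by
    rintro ⟨x, y⟩ ⟨⟨s, hs, hsx⟩, ⟨t, ht, hty⟩⟩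
    refine ⟨⟨2 * s - 1, 2 * t - 1⟩, ?_, ?_⟩
    · show NN _ ≤ 1
      unfold NN
      apply max_le
      · rw [abs_le]; constructor <;> linarith [hs.1, hs.2]
      · rw [abs_le]; constructor <;> linarith [ht.1, ht.2]
    · simp only [hlam]
      rw [show ((2 * s - 1 + 1) / 2 : ℝ) = s by ring, show ((2 * t - 1 + 1) / 2 : ℝ) = t by ring]
      exact Prod.ext hsx hty
  have hmaps : ∀ z ∈ Sq, lam z ∈ (b '' Icc 0 1) ×ˢ (b' '' Icc 0 1) := by
    intro z hz
    exact ⟨⟨_, (hIcc z hz).1, rfl⟩, ⟨_, (hIcc z hz).2, rfl⟩⟩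
  have heq : (b '' Icc 0 1) ×ˢ (b' '' Icc 0 1) \ C = lam '' (Sq \ lam ⁻¹' C) := by
    ext q
    constructor
    · rintro ⟨hq, hqC⟩
      obtain ⟨z, hz, rfl⟩ := himg q hq
      exact ⟨z, ⟨hz, hqC⟩, rfl⟩
    · rintro ⟨z, ⟨hz, hzC⟩, rfl⟩
      exact ⟨hmaps z hz, hzC⟩
  rw [heq]
  apply IsPreconnected.image _ _ hlc.continuousOn
  apply sq_isPreconnected (hC.preimage hlc)
  apply Sm.of_injOn hlc (isCompact_Sq.inter_right (hC.preimage hlc)) _ _ hs
  · intro z hz
    exact ⟨hmaps z hz.1, hz.2⟩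
  · intro z hz w hw h
    have h1 := hi (hIcc z hz.1).1 (hIcc w hw.1).1 (congrArg Prod.fst h)
    have h2 := hi' (hIcc z hz.1).2 (hIcc w hw.1).2 (congrArg Prod.snd h)
    have : z = w := Complex.ext (by linarith) (by linarith)
    rw [this, dist_self]

end Pool.Agent.Helper52.CM
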