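import Pool.Agent.Helper52.CM.Equiv

namespace Pool.Agent.Helper52.CM

open Set TopologicalSpace Topology

theorem exists_shrink_of_closed {X : Type*} [TopologicalSpace X] {F : Set X} (hF : IsClosed F)
    {n : ℕ} (H : CovLT F n) {ι : Type} [Finite ι] (U : ι → Set X) (hU : ∀ i, IsOpen (U i))
    (hc : ⋃ i, U i = univ) :
    ∃ V : ι → Set X, (∀ i, IsOpen (V i)) ∧ (⋃ i, V i) = univ ∧ (∀ i, V i ⊆ U i) ∧
      ∀ x ∈ F, {i | x ∈ V i}.ncard ≤ n := by
  obtain ⟨W, hW1, hW2, hW3, hW4⟩ := H.shrink (fun i => (Subtype.val ⁻¹' U i : Set F))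
    (fun i => (hU i).preimage continuous_subtype_val) (by rw [← preimage_iUnion, hc, preimage_univ])
  refine ⟨fun i => U i \ (Subtype.val '' (W i)ᶜ), ?_, ?_, fun i => sdiff_subset, ?_⟩
  · intro i
    exact (hU i).sdiff (hF.isClosedEmbedding_subtypeVal.isClosedMap _ (hW1 i).isClosed_compl)
  · apply eq_univ_of_forall
    intro x
    by_cases hx : x ∈ F
    · have : (⟨x, hx⟩ : F) ∈ ⋃ i, W i := by rw [hW2]; trivial
      obtain ⟨i, hi⟩ := mem_iUnion.1 this
      refine mem_iUnion.2 ⟨i, hW3 i hi, ?_⟩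
      rintro ⟨y, hy, hyx⟩
      have : y = ⟨x, hx⟩ := Subtype.ext hyx
      rw [this] at hy
      exact hy hi
    · have : x ∈ ⋃ i, U i := by rw [hc]; trivial
      obtain ⟨i, hi⟩ := mem_iUnion.1 this
      refine mem_iUnion.2 ⟨i, hi, ?_⟩
      rintro ⟨y, -, hyx⟩
      exact hx (hyx ▸ y.2)
  · intro x hx
    refine le_trans (ncard_le_ncard ?_ (toFinite _)) (hW4 ⟨x, hx⟩)
    intro i hi
    by_contra hcon
    exact hi.2 ⟨⟨x, hx⟩, hcon, rfl⟩

theorem covLT_of_closed_compl {X : Type*} [TopologicalSpace X] [NormalSpace X] {Z : Set X}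
    (hZ : IsClosed Z) {n : ℕ} (HZ : CovLT Z n)
    (HF : ∀ F : Set X, IsClosed F → Disjoint F Z → CovLT F n) : CovLT X n := by
  classical
  intro ι _ U hU hc
  have := Fintype.ofFinite ι
  obtain ⟨V, hV1, hV2, hV3, hV4⟩ := exists_shrink_of_closed hZ HZ U hU hc
  obtain ⟨V', hV'2, hV'1, hV'3⟩ := exists_iUnion_eq_closure_subset hV1 (fun x => toFinite _) hV2
  set F : Set X := ⋃ S : Finset ι, if S.card = n + 1 then ⋂ i ∈ S, closure (V' i) else ∅ with hF
  have hFc : IsClosed F := by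
    apply isClosed_iUnion_of_finite
    intro S
    split_ifs
    · exact isClosed_biInter fun i _ => isClosed_closure
    · exact isClosed_empty
  have hFm : ∀ x, x ∉ F → {i | x ∈ closure (V' i)}.ncard ≤ n := by
    intro x hx
    by_contra hcon
    push Not at hcon
    obtain ⟨T, hT1, hT2⟩ := Set.exists_subset_card_eq (s := {i | x ∈ closure (V' i)}) hcon
    apply hx
    refine mem_iUnion.2 ⟨(toFinite T).toFinset, ?_⟩
    have : ((toFinite T).toFinset).card = n + 1 := by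
      rw [← ncard_eq_toFinset_card T (toFinite T)]; exact hT2
    rw [if_pos this]
    apply mem_iInter₂.2
    intro i hi
    exact hT1 ((toFinite T).mem_toFinset.1 hi)
  have hFd : Disjoint F Z := by
    rw [disjoint_left]
    intro x hx hxZ
    obtain ⟨S, hS⟩ := mem_iUnion.1 hx
    split_ifs at hS with hc
    · have h1 : (S : Set ι) ⊆ {i | x ∈ V i} := fun i hi => hV'3 i (mem_iInter₂.1 hS i hi)
      have h2 := ncard_le_ncard h1 (toFinite _)
      rw [ncard_coe_finset, hc] at h2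
      have := hV4 x hxZ
      omega
    · exact hS
  obtain ⟨V'', hW1, hW2, hW3, hW4⟩ := exists_shrink_of_closed hFc (HF F hFc hFd) V' hV'1 hV'2
  refine ⟨ι, inferInstance, V'', hW1, hW2, fun i => ⟨i, (hW3 i).trans
    (subset_closure.trans ((hV'3 i).trans (hV3 i)))⟩, ?_⟩
  intro x
  by_cases hx : x ∈ F
  · exact hW4 x hx
  · refine le_trans (ncard_le_ncard ?_ (toFinite _)) (hFm x hx)
    intro i hi
    exact subset_closure (hW3 i hi)

theorem CovLT.closed {X : Type*} [TopologicalSpace X] {F : Set X} (hF : IsClosed F) {n : ℕ}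
    (H : CovLT X n) : CovLT F n := by
  intro ι _ U hU hc
  -- extend the cover
  have hopen : ∀ i, ∃ O : Set X, IsOpen O ∧ Subtype.val ⁻¹' O = U i := fun i =>
    isOpen_induced_iff.1 (hU i)
  choose O hO1 hO2 using hopen
  obtain ⟨V, hV1, hV2, hV3, hV4⟩ := H.shrink (ι := Option ι)
    (fun o => match o with | none => Fᶜ | some i => O i)
    (by rintro (_ | i); exacts [hF.isOpen_compl, hO1 i])
    (by
      apply eq_univ_of_forall
      intro x
      by_cases hx : x ∈ F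
      · have : (⟨x, hx⟩ : F) ∈ ⋃ i, U i := by rw [hc]; trivial
        obtain ⟨i, hi⟩ := mem_iUnion.1 this
        rw [← hO2 i] at hi
        exact mem_iUnion.2 ⟨some i, hi⟩
      · exact mem_iUnion.2 ⟨none, hx⟩)
  refine ⟨ι, inferInstance, fun i => (Subtype.val ⁻¹' V (some i) : Set F), fun i =>
    (hV1 _).preimage continuous_subtype_val, ?_, ?_, ?_⟩
  · apply eq_univ_of_forall
    intro x
    have : (x : X) ∈ ⋃ i, V i := by rw [hV2]; trivial
    obtain ⟨o, ho⟩ := mem_iUnion.1 this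
    rcases o with _ | i
    · exact absurd x.2 (hV3 none ho)
    · exact mem_iUnion.2 ⟨i, ho⟩
  · intro i
    refine ⟨i, ?_⟩
    intro x hx
    rw [← hO2 i]
    exact hV3 (some i) hx
  · intro x
    refine le_trans ?_ (hV4 x)
    exact ncard_le_ncard_of_injOn some (fun i hi => hi) (fun _ _ _ _ h => Option.some.inj h)
      (toFinite _)

theorem CovLT.subset_closed {X : Type*} [TopologicalSpace X] {F Y : Set X} (hF : IsClosed F)
    (hFY : F ⊆ Y) {n : ℕ} (H : CovLT Y n) : CovLT F n := by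
  rw [← covLT_trace hFY]
  exact H.closed (hF.preimage continuous_subtype_val)

/-- Sum theorem in metric form. -/
theorem Sm.of_closed_compl {X : Type} [MetricSpace X] {Y Z : Set X} (hY : IsCompact Y)
    (hZ : IsClosed Z) (hZY : Z ⊆ Y) {n : ℕ} (HZ : Sm Z n)
    (HF : ∀ F : Set X, IsClosed F → F ⊆ Y → Disjoint F Z → Sm F n) : Sm Y n := by
  have hcs : CompactSpace Y := isCompact_iff_compactSpace.1 hY
  rw [sm_iff_covLT hY hY.isClosed]
  apply covLT_of_closed_compl (Z := (Subtype.val ⁻¹' Z : Set Y))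
    (hZ.preimage continuous_subtype_val)
  · rw [covLT_trace hZY]
    exact HZ.covLT (hY.of_isClosed_subset hZ hZY)
  · intro F hF hFZ
    have h1 : IsClosed (Subtype.val '' F : Set X) :=
      (hY.isClosed.isClosedEmbedding_subtypeVal.isClosedMap _ hF)
    have h2 : (Subtype.val '' F : Set X) ⊆ Y := by rintro _ ⟨y, -, rfl⟩; exact y.2
    have h3 : Disjoint (Subtype.val '' F : Set X) Z := by
      rw [disjoint_left]
      rintro _ ⟨y, hy, rfl⟩ hyZ
      exact disjoint_left.1 hFZ hy hyZ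
    have h4 := (HF _ h1 h2 h3).covLT (hY.of_isClosed_subset h1 h2)
    rw [← covLT_trace h2] at h4
    rwa [preimage_image_eq _ Subtype.val_injective] at h4

theorem Sm.union {X : Type} [MetricSpace X] {Y Z : Set X} (hY : IsCompact Y)
    (hZ : IsCompact Z) {n : ℕ} (HY : Sm Y n) (HZ : Sm Z n) : Sm (Y ∪ Z) n := by
  apply Sm.of_closed_compl (hY.union hZ) hY.isClosed subset_union_left HY
  intro F hF hFs hd
  apply HZ.mono_set
  intro x hx
  rcases hFs hx with h | h
  · exact absurd h (disjoint_left.1 hd hx)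
  · exact h

theorem Sm.prod_one {X Y : Type} [PseudoMetricSpace X] [PseudoMetricSpace Y] {Z : Set X}
    {W : Set Y} {n : ℕ} (HZ : Sm Z 1) (HW : Sm W n) : Sm (Z ×ˢ W) n := by
  intro ε hε
  obtain ⟨ι, U, h1, h2, h3, h4⟩ := HZ ε hε
  obtain ⟨κ, V, k1, k2, k3, k4⟩ := HW ε hε
  refine ⟨ι × κ, fun c p => U 0 p.1 ×ˢ V c p.2, fun c p => (h1 _ _).prod (k1 _ _), ?_, ?_, ?_⟩
  · rintro c ⟨i, k⟩ ⟨j, l⟩ hne
    by_cases hij : i = j
    · have hkl : k ≠ l := fun h => hne (by rw [hij, h])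
      exact Disjoint.set_prod_right (k2 c k l hkl) _ _
    · exact Disjoint.set_prod_left (h2 0 i j hij) _ _
  · rintro c ⟨i, k⟩ ⟨x, y⟩ hx ⟨x', y'⟩ hy
    rw [Prod.dist_eq, max_lt_iff]
    exact ⟨h3 0 i x ⟨hx.1.1, hx.2.1⟩ x' ⟨hy.1.1, hy.2.1⟩, k3 c k y ⟨hx.1.2, hx.2.2⟩ y'
      ⟨hy.1.2, hy.2.2⟩⟩
  · rintro ⟨x, y⟩ ⟨hx, hy⟩
    obtain ⟨c, i, hi⟩ := h4 x hx
    obtain ⟨d, k, hk⟩ := k4 y hy
    refine ⟨d, (i, k), ?_, hk⟩
    rwa [Subsingleton.elim c 0] at hi

end Pool.Agent.Helper52.CM
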