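import Pool.Agent.Helper52.CM.Space
import Pool.Agent.Helper52.CM.ProdDim

namespace Pool.Agent.Helper52.CM

open Set TopologicalSpace Topology

/-- a two-point set as a point of the symmetric square -/
def pp {E : Type} [MetricSpace E] (x : E × E) : SymProd E 2 :=
  ⟨⟨⟨{x.1, x.2}, (toFinite _).isCompact⟩, ⟨x.1, Or.inl rfl⟩⟩, by
    show ({x.1, x.2} : Set E).encard ≤ 2
    by_cases h : x.1 = x.2
    · rw [h, pair_eq_singleton, encard_singleton]; norm_num
    · rw [encard_pair h]⟩

theorem coe_pp {E : Type} [MetricSpace E] (x : E × E) : ((pp x).1 : Set E) = {x.1, x.2} := rfl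

theorem pp_eq_iff {E : Type} [MetricSpace E] {x y : E × E} :
    pp x = pp y ↔ (x.1 = y.1 ∧ x.2 = y.2) ∨ (x.1 = y.2 ∧ x.2 = y.1) := by
  rw [← pair_eq_pair_iff]
  constructor
  · intro h
    have := congrArg (fun z : SymProd E 2 => (z.1 : Set E)) h
    exact this
  · intro h
    apply Subtype.ext
    apply NonemptyCompacts.ext
    exact h

theorem pp_surjective {E : Type} [MetricSpace E] : Function.Surjective (pp (E := E)) := by
  rintro ⟨A, hA⟩
  have h1 : (A : Set E).Nonempty := A.nonempty
  rcases le_iff_lt_or_eq.1 hA with h | h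
  · have h2 : (A : Set E).encard ≤ 1 := by
      have h' : (A : Set E).encard < 1 + 1 := by
        rw [one_add_one_eq_two]; exact_mod_cast h
      exact (ENat.lt_add_one_iff (by simp)).1 h'
    obtain ⟨x, hx⟩ := h1
    have h3 : (A : Set E) = {x} := by
      rw [encard_le_one_iff] at h2
      ext y
      constructor
      · intro hy; exact h2 y x hy hx
      · intro hy; rw [mem_singleton_iff.1 hy]; exact hx
    refine ⟨(x, x), ?_⟩
    apply Subtype.ext
    apply NonemptyCompacts.ext
    show ({x, x} : Set E) = A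
    rw [h3, pair_eq_singleton]
  · have h' : (A : Set E).encard = 2 := by exact_mod_cast h
    obtain ⟨x, y, -, hxy⟩ := encard_eq_two.1 h'
    refine ⟨(x, y), ?_⟩
    apply Subtype.ext
    apply NonemptyCompacts.ext
    show ({x, y} : Set E) = A
    rw [hxy]

theorem dist_pp_le {E : Type} [MetricSpace E] (x y : E × E) : dist (pp x) (pp y) ≤ dist x y := by
  have h0 : dist (pp x) (pp y) = Metric.hausdorffDist ({x.1, x.2} : Set E) {y.1, y.2} := rfl
  rw [h0]
  have h1 : dist x.1 y.1 ≤ dist x y := le_max_left _ _
  have h2 : dist x.2 y.2 ≤ dist x y := le_max_right _ _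
  apply Metric.hausdorffDist_le_of_mem_dist dist_nonneg
  · rintro z (rfl | rfl)
    · exact ⟨y.1, Or.inl rfl, h1⟩
    · exact ⟨y.2, Or.inr rfl, h2⟩
  · rintro z (rfl | rfl)
    · exact ⟨x.1, Or.inl rfl, by rw [dist_comm]; exact h1⟩
    · exact ⟨x.2, Or.inr rfl, by rw [dist_comm]; exact h2⟩

theorem continuous_pp {E : Type} [MetricSpace E] : Continuous (pp (E := E)) := by
  apply LipschitzWith.continuous (K := 1)
  apply LipschitzWith.of_dist_le_mul
  intro x y
  rw [NNReal.coe_one, one_mul]
  exact dist_pp_le x y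

instance {E : Type} [MetricSpace E] [CompactSpace E] : CompactSpace (SymProd E 2) :=
  pp_surjective.compactSpace continuous_pp

theorem pp_isOpen_iff {E : Type} [MetricSpace E] [CompactSpace E] {S : Set (SymProd E 2)} :
    IsOpen (pp ⁻¹' S) ↔ IsOpen S :=
  ((continuous_pp (E := E)).isClosedMap.isQuotientMap continuous_pp pp_surjective).isOpen_preimage

/-- images under injective continuous maps -/
theorem Sm.image_injOn {X Y : Type} [MetricSpace X] [MetricSpace Y] {g : X → Y}
    {F : Set X} (hg : ContinuousOn g F) (hF : IsCompact F) (hi : InjOn g F) {n : ℕ}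
    (H : Sm F n) : Sm (g '' F) n := by
  have : CompactSpace F := isCompact_iff_compactSpace.1 hF
  have hcp : IsCompact (g '' F) := hF.image_of_continuousOn hg
  rw [sm_iff_covLT hcp hcp.isClosed]
  let f : F → (g '' F : Set Y) := fun x => ⟨g x.1, x.1, x.2, rfl⟩
  have hf : Continuous f := by
    apply Continuous.subtype_mk
    exact continuousOn_iff_continuous_domRestrict.1 hg
  have hb : Function.Bijective f := by
    constructor
    · intro x y hxy
      exact Subtype.ext (hi x.2 y.2 (congrArg Subtype.val hxy))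
    · rintro ⟨_, x, hx, rfl⟩
      exact ⟨⟨x, hx⟩, rfl⟩
  let e := Continuous.homeoOfEquivCompactToT2 (f := Equiv.ofBijective f hb) hf
  exact (H.covLT hF).homeo e

theorem Sm.biUnion {X Y : Type} [MetricSpace X] {n : ℕ} (t : Finset Y) (f : Y → Set X)
    (hc : ∀ i ∈ t, IsCompact (f i)) (h : ∀ i ∈ t, Sm (f i) n) :
    Sm (⋃ i ∈ t, f i) n := by
  classical
  induction t using Finset.induction_on with
  | empty =>
    simp only [Finset.notMem_empty, iUnion_of_empty, iUnion_empty]
    intro ε hε
    exact ⟨PEmpty, fun _ => PEmpty.elim, fun _ i => i.elim, fun _ i => i.elim, fun _ i => i.elim,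
      fun x hx => absurd hx (notMem_empty x)⟩
  | insert a s ha ih =>
    rw [Finset.set_biUnion_insert]
    apply Sm.union (hc a (Finset.mem_insert_self _ _))
      (s.finite_toSet.isCompact_biUnion fun i hi => hc i (Finset.mem_insert_of_mem hi))
      (h a (Finset.mem_insert_self _ _))
    exact ih (fun i hi => hc i (Finset.mem_insert_of_mem hi))
      (fun i hi => h i (Finset.mem_insert_of_mem hi))

/-- upper bound for the dimension of the symmetric square -/
theorem sm_symProd {E : Type} [MetricSpace E] [CompactSpace E] {n : ℕ}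
    (h1 : Sm (univ : Set E) n) (h2 : Sm (univ : Set (E × E)) n) :
    Sm (univ : Set (SymProd E 2)) n := by
  classical
  have hdg : IsCompact ((fun x : E => pp (x, x)) '' univ) :=
    isCompact_univ.image (continuous_pp.comp (by fun_prop))
  apply Sm.of_closed_compl isCompact_univ hdg.isClosed (subset_univ _)
  · apply Sm.image_injOn _ isCompact_univ _ h1
    · exact (continuous_pp.comp (by fun_prop)).continuousOn
    · intro x _ y _ hxy
      rcases pp_eq_iff.1 hxy with h | h
      · exact h.1
      · exact h.1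
  · intro F hF _ hd
    -- the two points of a member of `F` are at a definite distance
    have hK : IsCompact (pp ⁻¹' F : Set (E × E)) := (hF.preimage continuous_pp).isCompact
    obtain ⟨ε, hε, hεF⟩ : ∃ ε > 0, ∀ x ∈ (pp ⁻¹' F : Set (E × E)), ε ≤ dist x.1 x.2 := by
      rcases (pp ⁻¹' F : Set (E × E)).eq_empty_or_nonempty with he | hne
      · refine ⟨1, one_pos, fun x hx => ?_⟩
        rw [he] at hx; exact absurd hx (notMem_empty x)
      · obtain ⟨x, hx, hmin⟩ := hK.exists_isMinOn hne
          (f := fun x : E × E => dist x.1 x.2) (by fun_prop)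
        refine ⟨dist x.1 x.2, ?_, fun y hy => hmin hy⟩
        rw [gt_iff_lt, dist_pos]
        intro h
        apply disjoint_left.1 hd hx
        refine ⟨x.1, mem_univ _, ?_⟩
        show pp (x.1, x.1) = pp x
        apply pp_eq_iff.2
        exact Or.inl ⟨rfl, h⟩
    obtain ⟨t, -, ht⟩ := (isCompact_univ : IsCompact (univ : Set E)).elim_nhds_subcover
      (fun x => Metric.ball x (ε / 3)) (fun x _ => Metric.ball_mem_nhds x (by positivity))
    have hcp : ∀ a : E, IsCompact ((pp ⁻¹' F : Set (E × E)) ∩ {x | dist x.1 a ≤ ε / 3}) := by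
      intro a
      exact hK.inter_right (isClosed_le (by fun_prop) continuous_const)
    have hinj : ∀ a : E, InjOn pp ((pp ⁻¹' F : Set (E × E)) ∩ {x | dist x.1 a ≤ ε / 3}) := by
      intro a x hx y hy hxy
      rcases pp_eq_iff.1 hxy with h | h
      · exact Prod.ext h.1 h.2
      · exfalso
        have e1 := hεF x hx.1
        have e2 : dist x.1 a ≤ ε / 3 := hx.2
        have e3 : dist y.1 a ≤ ε / 3 := hy.2
        rw [← h.2] at e3
        have e4 := dist_triangle_right x.1 x.2 a
        linarith
    have hsub : F ⊆ ⋃ a ∈ t, pp '' ((pp ⁻¹' F : Set (E × E)) ∩ {x | dist x.1 a ≤ ε / 3}) := by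
      intro z hz
      obtain ⟨x, rfl⟩ := pp_surjective z
      have hx := ht (mem_univ x.1)
      simp only [mem_iUnion] at hx
      obtain ⟨a, ha, hxa⟩ := hx
      refine mem_iUnion₂.2 ⟨a, ha, x, ⟨hz, ?_⟩, rfl⟩
      exact (Metric.mem_ball.1 hxa).le
    apply Sm.mono_set hsub
    apply Sm.biUnion
    · intro a _
      exact (hcp a).image continuous_pp
    · intro a _
      exact Sm.image_injOn continuous_pp.continuousOn (hcp a) (hinj a) (h2.mono_set (subset_univ _))

end Pool.Agent.Helper52.CM
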