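import Pool.Agent.Helper52.CM.Flat

namespace Pool.Agent.Helper52.CM

open Set TopologicalSpace Topology

/-- ambient space: complex sequences, with a product metric -/
def HS : Type := ℕ → ℂ

noncomputable instance : MetricSpace HS := PiCountable.metricSpace (ι := ℕ) (F := fun _ => ℂ)

theorem continuous_coord (i : ℕ) : Continuous (fun y : HS => (y i : ℂ)) :=
  continuous_apply (A := fun _ : ℕ => ℂ) i

theorem continuous_toHS {X : Type*} [TopologicalSpace X] {f : X → HS}
    (h : ∀ i, Continuous fun x => f x i) : Continuous f :=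
  continuous_pi (A := fun _ : ℕ => ℂ) h

/-- keep the coordinates `0, ..., j`, set the others to one -/
def ret (j : ℕ) (y : HS) : HS := fun i => if i ≤ j then y i else 1

theorem ret_apply (j : ℕ) (y : HS) (i : ℕ) : ret j y i = if i ≤ j then y i else 1 := rfl

theorem continuous_ret (j : ℕ) : Continuous (ret j) := by
  apply continuous_toHS
  intro i
  by_cases h : i ≤ j
  · simp only [ret_apply, h, if_true]; exact continuous_coord i
  · simp only [ret_apply, h, if_false]; exact continuous_const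

theorem ret_ret {i j : ℕ} (h : i ≤ j) (y : HS) : ret i (ret j y) = ret i y := by
  funext k
  simp only [ret_apply]
  split_ifs with h1 h2
  · rfl
  · omega
  · rfl

theorem dist_ret_le (j : ℕ) (y : HS) : dist (ret j y) y ≤ (1 / 2 : ℝ) ^ j := by
  have h0 : dist (ret j y) y = ∑' i, min ((2 : ℝ)⁻¹ ^ (Encodable.encode i))
      (dist (ret j y i) (y i)) := PiCountable.dist_eq_tsum (F := fun _ : ℕ => ℂ) (ret j y) y
  rw [h0]
  have hsum : Summable fun i : ℕ => (2 : ℝ)⁻¹ ^ (i + (j + 1)) := by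
    simp_rw [pow_add]
    exact (summable_geometric_of_lt_one (by norm_num) (by norm_num)).mul_right _
  have hs1 := PiCountable.dist_summable (F := fun _ : ℕ => ℂ) (ret j y) y
  have h1 := hs1.sum_add_tsum_nat_add (j + 1)
  rw [← h1]
  have h2 : ∑ i ∈ Finset.range (j + 1), min ((2 : ℝ)⁻¹ ^ (Encodable.encode i))
      (dist (ret j y i) (y i)) = 0 := by
    apply Finset.sum_eq_zero
    intro i hi
    have : i ≤ j := by have := Finset.mem_range.1 hi; omega
    rw [ret_apply, if_pos this, dist_self]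
    exact min_eq_right (by positivity)
  rw [h2, zero_add]
  have h3 : ∑' i : ℕ, min ((2 : ℝ)⁻¹ ^ (Encodable.encode (i + (j + 1))))
      (dist (ret j y (i + (j + 1))) (y (i + (j + 1)))) ≤ ∑' i : ℕ, (2 : ℝ)⁻¹ ^ (i + (j + 1)) := by
    apply Summable.tsum_le_tsum _ ((summable_nat_add_iff (j + 1)).2 hs1) hsum
    intro i
    exact min_le_left _ _
  refine h3.trans ?_
  simp_rw [pow_add]
  rw [tsum_mul_right, tsum_geometric_of_lt_one (by norm_num) (by norm_num)]
  apply le_of_eq
  norm_num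
  ring

/-- the compact ambient set -/
def KS : Set HS := {y | ‖y 0‖ ≤ 1 ∧ ∀ i, ‖y (i + 1)‖ = 1}

theorem isCompact_KS : IsCompact KS := by
  have h : IsCompact (Set.pi univ (fun i : ℕ => if i = 0 then Metric.closedBall (0 : ℂ) 1 else
      Metric.sphere (0 : ℂ) 1) : Set (ℕ → ℂ)) := by
    apply isCompact_univ_pi
    intro i
    split_ifs
    · exact isCompact_closedBall 0 1
    · exact isCompact_sphere 0 1
  have e : (KS : Set HS) = (Set.pi univ (fun i : ℕ => if i = 0 then Metric.closedBall (0 : ℂ) 1 else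
      Metric.sphere (0 : ℂ) 1) : Set (ℕ → ℂ)) := by
    ext y
    constructor
    · rintro ⟨h1, h2⟩ i _
      rcases i with _ | i
      · simpa using h1
      · simpa using h2 i
    · intro h
      refine ⟨?_, fun i => ?_⟩
      · have := h 0 (mem_univ _); simpa using this
      · have := h (i + 1) (mem_univ _); simpa using this
  rw [e]
  exact h

theorem ret_mem_KS {j : ℕ} {y : HS} (hy : y ∈ KS) : ret j y ∈ KS := by
  refine ⟨?_, fun i => ?_⟩
  · rw [ret_apply, if_pos (Nat.zero_le _)]; exact hy.1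
  · rw [ret_apply]
    split_ifs
    · exact hy.2 i
    · exact norm_one

/-- properties of a stage of the construction -/
structure StageP (j : ℕ) (Y : Set HS) : Prop where
  closed : IsClosed Y
  sub : Y ⊆ KS
  tail : ∀ y ∈ Y, ∀ i, j < i → y i = 1
  sm : Sm Y 3
  inj : ∀ y ∈ Y, ∀ y' ∈ Y, ‖y 0‖ = 1 → y 0 = y' 0 → y = y'
  surj : ∀ u : ℂ, ‖u‖ = 1 → ∃ y ∈ Y, y 0 = u

theorem StageP.compact {j : ℕ} {Y : Set HS} (h : StageP j Y) : IsCompact Y :=
  isCompact_KS.of_isClosed_subset h.closed h.sub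

theorem StageP.ret_eq {j : ℕ} {Y : Set HS} (h : StageP j Y) {y : HS} (hy : y ∈ Y) :
    ret j y = y := by
  funext i
  rw [ret_apply]
  split_ifs with hi
  · rfl
  · exact (h.tail y hy i (by omega)).symm

theorem StageP.sm_boundary {j : ℕ} {Y : Set HS} (h : StageP j Y) :
    Sm (Y ∩ {y | ‖y 0‖ = 1}) 2 := by
  apply Sm.of_injOn (continuous_coord 0)
    (h.compact.inter_right (isClosed_eq (continuous_coord 0).norm continuous_const))
    _ _ sm_circle
  · intro y hy
    rw [mem_sphere_zero_iff_norm]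
    exact hy.2
  · intro x hx y hy hxy
    rw [h.inj x hx.1 y hy.1 hx.2 hxy, dist_self]

/-- the initial stage: the closed disc -/
def Y0 : Set HS := {y | ‖y 0‖ ≤ 1 ∧ ∀ i, 0 < i → y i = 1}

theorem stage_zero : StageP 0 Y0 := by
  have hc : IsClosed Y0 := by
    have : Y0 = {y | ‖y 0‖ ≤ 1} ∩ ⋂ i, {y : HS | 0 < i → y i = 1} := by
      ext y; simp [Y0]
    rw [this]
    apply (isClosed_le (continuous_coord 0).norm continuous_const).inter
    apply isClosed_iInter
    intro i
    by_cases hi : 0 < i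
    · simp only [hi, true_imp_iff]; exact isClosed_eq (continuous_coord i) continuous_const
    · simp [hi]
  have hs : Y0 ⊆ KS := by
    rintro y ⟨h1, h2⟩
    exact ⟨h1, fun i => by rw [h2 (i + 1) (Nat.succ_pos i)]; exact norm_one⟩
  have hinj : ∀ y ∈ Y0, ∀ y' ∈ Y0, y 0 = y' 0 → y = y' := by
    intro y hy y' hy' h
    funext i
    rcases i with _ | i
    · exact h
    · rw [hy.2 (i + 1) (Nat.succ_pos i), hy'.2 (i + 1) (Nat.succ_pos i)]
  refine ⟨hc, hs, fun y hy i hi => hy.2 i hi, ?_, fun y hy y' hy' _ h => hinj y hy y' hy' h, ?_⟩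
  · apply Sm.of_injOn (continuous_coord 0) (isCompact_KS.of_isClosed_subset hc hs)
      (mapsTo_univ _ _) _ (sm_complex univ)
    intro x hx y hy h
    rw [hinj x hx y hy h, dist_self]
  · intro u hu
    refine ⟨fun i => if i = 0 then u else 1, ⟨?_, ?_⟩, ?_⟩
    · simp [hu]
    · intro i hi; simp [hi.ne']
    · simp

/-- the next stage -/
def nextY (p j : ℕ) (Y : Set HS) (f : HS → ℂ) : Set HS :=
  {y | y ∈ KS ∧ ret j y ∈ Y ∧ f (ret j y) ^ p = (‖f (ret j y)‖ : ℂ) ^ p * y (j + 1) ∧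
    ∀ i, j + 1 < i → y i = 1}

theorem isClosed_nextY {p j : ℕ} {Y : Set HS} (hY : IsClosed Y) {f : HS → ℂ} (hf : Continuous f) :
    IsClosed (nextY p j Y f) := by
  have : nextY p j Y f = KS ∩ ((ret j ⁻¹' Y) ∩
      ({y | f (ret j y) ^ p = (‖f (ret j y)‖ : ℂ) ^ p * y (j + 1)} ∩
        ⋂ i, {y : HS | j + 1 < i → y i = 1})) := by
    ext y; simp [nextY]; tauto
  rw [this]
  apply isCompact_KS.isClosed.inter
  apply (hY.preimage (continuous_ret j)).inter
  have hfr : Continuous fun y => f (ret j y) := hf.comp (continuous_ret j)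
  apply IsClosed.inter
  · exact isClosed_eq (hfr.pow p)
      (((Complex.continuous_ofReal.comp hfr.norm).pow p).mul (continuous_coord (j + 1)))
  · apply isClosed_iInter
    intro i
    by_cases hi : j + 1 < i
    · simp only [hi, true_imp_iff]; exact isClosed_eq (continuous_coord i) continuous_const
    · simp [hi]

theorem nextY_ext {p j : ℕ} {Y : Set HS} {f : HS → ℂ} {x y : HS} (hx : x ∈ nextY p j Y f)
    (hy : y ∈ nextY p j Y f) (h1 : ret j x = ret j y) (h2 : x (j + 1) = y (j + 1)) : x = y := by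
  funext i
  rcases lt_trichotomy i (j + 1) with h | h | h
  · have := congrFun h1 i
    simpa only [ret_apply, if_pos (show i ≤ j by omega)] using this
  · rw [h]; exact h2
  · rw [hx.2.2.2 i h, hy.2.2.2 i h]

theorem nextY_ext' {p j : ℕ} {Y : Set HS} {f : HS → ℂ} {x y : HS} (hx : x ∈ nextY p j Y f)
    (hy : y ∈ nextY p j Y f) (h1 : ret j x = ret j y) (hf : f (ret j x) ≠ 0) : x = y := by
  apply nextY_ext hx hy h1
  have e1 := hx.2.2.1
  have e2 := hy.2.2.1
  rw [← h1] at e2
  rw [e1] at e2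
  have : (‖f (ret j x)‖ : ℂ) ^ p ≠ 0 := by
    apply pow_ne_zero
    have := norm_pos_iff.2 hf
    exact_mod_cast this.ne'
  exact mul_left_cancel₀ this e2

/-- insert a value at coordinate `j+1` -/
def ins (j : ℕ) (y : HS) (w : ℂ) : HS := fun i => if i ≤ j then y i else if i = j + 1 then w else 1

theorem ret_ins (j : ℕ) (y : HS) (w : ℂ) : ret j (ins j y w) = ret j y := by
  funext i
  simp only [ret_apply, ins]
  split_ifs with h
  · rfl
  · rfl

theorem ins_self (j : ℕ) (y : HS) (w : ℂ) : ins j y w (j + 1) = w := by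
  simp [ins]

theorem ins_mem_nextY {p j : ℕ} {Y : Set HS} (hY : StageP j Y) {f : HS → ℂ} {y : HS} (hy : y ∈ Y)
    {w : ℂ} (hw : ‖w‖ = 1) (h : f y ^ p = (‖f y‖ : ℂ) ^ p * w) : ins j y w ∈ nextY p j Y f := by
  have hr : ret j (ins j y w) = y := by rw [ret_ins]; exact hY.ret_eq hy
  refine ⟨⟨?_, fun i => ?_⟩, ?_, ?_, ?_⟩
  · simp only [ins, Nat.zero_le, if_true]; exact (hY.sub hy).1
  · simp only [ins]
    split_ifs with h1 h2
    · exact (hY.sub hy).2 i
    · exact hw
    · exact norm_one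
  · rw [hr]; exact hy
  · rw [hr, ins_self]; exact h
  · intro i hi
    simp only [ins]
    rw [if_neg (by omega), if_neg (by omega)]

/-- the phase -/
noncomputable def ph (z : ℂ) : ℂ := z / (‖z‖ : ℂ)

theorem norm_ph {z : ℂ} (hz : z ≠ 0) : ‖ph z‖ = 1 := by
  unfold ph
  rw [norm_div, Complex.norm_real, norm_norm]
  exact div_self (norm_pos_iff.2 hz).ne'

theorem pow_eq_ph (z : ℂ) (p : ℕ) (hz : z ≠ 0) : z ^ p = (‖z‖ : ℂ) ^ p * ph z ^ p := by
  unfold ph
  have : (‖z‖ : ℂ) ≠ 0 := by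
    have := norm_pos_iff.2 hz
    exact_mod_cast this.ne'
  rw [← mul_pow, mul_div_cancel₀ _ this]

/-- the dimension of the next stage -/
theorem sm_nextY {p j : ℕ} {Y : Set HS} (hY : StageP j Y) {f : HS → ℂ}
    (hf : Continuous f) (hZ : Sm (Y ∩ {y | f y = 0}) 1) : Sm (nextY p j Y f) 3 := by
  have hcl := isClosed_nextY (p := p) (j := j) hY.closed hf
  have hcp : IsCompact (nextY p j Y f) := isCompact_KS.of_isClosed_subset hcl fun y hy => hy.1
  have hfr : Continuous fun y => f (ret j y) := hf.comp (continuous_ret j)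
  have hZ'c : IsClosed (nextY p j Y f ∩ {y | f (ret j y) = 0}) :=
    hcl.inter (isClosed_eq hfr continuous_const)
  apply Sm.of_closed_compl hcp hZ'c inter_subset_left
  · apply Sm.mono_nat (show 2 ≤ 3 by norm_num)
    apply Sm.of_injOn (g := fun y : HS => (ret j y, y (j + 1)))
      ((continuous_ret j).prodMk (continuous_coord (j + 1)))
      (hcp.inter_right (isClosed_eq hfr continuous_const)) _ _ (hZ.prod_one sm_circle)
    · rintro y ⟨hy, hy'⟩
      refine ⟨⟨hy.2.1, hy'⟩, ?_⟩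
      rw [mem_sphere_zero_iff_norm]
      exact hy.1.2 j
    · rintro x ⟨hx, hx'⟩ y ⟨hy, hy'⟩ h
      rw [nextY_ext hx hy (congrArg Prod.fst h) (congrArg Prod.snd h), dist_self]
  · intro F hF hFs hd
    apply Sm.of_injOn (continuous_ret j) (hcp.of_isClosed_subset hF hFs) _ _ hY.sm
    · intro y hy; exact (hFs hy).2.1
    · intro x hx y hy h
      rw [nextY_ext' (hFs hx) (hFs hy) h (fun h0 => disjoint_left.1 hd hx ⟨hFs hx, h0⟩), dist_self]

theorem stage_succ {p j : ℕ} {Y : Set HS} (hY : StageP j Y) {f : HS → ℂ}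
    (hf : Continuous f) (hfb : ∀ y ∈ Y, ‖y 0‖ = 1 → f y ≠ 0)
    (hZ : Sm (Y ∩ {y | f y = 0}) 1) : StageP (j + 1) (nextY p j Y f) := by
  refine ⟨isClosed_nextY hY.closed hf, fun y hy => hy.1, fun y hy i hi => hy.2.2.2 i hi,
    sm_nextY hY hf hZ, ?_, ?_⟩
  · intro y hy y' hy' h1 h2
    have h3 : ret j y = ret j y' := by
      apply hY.inj _ hy.2.1 _ hy'.2.1
      · rw [ret_apply, if_pos (Nat.zero_le _)]; exact h1
      · rw [ret_apply, ret_apply, if_pos (Nat.zero_le _), if_pos (Nat.zero_le _)]; exact h2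
    apply nextY_ext' hy hy' h3
    apply hfb _ hy.2.1
    rw [ret_apply, if_pos (Nat.zero_le _)]; exact h1
  · intro u hu
    obtain ⟨y, hy, hyu⟩ := hY.surj u hu
    have hfy : f y ≠ 0 := hfb y hy (by rw [hyu]; exact hu)
    refine ⟨ins j y (ph (f y) ^ p), ins_mem_nextY hY hy ?_ (pow_eq_ph _ _ hfy), ?_⟩
    · rw [norm_pow, norm_ph hfy, one_pow]
    · simp only [ins, Nat.zero_le, if_true]; exact hyu

/-- choice of the next function -/
theorem exists_next_fun {j : ℕ} {Y : Set HS} (hY : StageP j Y) (h : C(HS, ℂ)) :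
    ∃ f : C(HS, ℂ), (∀ y ∈ Y, ‖f y - h y‖ < 1 / 8) ∧ (∀ y ∈ Y, ‖y 0‖ = 1 → f y ≠ 0) ∧
      Sm (Y ∩ {y | f y = 0}) 1 := by
  have hcp := hY.compact
  have : CompactSpace Y := isCompact_iff_compactSpace.1 hcp
  have hDc : IsClosed ({y : Y | ‖y.1 0‖ = 1}) :=
    isClosed_eq ((continuous_coord 0).comp continuous_subtype_val).norm continuous_const
  have hD : Sm ({y : Y | ‖y.1 0‖ = 1}) 2 := by
    intro ε hε
    exact (hY.sm_boundary ε hε).pullback (g := (Subtype.val : Y → HS)) continuous_subtype_val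
      (fun x hx => ⟨x.2, hx⟩) (fun _ _ _ _ h => h)
  obtain ⟨g, hg1, hg2, hg3⟩ := exists_generic hY.sm.subtype hDc hD
    (⟨fun y : Y => h y, by fun_prop⟩ : C(Y, ℂ)) (show (0 : ℝ) < 1 / 8 by norm_num)
  obtain ⟨f, hf⟩ := ContinuousMap.exists_restrict_eq hY.closed g
  have hf' : ∀ y : Y, f y = g y := fun y => congrArg (fun F : C(Y, ℂ) => F y) hf
  refine ⟨f, ?_, ?_, ?_⟩
  · intro y hy
    have := hg1 ⟨y, hy⟩
    rw [← hf'] at this
    exact this
  · intro y hy h1
    have := hg2 ⟨y, hy⟩ h1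
    rw [← hf'] at this
    exact this
  · have h4 := Sm.image_val hcp (isClosed_eq g.continuous continuous_const) hg3
    apply h4.mono_set
    rintro y ⟨hy, hy0⟩
    refine ⟨⟨y, hy⟩, ?_, rfl⟩
    simp only [mem_ofPred_eq] at hy0 ⊢
    rw [← hf']
    exact hy0

/-- extended dense sequence -/
theorem exists_dense_seq : ∃ d : ℕ → C(HS, ℂ), ∀ (f : C(HS, ℂ)) (ε : ℝ), 0 < ε →
    ∃ n, ∀ y ∈ KS, ‖f y - d n y‖ < ε := by
  have : CompactSpace KS := isCompact_iff_compactSpace.1 isCompact_KS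
  have hne : Nonempty C(KS, ℂ) := ⟨0⟩
  have hext : ∀ n : ℕ, ∃ F : C(HS, ℂ), F.restrict KS = denseSeq C(KS, ℂ) n := fun n =>
    ContinuousMap.exists_restrict_eq isCompact_KS.isClosed _
  choose d hd using hext
  refine ⟨d, fun f ε hε => ?_⟩
  obtain ⟨n, hn⟩ := (denseRange_denseSeq C(KS, ℂ)).exists_dist_lt (f.restrict KS) hε
  refine ⟨n, fun y hy => ?_⟩
  rw [← hd n] at hn
  have := (ContinuousMap.dist_apply_le_dist (⟨y, hy⟩ : KS)).trans_lt hn
  rw [dist_eq_norm] at this
  exact this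

/-- the fixed dense sequence -/
noncomputable def dseq : ℕ → C(HS, ℂ) := exists_dense_seq.choose

theorem dseq_spec (f : C(HS, ℂ)) {ε : ℝ} (hε : 0 < ε) : ∃ n, ∀ y ∈ KS, ‖f y - dseq n y‖ < ε :=
  exists_dense_seq.choose_spec f ε hε

/-- chosen function at a stage -/
noncomputable def nf {j : ℕ} {Y : Set HS} (hY : StageP j Y) (h : C(HS, ℂ)) : C(HS, ℂ) :=
  (exists_next_fun hY h).choose

theorem nf_spec {j : ℕ} {Y : Set HS} (hY : StageP j Y) (h : C(HS, ℂ)) :
    (∀ y ∈ Y, ‖nf hY h y - h y‖ < 1 / 8) ∧ (∀ y ∈ Y, ‖y 0‖ = 1 → nf hY h y ≠ 0) ∧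
      Sm (Y ∩ {y | nf hY h y = 0}) 1 := (exists_next_fun hY h).choose_spec

/-- the tower of compacta -/
noncomputable def tower (p : ℕ) : (j : ℕ) → {Y : Set HS // StageP j Y}
  | 0 => ⟨Y0, stage_zero⟩
  | j + 1 => ⟨nextY p j (tower p j).1 (nf (tower p j).2 (dseq (Nat.unpair j).1)),
      stage_succ (tower p j).2 (nf (tower p j).2 (dseq (Nat.unpair j).1)).continuous
        (nf_spec (tower p j).2 _).2.1 (nf_spec (tower p j).2 _).2.2⟩

/-- stages -/
noncomputable def YY (p j : ℕ) : Set HS := (tower p j).1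

theorem YY_stage (p j : ℕ) : StageP j (YY p j) := (tower p j).2

/-- the defining functions -/
noncomputable def ff (p j : ℕ) : C(HS, ℂ) := nf (tower p j).2 (dseq (Nat.unpair j).1)

theorem YY_zero (p : ℕ) : YY p 0 = Y0 := rfl

theorem YY_succ (p j : ℕ) : YY p (j + 1) = nextY p j (YY p j) (ff p j) := rfl

theorem ff_near (p j : ℕ) : ∀ y ∈ YY p j, ‖ff p j y - dseq (Nat.unpair j).1 y‖ < 1 / 8 :=
  (nf_spec (tower p j).2 _).1

theorem ff_boundary (p j : ℕ) : ∀ y ∈ YY p j, ‖y 0‖ = 1 → ff p j y ≠ 0 :=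
  (nf_spec (tower p j).2 _).2.1

theorem ff_zero (p j : ℕ) : Sm (YY p j ∩ {y | ff p j y = 0}) 1 :=
  (nf_spec (tower p j).2 _).2.2

/-- the limit compactum -/
def XX (p : ℕ) : Set HS := {y | y ∈ KS ∧ ∀ j, ret j y ∈ YY p j}

theorem isClosed_XX (p : ℕ) : IsClosed (XX p) := by
  have : XX p = KS ∩ ⋂ j, ret j ⁻¹' YY p j := by ext y; simp [XX]
  rw [this]
  exact isCompact_KS.isClosed.inter
    (isClosed_iInter fun j => (YY_stage p j).closed.preimage (continuous_ret j))

theorem isCompact_XX (p : ℕ) : IsCompact (XX p) :=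
  isCompact_KS.of_isClosed_subset (isClosed_XX p) fun _ h => h.1

theorem sm_XX (p : ℕ) : Sm (XX p) 3 := by
  intro ε hε
  obtain ⟨j, hj⟩ := exists_pow_lt_of_lt_one (show 0 < ε / 3 by positivity)
    (show (1 / 2 : ℝ) < 1 by norm_num)
  apply ((YY_stage p j).sm (ε / 3) (by positivity)).pullback (continuous_ret j)
    (fun y hy => hy.2 j)
  intro x _ y _ h
  have h1 := dist_ret_le j x
  have h2 := dist_ret_le j y
  have h3 := dist_triangle4 x (ret j x) (ret j y) y
  rw [dist_comm x (ret j x)] at h3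
  linarith

/-- the torsion property of the limit -/
theorem XX_coord (p j : ℕ) {y : HS} (hy : y ∈ XX p) :
    ff p j (ret j y) ^ p = (‖ff p j (ret j y)‖ : ℂ) ^ p * y (j + 1) := by
  have h := hy.2 (j + 1)
  rw [YY_succ] at h
  have h2 := h.2.2.1
  rw [ret_ret (Nat.le_succ j)] at h2
  rw [h2, ret_apply, if_pos le_rfl]

/-- logarithm of a circle-valued map close to another one -/
theorem exists_log {A : Type*} [TopologicalSpace A] {u : A → ℂ} (hu : Continuous u)
    (h2 : ∀ a, 0 < (u a).re) :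
    Continuous fun a => Complex.arg (u a) := by
  rw [continuous_iff_continuousAt]
  intro a
  exact (Complex.continuousAt_arg (Or.inl (h2 a))).comp hu.continuousAt

theorem exp_arg_of_norm {z : ℂ} (hz : ‖z‖ = 1) : Complex.exp (Complex.arg z * Complex.I) = z := by
  have := Complex.norm_mul_exp_arg_mul_I z
  rw [hz] at this
  simpa using this

theorem ext_XX (p : ℕ) : Ext p (XX p) := by
  intro A hA f
  -- extend the map to the ambient space
  have hXc := isClosed_XX p
  have hA' : IsClosed (Subtype.val '' A : Set HS) :=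
    hXc.isClosedEmbedding_subtypeVal.isClosedMap _ hA
  let e : A → (Subtype.val '' A : Set HS) := fun a => ⟨a.1.1, a.1, a.2, rfl⟩
  let e' : (Subtype.val '' A : Set HS) → A := fun b => ⟨⟨b.1, by
    obtain ⟨a, -, ha⟩ := b.2; rw [← ha]; exact a.2⟩, by
    obtain ⟨a, ha1, ha2⟩ := b.2
    have : (⟨b.1, by rw [← ha2]; exact a.2⟩ : XX p) = a := Subtype.ext ha2.symm
    rw [this]; exact ha1⟩
  have he' : Continuous e' := by
    apply Continuous.subtype_mk
    apply Continuous.subtype_mk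
    exact continuous_subtype_val
  obtain ⟨F, hF⟩ := ContinuousMap.exists_restrict_eq hA'
    (⟨fun b => (f (e' b) : ℂ), circle_coe_continuous.comp (f.continuous.comp he')⟩ :
      C((Subtype.val '' A : Set HS), ℂ))
  have hF' : ∀ a : A, F a.1.1 = (f a : ℂ) := fun a =>
    congrArg (fun G : C((Subtype.val '' A : Set HS), ℂ) => G (e a)) hF
  obtain ⟨n, hn⟩ := dseq_spec F (show (0 : ℝ) < 1 / 8 by norm_num)
  obtain ⟨δ, hδ, hd⟩ := Metric.uniformContinuousOn_iff.1
    (isCompact_KS.uniformContinuousOn_of_continuous (dseq n).continuous.continuousOn) (1 / 8)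
      (by norm_num)
  obtain ⟨m, hm⟩ := exists_pow_lt_of_lt_one hδ (show (1 / 2 : ℝ) < 1 by norm_num)
  set j : ℕ := Nat.pair n m with hj
  have hjm : m ≤ j := Nat.right_le_pair n m
  have hjn : (Nat.unpair j).1 = n := by rw [hj, Nat.unpair_pair]
  have hnear : ∀ a : A, ‖ff p j (ret j a.1.1) - (f a : ℂ)‖ < 3 / 8 := by
    intro a
    have hy := a.1.2
    have k1 := ff_near p j _ (hy.2 j)
    rw [hjn] at k1
    have k2 := hn a.1.1 hy.1
    have k3 := hd (ret j a.1.1) (ret_mem_KS hy.1) a.1.1 hy.1 (by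
      refine (dist_ret_le j _).trans_lt (lt_of_le_of_lt ?_ hm)
      exact pow_le_pow_of_le_one (by norm_num) (by norm_num) hjm)
    rw [dist_eq_norm] at k3
    rw [hF' a] at k2
    have k4 := norm_sub_le_norm_sub_add_norm_sub (ff p j (ret j a.1.1))
      (dseq n (ret j a.1.1)) (f a : ℂ)
    have k5 := norm_sub_le_norm_sub_add_norm_sub (dseq n (ret j a.1.1))
      (dseq n a.1.1) (f a : ℂ)
    rw [norm_sub_rev (f a : ℂ)] at k2
    linarith
  have hne : ∀ a : A, ff p j (ret j a.1.1) ≠ 0 := by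
    intro a h
    have := hnear a
    rw [h, zero_sub, norm_neg, Circle.norm_coe] at this
    norm_num at this
  -- ratio
  set u : A → ℂ := fun a => ph (ff p j (ret j a.1.1)) / (f a : ℂ) with hu
  have hffc : Continuous fun a : A => ff p j (ret j a.1.1) :=
    (ff p j).continuous.comp ((continuous_ret j).comp
      (continuous_subtype_val.comp continuous_subtype_val))
  have hfc : Continuous fun a : A => (f a : ℂ) := circle_coe_continuous.comp f.continuous
  have huc : Continuous u := by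
    apply Continuous.div _ hfc fun a => Circle.coe_ne_zero _
    unfold ph
    apply hffc.div (Complex.continuous_ofReal.comp hffc.norm)
    intro a
    have := norm_pos_iff.2 (hne a)
    simp only [Function.comp]
    exact_mod_cast this.ne'
  have hu1 : ∀ a, ‖u a‖ = 1 := by
    intro a
    rw [hu]
    simp only
    rw [norm_div, norm_ph (hne a), Circle.norm_coe, div_one]
  have hu2 : ∀ a, 0 < (u a).re := by
    intro a
    have h1 : u a = ((‖ff p j (ret j a.1.1)‖⁻¹ : ℝ) : ℂ) * (ff p j (ret j a.1.1) / (f a : ℂ)) := by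
      rw [hu]; simp only [ph]; push_cast; ring
    rw [h1, Complex.re_ofReal_mul]
    apply mul_pos (inv_pos.2 (norm_pos_iff.2 (hne a)))
    have h2 : ‖ff p j (ret j a.1.1) / (f a : ℂ) - 1‖ < 3 / 8 := by
      have h3 : ff p j (ret j a.1.1) / (f a : ℂ) - 1 =
          (ff p j (ret j a.1.1) - (f a : ℂ)) / (f a : ℂ) := by
        rw [sub_div, div_self (Circle.coe_ne_zero _)]
      rw [h3, norm_div, Circle.norm_coe, div_one]
      exact hnear a
    have h4 := (abs_lt.1 ((Complex.abs_re_le_norm _).trans_lt h2)).1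
    rw [Complex.sub_re, Complex.one_re] at h4
    linarith
  have hθ := exists_log huc hu2
  obtain ⟨T, hT⟩ := ContinuousMap.exists_restrict_eq hA (⟨_, hθ⟩ : C(A, ℝ))
  have hT' : ∀ a : A, T a = Complex.arg (u a) := fun a =>
    congrArg (fun G : C(A, ℝ) => G a) hT
  -- the extension
  let G : XX p → ℂ := fun y => y.1 (j + 1) * Complex.exp (-((p : ℂ) * T y * Complex.I))
  have hGc : Continuous G := by
    apply ((continuous_coord (j + 1)).comp continuous_subtype_val).mul
    have := Complex.continuous_ofReal.comp T.continuous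
    fun_prop
  have hG1 : ∀ y, ‖G y‖ = 1 := by
    intro y
    simp only [G]
    rw [norm_mul, y.2.1.2 j, one_mul, Complex.norm_exp]
    simp
  refine ⟨toCircle G hGc hG1, ?_⟩
  intro a
  apply Circle.ext
  rw [coe_toCircle, Circle.coe_pow]
  simp only [G]
  rw [hT' a]
  have h1 := XX_coord p j a.1.2
  rw [pow_eq_ph _ _ (hne a)] at h1
  have h2 : (‖ff p j (ret j a.1.1)‖ : ℂ) ^ p ≠ 0 := by
    apply pow_ne_zero
    have := norm_pos_iff.2 (hne a)
    exact_mod_cast this.ne'
  have h3 : ph (ff p j (ret j a.1.1)) ^ p = a.1.1 (j + 1) := mul_left_cancel₀ h2 h1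
  have h4 : Complex.exp (-((p : ℂ) * Complex.arg (u a) * Complex.I)) = (u a ^ p)⁻¹ := by
    rw [Complex.exp_neg]
    congr 1
    rw [mul_assoc, Complex.exp_nat_mul, exp_arg_of_norm (hu1 a)]
  rw [h4, ← h3]
  rw [hu]
  simp only
  rw [div_pow, inv_div]
  have h5 : ph (ff p j (ret j a.1.1)) ^ p ≠ 0 := by
    apply pow_ne_zero
    intro h
    have := norm_ph (hne a)
    rw [h, norm_zero] at this
    exact zero_ne_one this
  field_simp

end Pool.Agent.Helper52.CM
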